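import Mathlib

/-!
Baire category lemmas on closed sets and the Effros theorem for the full homeomorphism group of a
compact metric space.
-/

namespace Pool.Agent.P.MP_64e39e_gt
open Set Metric Topology Filter

lemma exists_seq_rec {α : Type} (Inv : ℕ → α → Prop) (Rel : ℕ → α → α → Prop) (s0 : α)
    (h0 : Inv 0 s0) (hstep : ∀ n s, Inv n s → ∃ s', Inv (n + 1) s' ∧ Rel n s s') :
    ∃ f : ℕ → α, f 0 = s0 ∧ ∀ n, Inv n (f n) ∧ Rel n (f n) (f (n + 1)) := by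
  choose nx h1 h2 using hstep
  let g : ∀ n : ℕ, {s : α // Inv n s} := fun n =>
    Nat.rec ⟨s0, h0⟩ (fun n s => ⟨nx n s.1 s.2, h1 n s.1 s.2⟩) n
  exact ⟨fun n => (g n).1, rfl, fun n => ⟨(g n).2, h2 n (g n).1 (g n).2⟩⟩

section Baire
variable {Y : Type} [MetricSpace Y] [CompactSpace Y]

lemma baire_closed {K W : Set Y} (hK : IsClosed K) (hW : IsOpen W) (hne : (K ∩ W).Nonempty)
    {ι : Type} [Countable ι] (G : ι → Set Y) (hG : ∀ i, IsOpen (G i))
    (hd : ∀ i, ∀ N, IsOpen N → N ⊆ W → (K ∩ N).Nonempty → (K ∩ N ∩ G i).Nonempty) :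
    ∃ z ∈ K, z ∈ W ∧ ∀ i, z ∈ G i := by
  have : CompactSpace K := isCompact_iff_compactSpace.mp hK.isCompact
  have hdense : Dense (⋂ i, ((↑) : K → Y) ⁻¹' (G i ∪ (closure (K ∩ W))ᶜ)) := by
    refine dense_iInter_of_isOpen (fun i => ((hG i).union
      isClosed_closure.isOpen_compl).preimage continuous_subtype_val) (fun i => ?_)
    rw [dense_iff_inter_open]
    rintro U hU ⟨z, hz⟩
    obtain ⟨N, hN, rfl⟩ := isOpen_induced_iff.mp hU
    by_cases h : (K ∩ (N ∩ W)).Nonempty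
    · obtain ⟨w, ⟨hwK, hwN⟩, hwG⟩ := hd i (N ∩ W) (hN.inter hW) inter_subset_right h
      exact ⟨⟨w, hwK⟩, hwN.1, Or.inl hwG⟩
    · refine ⟨z, hz, Or.inr fun hc => ?_⟩
      obtain ⟨w, hwN, hwK, hwW⟩ := mem_closure_iff.mp hc N hN hz
      exact h ⟨w, hwK, hwN, hwW⟩
  obtain ⟨z0, hz0K, hz0W⟩ := hne
  obtain ⟨z, hzW, hz⟩ := hdense.inter_open_nonempty (((↑) : K → Y) ⁻¹' W)
    (hW.preimage continuous_subtype_val) ⟨⟨z0, hz0K⟩, hz0W⟩
  refine ⟨z, z.2, hzW, fun i => ?_⟩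
  rcases mem_iInter.mp hz i with h | h
  · exact h
  · exact (h (subset_closure ⟨z.2, hzW⟩)).elim

lemma baire_generic {K W : Set Y} (hK : IsClosed K) (hW : IsOpen W) (hne : (K ∩ W).Nonempty)
    {ι : Type} [Countable ι] (G : ι → Set Y) (hG : ∀ i, IsOpen (G i))
    (hd : ∀ i, ∀ N, IsOpen N → N ⊆ W → (K ∩ N).Nonempty → (K ∩ N ∩ G i).Nonempty)
    {κ : Type} [Countable κ] (C : κ → Set Y) (hC : ∀ j, IsClosed (C j)) :
    ∃ z ∈ K, z ∈ W ∧ (∀ i, z ∈ G i) ∧ ∀ j, z ∈ C j → ∃ N, IsOpen N ∧ z ∈ N ∧ K ∩ N ⊆ C j := by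
  obtain ⟨z, hzK, hzW, hz⟩ := baire_closed hK hW hne (ι := ι ⊕ κ)
    (fun i => Sum.elim G (fun j => (C j)ᶜ ∪ (closure (K \ C j))ᶜ) i)
    (by
      rintro (i | j)
      · exact hG i
      · exact (hC j).isOpen_compl.union isClosed_closure.isOpen_compl)
    (by
      rintro (i | j) N hN hNW hKN
      · exact hd i N hN hNW hKN
      · by_cases h : K ∩ N ⊆ C j
        · obtain ⟨w, hw⟩ := hKN
          refine ⟨w, hw, Or.inr fun hc => ?_⟩
          obtain ⟨u, huN, huK, huC⟩ := mem_closure_iff.mp hc N hN hw.2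
          exact huC (h ⟨huK, huN⟩)
        · obtain ⟨w, hw, hwC⟩ := not_subset.mp h
          exact ⟨w, hw, Or.inl hwC⟩)
  refine ⟨z, hzK, hzW, fun i => hz (Sum.inl i), fun j hj => ?_⟩
  rcases hz (Sum.inr j) with h | h
  · exact absurd hj h
  · refine ⟨(closure (K \ C j))ᶜ, isClosed_closure.isOpen_compl, h, fun w hw => ?_⟩
    by_contra hwC
    exact hw.2 (subset_closure ⟨hw.1, hwC⟩)

end Baire

section Effros
variable {X : Type} [MetricSpace X] [CompactSpace X]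

/-- Homeomorphisms moving no point further than `ε`. -/
def Near (ε : ℝ) (h : X ≃ₜ X) : Prop := ∀ w, dist (h w) w ≤ ε

/-- The orbit of a point under all homeomorphisms. -/
def orb (x : X) : Set X := {y | ∃ h : X ≃ₜ X, h x = y}

omit [CompactSpace X] in
lemma Near.symm {ε : ℝ} {h : X ≃ₜ X} (hh : Near ε h) : Near ε h.symm := by
  intro w
  have := hh (h.symm w)
  rwa [h.apply_symm_apply, dist_comm] at this

omit [CompactSpace X] in
lemma Near.trans {ε ε' : ℝ} {h k : X ≃ₜ X} (hh : Near ε h) (hk : Near ε' k) :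
    Near (ε + ε') (h.trans k) := by
  intro w
  have h1 := hh w
  have h2 := hk (h w)
  have := dist_triangle (k (h w)) (h w) w
  simp only [Homeomorph.trans_apply]
  linarith

omit [CompactSpace X] in
lemma self_mem_orb (x : X) : x ∈ orb x := ⟨Homeomorph.refl X, rfl⟩

omit [CompactSpace X] in
lemma map_mem_orb {x y : X} (hy : y ∈ orb x) (h : X ≃ₜ X) : h y ∈ orb x := by
  obtain ⟨g, rfl⟩ := hy
  exact ⟨g.trans h, rfl⟩

omit [CompactSpace X] in
lemma orb_symm {x y : X} (hy : y ∈ orb x) : x ∈ orb y := by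
  obtain ⟨g, rfl⟩ := hy
  exact ⟨g.symm, g.symm_apply_apply x⟩

omit [CompactSpace X] in
lemma orb_trans {x y z : X} (hy : y ∈ orb x) (hz : z ∈ orb y) : z ∈ orb x := by
  obtain ⟨g, rfl⟩ := hz
  exact map_mem_orb hy g

lemma homeo_limit (F : ℕ → X ≃ₜ X) (ε : ℝ)
    (h1 : ∀ n w, dist (F n w) (F (n + 1) w) ≤ ε / 2 / 2 ^ n)
    (h2 : ∀ n w, dist ((F n).symm w) ((F (n + 1)).symm w) ≤ ε / 2 / 2 ^ n) :
    ∃ f : X ≃ₜ X, ∀ n w, dist (F n w) (f w) ≤ ε / 2 ^ n := by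
  rcases isEmpty_or_nonempty X with hX | ⟨⟨x0⟩⟩
  · exact ⟨Homeomorph.refl X, fun n w => hX.elim w⟩
  have hnn : ∀ n : ℕ, 0 ≤ ε / 2 / 2 ^ n := fun n => dist_nonneg.trans (h1 n x0)
  let a : ℕ → C(X, X) := fun n => ⟨F n, (F n).continuous⟩
  let b : ℕ → C(X, X) := fun n => ⟨(F n).symm, (F n).symm.continuous⟩
  have ha : ∀ n, dist (a n) (a (n + 1)) ≤ ε / 2 / 2 ^ n := fun n =>
    (ContinuousMap.dist_le (hnn n)).mpr (h1 n)
  have hb : ∀ n, dist (b n) (b (n + 1)) ≤ ε / 2 / 2 ^ n := fun n =>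
    (ContinuousMap.dist_le (hnn n)).mpr (h2 n)
  obtain ⟨f, hf⟩ := cauchySeq_tendsto_of_complete (cauchySeq_of_le_geometric_two ha)
  obtain ⟨g, hg⟩ := cauchySeq_tendsto_of_complete (cauchySeq_of_le_geometric_two hb)
  have hc : Continuous fun x : C(X, X) × C(X, X) => x.2.comp x.1 :=
    ContinuousMap.continuous_comp'
  have e1 : f.comp g = ContinuousMap.id X := by
    have t1 := (hc.tendsto (g, f)).comp (hg.prodMk_nhds hf)
    have : ((fun x : C(X, X) × C(X, X) => x.2.comp x.1) ∘ fun n => (b n, a n)) =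
        fun _ => ContinuousMap.id X := by
      funext n; ext w; simp [a, b]
    rw [this] at t1
    exact tendsto_nhds_unique t1 tendsto_const_nhds
  have e2 : g.comp f = ContinuousMap.id X := by
    have t1 := (hc.tendsto (f, g)).comp (hf.prodMk_nhds hg)
    have : ((fun x : C(X, X) × C(X, X) => x.2.comp x.1) ∘ fun n => (a n, b n)) =
        fun _ => ContinuousMap.id X := by
      funext n; ext w; simp [a, b]
    rw [this] at t1
    exact tendsto_nhds_unique t1 tendsto_const_nhds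
  refine ⟨⟨⟨f, g, fun w => ?_, fun w => ?_⟩, f.continuous, g.continuous⟩, fun n w => ?_⟩
  · exact ContinuousMap.congr_fun e2 w
  · exact ContinuousMap.congr_fun e1 w
  · exact (ContinuousMap.dist_apply_le_dist (f := a n) (g := f) w).trans
      (dist_le_of_le_geometric_two_of_tendsto ha hf n)

/-- The set of images of a point under homeomorphisms close to the identity. -/
def nearOrb (ε : ℝ) (x : X) : Set X := {y | ∃ h : X ≃ₜ X, Near ε h ∧ h x = y}

lemma weak_effros {x0 : X} {ι : Type} [Countable ι] (G : ι → Set X) (hG : ∀ i, IsOpen (G i))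
    (hO : orb x0 = ⋂ i, G i) {x : X} (hx : x ∈ orb x0) {ε : ℝ} (hε : 0 < ε) :
    ∃ δ > 0, ∀ y ∈ orb x0, dist y x < δ → y ∈ closure (nearOrb ε x) := by
  obtain ⟨T, hTs, hTc, hT⟩ := (TopologicalSpace.IsSeparable.of_separableSpace
    (range fun h : X ≃ₜ X => (⟨h, h.continuous⟩ : C(X, X)))).exists_countable_dense_subset
  have : Countable T := hTc.to_subtype
  have hg : ∀ i : T, ∃ g : X ≃ₜ X, ∀ w, g w = i.1 w := by
    intro i
    obtain ⟨g, hg⟩ := hTs i.2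
    exact ⟨g, fun w => by rw [← hg]; rfl⟩
  choose g hg using hg
  obtain ⟨z, -, -, hzG, hz⟩ := baire_generic (K := closure (orb x0)) isClosed_closure isOpen_univ
    ⟨x0, subset_closure (self_mem_orb x0), trivial⟩ G hG
    (by
      rintro i N hN - ⟨w, hw, hwN⟩
      obtain ⟨u, huN, hu⟩ := mem_closure_iff.mp hw N hN hwN
      exact ⟨u, ⟨subset_closure hu, huN⟩, mem_iInter.mp (hO ▸ hu) i⟩)
    (fun i : T => g i ⁻¹' closure (nearOrb (ε / 2) x))
    (fun i => isClosed_closure.preimage (g i).continuous)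
  have hz0 : z ∈ orb x0 := hO ▸ mem_iInter.mpr hzG
  obtain ⟨h, rfl⟩ := orb_trans (orb_symm hx) hz0
  obtain ⟨i, hi, hd⟩ := Metric.mem_closure_iff.mp (hT ⟨h.symm, rfl⟩) (ε / 2) (half_pos hε)
  have hv : Near (ε / 2) (h.trans (g ⟨i, hi⟩)) := by
    intro w
    have := (ContinuousMap.dist_apply_le_dist (h w)).trans hd.le
    simp only [ContinuousMap.coe_mk, Homeomorph.symm_apply_apply] at this
    rw [Homeomorph.trans_apply, hg, dist_comm]
    exact this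
  obtain ⟨N, hN, hzN, hNC⟩ := hz ⟨i, hi⟩ (subset_closure ⟨_, hv, rfl⟩)
  have hopen : IsOpen (h ⁻¹' N) := hN.preimage h.continuous
  obtain ⟨δ, hδ, hball⟩ := Metric.isOpen_iff.mp hopen x hzN
  refine ⟨δ, hδ, fun y hy hyx => ?_⟩
  have h1 : g ⟨i, hi⟩ (h y) ∈ closure (nearOrb (ε / 2) x) :=
    hNC ⟨subset_closure (map_mem_orb hy h), hball hyx⟩
  have h2 := map_mem_closure (h.trans (g ⟨i, hi⟩)).symm.continuous h1
    (t := nearOrb ε x) (by
      rintro _ ⟨k, hk, rfl⟩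
      refine ⟨k.trans (h.trans (g ⟨i, hi⟩)).symm, ?_, rfl⟩
      have := hk.trans hv.symm
      rwa [add_halves] at this)
  have e : (h.trans (g ⟨i, hi⟩)).symm (g ⟨i, hi⟩ (h y)) = y :=
    (h.trans (g ⟨i, hi⟩)).symm_apply_apply y
  rwa [e] at h2

/-- `η` is a modulus for the inverse of `F` at precision `r`. -/
def Modu (F : X ≃ₜ X) (η r : ℝ) : Prop :=
  0 < η ∧ η ≤ r ∧ ∀ u v, dist u v ≤ η → dist (F.symm u) (F.symm v) ≤ r

lemma exists_modu (F : X ≃ₜ X) {r : ℝ} (hr : 0 < r) : ∃ η, Modu F η r := by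
  obtain ⟨δ, hδ, h⟩ := Metric.uniformContinuous_iff.mp
    (CompactSpace.uniformContinuous_of_continuous F.symm.continuous) r hr
  refine ⟨min (δ / 2) r, lt_min (half_pos hδ) hr, min_le_right _ _, fun u v huv => (h ?_).le⟩
  exact (huv.trans (min_le_left _ _)).trans_lt (half_lt_self hδ)

lemma effros_step {Ω : Set X} (hΩ : ∀ y ∈ Ω, ∀ h : X ≃ₜ X, h y ∈ Ω)
    (hw : ∀ x ∈ Ω, ∀ ε > 0, ∃ δ > 0, ∀ y ∈ Ω, dist y x < δ → y ∈ closure (nearOrb ε x))
    {x y : X} (hx : x ∈ Ω) (hy : y ∈ Ω) {F G : X ≃ₜ X} {η r r' : ℝ} (hr' : 0 < r')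
    (hm : Modu F η r) (hc : G y ∈ closure (nearOrb η (F x))) :
    ∃ F' : X ≃ₜ X, ∃ η', Modu G η' r' ∧ F' x ∈ closure (nearOrb η' (G y)) ∧
      (∀ w, dist (F w) (F' w) ≤ r) ∧ ∀ w, dist (F.symm w) (F'.symm w) ≤ r := by
  obtain ⟨η', hη'⟩ := exists_modu G hr'
  obtain ⟨δ, hδ, h⟩ := hw (G y) (hΩ y hy G) η' hη'.1
  obtain ⟨_, ⟨k, hk, rfl⟩, hd⟩ := Metric.mem_closure_iff.mp hc δ hδ
  refine ⟨F.trans k, η', hη', h _ (hΩ x hx _) (by rw [dist_comm]; exact hd), fun w => ?_,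
    fun w => ?_⟩
  · rw [dist_comm]; exact (hk (F w)).trans hm.2.1
  · refine hm.2.2 w (k.symm w) ?_
    rw [dist_comm]; exact hk.symm w

omit [CompactSpace X] in
lemma dist_le_of_mem_closure_nearOrb {η : ℝ} {x y : X} (h : y ∈ closure (nearOrb η x)) :
    dist y x ≤ η := by
  have : closure (nearOrb η x) ⊆ closedBall x η := closure_minimal
    (by rintro _ ⟨k, hk, rfl⟩; exact hk x) isClosed_closedBall
  exact this h

/-- The Effros theorem: an orbit that is a countable intersection of open sets is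
micro-transitive. -/
theorem effros {x0 : X} {ι : Type} [Countable ι] (G : ι → Set X) (hG : ∀ i, IsOpen (G i))
    (hO : orb x0 = ⋂ i, G i) {x : X} (hx : x ∈ orb x0) {ε : ℝ} (hε : 0 < ε) :
    ∃ δ > 0, ∀ y ∈ orb x0, dist y x < δ → ∃ h : X ≃ₜ X, Near ε h ∧ h x = y := by
  have hw : ∀ x ∈ orb x0, ∀ ε > 0, ∃ δ > 0, ∀ y ∈ orb x0, dist y x < δ →
      y ∈ closure (nearOrb ε x) := fun x hx ε hε => weak_effros G hG hO hx hε
  obtain ⟨δ, hδ, h⟩ := hw x hx (ε / 2 / 2) (by positivity)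
  refine ⟨δ, hδ, fun y hy hyx => ?_⟩
  obtain ⟨f, hf0, hf⟩ := exists_seq_rec (α := (X ≃ₜ X) × (X ≃ₜ X) × ℝ)
    (fun n s => Modu s.1 s.2.2 (ε / 2 / 2 / 2 ^ n) ∧ s.2.1 y ∈ closure (nearOrb s.2.2 (s.1 x)))
    (fun n s s' => ((∀ w, dist (s.1 w) (s'.1 w) ≤ ε / 2 / 2 / 2 ^ n) ∧
      ∀ w, dist (s.1.symm w) (s'.1.symm w) ≤ ε / 2 / 2 / 2 ^ n) ∧
      (∀ w, dist (s.2.1 w) (s'.2.1 w) ≤ ε / 2 / 2 / 2 ^ n) ∧
      ∀ w, dist (s.2.1.symm w) (s'.2.1.symm w) ≤ ε / 2 / 2 / 2 ^ n)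
    (Homeomorph.refl X, Homeomorph.refl X, ε / 2 / 2)
    ⟨⟨by positivity, by simp, fun u v huv => by simpa using huv⟩, h y hy hyx⟩
    (by
      rintro n ⟨F, G', η⟩ ⟨h1, h2⟩
      obtain ⟨F', η', k1, k2, k3⟩ := effros_step (fun y hy h => map_mem_orb hy h) hw hx hy
        (r' := ε / 2 / 2 / 2 ^ n) (by positivity) h1 h2
      obtain ⟨G'', η'', l1, l2, l3⟩ := effros_step (fun y hy h => map_mem_orb hy h) hw hy hx
        (r' := ε / 2 / 2 / 2 ^ (n + 1)) (by positivity) k1 k2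
      exact ⟨(F', G'', η''), ⟨l1, l2⟩, k3, l3⟩)
  obtain ⟨F, hF⟩ := homeo_limit (fun n => (f n).1) (ε / 2) (fun n => (hf n).2.1.1)
    (fun n => (hf n).2.1.2)
  obtain ⟨F', hF'⟩ := homeo_limit (fun n => (f n).2.1) (ε / 2) (fun n => (hf n).2.2.1)
    (fun n => (hf n).2.2.2)
  have n1 : Near (ε / 2) F := by
    intro w
    have := hF 0 w
    rw [hf0] at this
    simpa [dist_comm] using this
  have n2 : Near (ε / 2) F' := by
    intro w
    have := hF' 0 w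
    rw [hf0] at this
    simpa [dist_comm] using this
  have e : F x = F' y := by
    refine eq_of_forall_dist_le fun r hr => ?_
    obtain ⟨n, hn⟩ : ∃ n : ℕ, 3 * (ε / 2) / r < 2 ^ n := pow_unbounded_of_one_lt _ one_lt_two
    have a1 := hF n x
    have a2 := hF' n y
    have a3 := (dist_le_of_mem_closure_nearOrb (hf n).1.2).trans (hf n).1.1.2.1
    have a4 := dist_triangle4 (F x) ((f n).1 x) ((f n).2.1 y) (F' y)
    rw [dist_comm] at a1 a3
    have a5 : ε / 2 / 2 / 2 ^ n ≤ ε / 2 / 2 ^ n := by gcongr; linarith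
    have a6 : 3 * (ε / 2 / 2 ^ n) ≤ r := by
      rw [div_lt_iff₀ hr] at hn
      rw [← mul_div_assoc, div_le_iff₀ (by positivity)]
      linarith
    linarith
  refine ⟨F.trans F'.symm, ?_, ?_⟩
  · have := n1.trans n2.symm
    rwa [add_halves] at this
  · rw [Homeomorph.trans_apply, e, F'.symm_apply_apply]

end Effros

end Pool.Agent.P.MP_64e39e_gt
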