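import Pool.Agent.P.MP_64e39e_gt.Pieces

/-!
A smooth fan with dense endpoints: matching clopen pieces for two height functions produces a
homeomorphism sliding along the tallest leg.
-/

namespace Pool.Agent.P.MP_64e39e_gt
open Set Metric Topology Filter

variable {X : Type} [MetricSpace X] [CompactSpace X] [Fan X]

/-- A system of matched pieces. -/
structure Tree (f f' : X → ℝ) {ι : Type} (L : ℕ → Set ι) (P P' : ι → Set X) (τ τ' : ι → X) :
    Prop where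
  piece : ∀ n, ∀ s ∈ L n, Piece (P s)
  piece' : ∀ n, ∀ s ∈ L n, Piece (P' s)
  top : ∀ n, ∀ s ∈ L n, Top f (P s) (τ s)
  top' : ∀ n, ∀ s ∈ L n, Top f' (P' s) (τ' s)
  cover : ∀ n w, w ≠ ⊥ → ∃ s ∈ L n, w ∈ P s
  cover' : ∀ n w, w ≠ ⊥ → ∃ s ∈ L n, w ∈ P' s
  refine : ∀ n m, n ≤ m → ∀ s ∈ L n, ∀ s' ∈ L m,
    ((P s ∩ P s').Nonempty ∨ (P' s ∩ P' s').Nonempty) → P s' ⊆ P s ∧ P' s' ⊆ P' s ∧
      |(f' (τ' s') - f (τ s')) - (f' (τ' s) - f (τ s))| ≤ 2 / 2 ^ n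
  sep : ∀ u v, (∀ n, ∃ s ∈ L n, u ∈ P s ∧ v ∈ P s) → u ≤ v ∨ v ≤ u
  sep' : ∀ u v, (∀ n, ∃ s ∈ L n, u ∈ P' s ∧ v ∈ P' s) → u ≤ v ∨ v ≤ u
  root : ∃ s ∈ L 0, P s = {⊥}ᶜ ∧ P' s = {⊥}ᶜ

variable {f f' : X → ℝ} {ι : Type} {L : ℕ → Set ι} {P P' : ι → Set X} {τ τ' : ι → X}

lemma Tree.symm (T : Tree f f' L P P' τ τ') : Tree f' f L P' P τ' τ := by
  refine ⟨T.piece', T.piece, T.top', T.top, T.cover', T.cover, fun n m h s hs s' hs' ho => ?_,
    T.sep', T.sep, ?_⟩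
  · obtain ⟨h1, h2, h3⟩ := T.refine n m h s hs s' hs' ho.symm
    refine ⟨h2, h1, ?_⟩
    rw [← abs_neg]
    convert h3 using 2
    ring
  · obtain ⟨s, hs, h1, h2⟩ := T.root
    exact ⟨s, hs, h2, h1⟩

/-- The relation defined by a system of matched pieces. -/
def Mat (f f' : X → ℝ) (L : ℕ → Set ι) (P P' : ι → Set X) (τ τ' : ι → X) (w w' : X) : Prop :=
  (w = ⊥ ∧ w' = ⊥) ∨ (w ≠ ⊥ ∧ w' ≠ ⊥ ∧ ∀ n, ∀ s ∈ L n, w ∈ P s →
    w' ∈ P' s ∧ |f' w' - f w - (f' (τ' s) - f (τ s))| ≤ 2 / 2 ^ n)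

lemma Tree.mat_symm (T : Tree f f' L P P' τ τ') {w w' : X} (h : Mat f f' L P P' τ τ' w w') :
    Mat f' f L P' P τ' τ w' w := by
  rcases h with h | ⟨h1, h2, h3⟩
  · exact Or.inl h.symm
  refine Or.inr ⟨h2, h1, fun n s hs hw => ?_⟩
  obtain ⟨s2, hs2, hw2⟩ := T.cover n w h1
  have := (T.refine n n le_rfl s hs s2 hs2 (Or.inr ⟨w', hw, (h3 n s2 hs2 hw2).1⟩)).1 hw2
  refine ⟨this, ?_⟩
  rw [← abs_neg]
  convert (h3 n s hs this).2 using 2
  ring

lemma LH.isClosed_abs (hf : LH f) {S : Set X} (hS : Piece S) (c r : ℝ) :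
    IsClosed {w | w ∈ S ∧ |f w - c| ≤ r} := by
  have h1 := hf.isClosed_inter hS (c - r)
  have := (hf.cont.mono fun w (hw : w ∈ S ∩ {w | c - r ≤ f w}) =>
    hS.ne_bot hw.1).preimage_isClosed_of_isClosed h1 (isClosed_Iic (a := c + r))
  convert this using 1
  ext w
  simp only [mem_ofPred_eq, mem_inter_iff, mem_preimage, mem_Iic, abs_le]
  constructor
  · rintro ⟨a, b, c⟩; exact ⟨⟨a, by linarith⟩, by linarith⟩
  · rintro ⟨⟨a, b⟩, c⟩; exact ⟨a, by linarith, by linarith⟩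

lemma Tree.mat_unique (T : Tree f f' L P P' τ τ') (hf' : LH f') (w : X) :
    ∃! w', Mat f f' L P P' τ τ' w w' := by
  by_cases hw : w = ⊥
  · refine ⟨⊥, Or.inl ⟨hw, rfl⟩, fun w' h => ?_⟩
    rcases h with h | h
    · exact h.2
    · exact absurd hw h.1
  choose s hs hws using fun n => T.cover n w hw
  have hu : ∀ m, ∃ u ∈ P' (s m), f' u = f w + (f' (τ' (s m)) - f (τ (s m))) := by
    intro m
    have h0 := (T.piece' m _ (hs m)).ne_bot (T.top' m _ (hs m)).1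
    obtain ⟨u, h1, h2, h3⟩ := hf'.surj _ h0 (f w + (f' (τ' (s m)) - f (τ (s m))))
      (by have := (T.top m _ (hs m)).2 w (hws m); linarith)
    exact ⟨u, ((T.piece' m _ (hs m)).mem_iff h1 h2).mpr (T.top' m _ (hs m)).1, h3⟩
  choose u hu1 hu2 using hu
  obtain ⟨w', -, φ, hφ, hlim⟩ := isCompact_univ.tendsto_subseq (x := u) (fun _ => trivial)
  have hw' : ∀ n, ∀ r ∈ L n, w ∈ P r →
      w' ∈ P' r ∧ |f' w' - (f w + (f' (τ' r) - f (τ r)))| ≤ 2 / 2 ^ n := by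
    intro n r hr hwr
    refine (hf'.isClosed_abs (T.piece' n r hr) _ _).mem_of_tendsto hlim ?_
    filter_upwards [hφ.tendsto_atTop.eventually (eventually_ge_atTop n)] with k hk
    obtain ⟨-, h2, h3⟩ := T.refine n (φ k) hk r hr _ (hs _) (Or.inl ⟨w, hwr, hws _⟩)
    refine ⟨h2 (hu1 _), ?_⟩
    simp only [Function.comp_apply, hu2]
    convert h3 using 2
    ring
  have hw0 : w' ≠ ⊥ := (T.piece' 0 _ (hs 0)).ne_bot (hw' 0 _ (hs 0) (hws 0)).1
  refine ⟨w', Or.inr ⟨hw, hw0, fun n r hr hwr => ⟨(hw' n r hr hwr).1, ?_⟩⟩, fun v h => ?_⟩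
  · convert (hw' n r hr hwr).2 using 2
    ring
  rcases h with h | ⟨-, h2, h3⟩
  · exact absurd h.1 hw
  have e : f' v = f' w' := by
    refine eq_of_forall_dist_le fun ε hε => ?_
    obtain ⟨n, hn⟩ := pow_unbounded_of_one_lt (4 / ε) (one_lt_two (α := ℝ))
    have a1 := abs_le.mp (h3 n _ (hs n) (hws n)).2
    have a2 := abs_le.mp (hw' n _ (hs n) (hws n)).2
    have a3 : 2 / 2 ^ n ≤ ε / 2 := by
      rw [div_lt_iff₀ hε] at hn
      rw [div_le_iff₀ (by positivity)]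
      linarith
    rw [Real.dist_eq, abs_le]
    constructor <;> linarith [a1.1, a1.2, a2.1, a2.2]
  rcases T.sep' v w' (fun n => ⟨_, hs n, (h3 n _ (hs n) (hws n)).1,
    (hw' n _ (hs n) (hws n)).1⟩) with h | h
  · exact eq_of_strictMono hf'.mono h2 hw0 h le_rfl e
  · exact eq_of_strictMono hf'.mono h2 hw0 le_rfl h e

lemma Tree.bot_of_closure (T : Tree f f' L P P' τ τ') (hf : LH f) (hf' : LH f') {w' : X}
    (h : (⊥, w') ∈ closure {p : X × X | Mat f f' L P P' τ τ' p.1 p.2}) : w' = ⊥ := by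
  by_contra h0
  obtain ⟨s, hs, h1, -⟩ := T.root
  have hc : ContinuousAt f' w' := hf'.cont.continuousAt (isOpen_compl_singleton.mem_nhds h0)
  have e1 : ∀ᶠ p : X × X in 𝓝 (⊥, w'), p.2 ≠ ⊥ ∧ f' w' - 1 < f' p.2 :=
    (continuous_snd.tendsto (⊥, w')).eventually (p := fun u => u ≠ ⊥ ∧ f' w' - 1 < f' u)
      ((continuousAt_id.eventually_ne h0).and (hc.eventually (lt_mem_nhds (by linarith))))
  have e2 : ∀ᶠ p : X × X in 𝓝 (⊥, w'),
      ¬ (p.1 ≠ ⊥ ∧ f' w' - 1 - 2 - (f' (τ' s) - f (τ s)) ≤ f p.1) :=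
    (continuous_fst.tendsto (⊥, w')).eventually
      (p := fun u => ¬ (u ≠ ⊥ ∧ f' w' - 1 - 2 - (f' (τ' s) - f (τ s)) ≤ f u))
      ((hf.closed _).isOpen_compl.mem_nhds (fun h => h.1 rfl))
  obtain ⟨⟨u, u'⟩, hu, ⟨k1, k2⟩, k3⟩ :=
    ((mem_closure_iff_frequently.mp h).and_eventually (e1.and e2)).exists
  rcases hu with hu | ⟨l1, -, l3⟩
  · exact k1 hu.2
  have := abs_le.mp (l3 0 s hs (h1 ▸ l1)).2
  refine k3 ⟨l1, ?_⟩
  simp only [pow_zero, div_one] at this k2 ⊢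
  linarith [this.2]

lemma Tree.isClosed_mat (T : Tree f f' L P P' τ τ') (hf : LH f) (hf' : LH f') :
    IsClosed {p : X × X | Mat f f' L P P' τ τ' p.1 p.2} := by
  refine isClosed_of_closure_subset ?_
  rintro ⟨w, w'⟩ h
  by_cases h0 : w = ⊥
  · subst h0
    exact Or.inl ⟨rfl, T.bot_of_closure hf hf' h⟩
  have h0' : w' ≠ ⊥ := by
    rintro rfl
    exact h0 (T.symm.bot_of_closure hf' hf (map_mem_closure (f := Prod.swap) continuous_swap h
      (fun p hp => T.mat_symm hp)))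
  refine Or.inr ⟨h0, h0', fun n s hs hw => ?_⟩
  have e1 : ∀ᶠ p : X × X in 𝓝 (w, w'), p.1 ∈ P s :=
    (continuous_fst.tendsto (w, w')).eventually (p := fun u => u ∈ P s)
      ((T.piece n s hs).isOpen.mem_nhds hw)
  have hfr : ∃ᶠ p : X × X in 𝓝 (w, w'),
      p.2 ∈ P' s ∧ |f' p.2 - f p.1 - (f' (τ' s) - f (τ s))| ≤ 2 / 2 ^ n := by
    refine ((mem_closure_iff_frequently.mp h).and_eventually e1).mono ?_
    rintro p ⟨hp | hp, hp'⟩
    · exact absurd hp.1 ((T.piece n s hs).ne_bot hp')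
    · exact hp.2.2 n s hs hp'
  constructor
  · have : w' ∈ insert ⊥ (P' s) :=
      (T.piece' n s hs).isClosed.mem_of_frequently_of_tendsto
        (hfr.mono fun p hp => Or.inr hp.1) (continuous_snd.tendsto (w, w'))
    exact this.resolve_left h0'
  · have c1 : ContinuousAt (fun p : X × X => f p.1) (w, w') :=
      ContinuousAt.comp' (f := Prod.fst) (g := f) (x := (w, w'))
        (hf.cont.continuousAt (isOpen_compl_singleton.mem_nhds h0)) continuousAt_fst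
    have c2 : ContinuousAt (fun p : X × X => f' p.2) (w, w') :=
      ContinuousAt.comp' (f := Prod.snd) (g := f') (x := (w, w'))
        (hf'.cont.continuousAt (isOpen_compl_singleton.mem_nhds h0')) continuousAt_snd
    exact isClosed_Iic.mem_of_frequently_of_tendsto (hfr.mono fun p hp => hp.2)
      ((c2.sub c1).sub continuousAt_const).abs

lemma Tree.orb (T : Tree f f' L P P' τ τ') (hf : LH f) (hf' : LH f') {e a b : X}
    (he : ∀ n, ∃ s ∈ L n, τ s = e ∧ τ' s = e) (ha : a ≠ ⊥) (hb : b ≠ ⊥) (hae : a ≤ e)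
    (hbe : b ≤ e) (h : f' b - f a = f' e - f e) : b ∈ orb a := by
  obtain ⟨g, hg⟩ := exists_homeo_of_rel _ (T.isClosed_mat hf hf') (T.mat_unique hf')
    (fun w' => by
      obtain ⟨w, hw, hu⟩ := T.symm.mat_unique hf w'
      exact ⟨w, T.symm.mat_symm hw, fun v hv => hu v (T.mat_symm hv)⟩)
  refine ⟨g, (T.mat_unique hf' a).unique (hg a) (Or.inr ⟨ha, hb, fun n s hs has => ?_⟩)⟩
  obtain ⟨r, hr, h1, h2⟩ := he n
  have a1 : a ∈ P r := ((T.piece n r hr).mem_iff ha hae).mpr (h1 ▸ (T.top n r hr).1)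
  have a2 : b ∈ P' r := ((T.piece' n r hr).mem_iff hb hbe).mpr (h2 ▸ (T.top' n r hr).1)
  obtain ⟨-, k2, k3⟩ := T.refine n n le_rfl s hs r hr (Or.inl ⟨a, has, a1⟩)
  refine ⟨k2 a2, ?_⟩
  rwa [h1, h2, ← h] at k3

/-- A set lies inside or outside another one. -/
def Pure (S P : Set X) : Prop := P ⊆ S ∨ Disjoint P S

/-- A matched pair of pieces with their tops. -/
def Good (f f' : X → ℝ) (s : (Set X × X) × (Set X × X)) : Prop :=
  Piece s.1.1 ∧ Top f s.1.1 s.1.2 ∧ Piece s.2.1 ∧ Top f' s.2.1 s.2.2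

/-- Splitting a piece into two parts, the first one keeping the top. -/
def Split (p p0 p1 : Set X × X) : Prop := p0.1 ∪ p1.1 = p.1 ∧ Disjoint p0.1 p1.1 ∧ p0.2 = p.2

lemma split_of {P P1 : Set X} {τ τ1 : X} (hP : Piece P) (hτ : Top f P τ) (hP1 : Piece P1)
    (h1 : P1 ⊆ P) (h2 : τ ∉ P1) :
    Piece (P \ P1) ∧ Top f (P \ P1) τ ∧ Split (P, τ) (P \ P1, τ) (P1, τ1) :=
  ⟨hP.diff hP1, ⟨⟨hτ.1, h2⟩, fun w hw => hτ.2 w hw.1⟩, sdiff_union_of_subset h1,
    disjoint_sdiff_left, rfl⟩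

lemma good_step (hf : LH f) (hf' : LH f') (hφ : Continuous (ht (⊥ : X)))
    (hE : Dense {e : X | IsMax e}) {S : Set X} (hS : Piece S) {η : ℝ} (hη : 0 < η)
    {s : (Set X × X) × (Set X × X)} (hs : Good f f' s) :
    ∃ s0 s1, Good f f' s0 ∧ Good f f' s1 ∧ Split s.1 s0.1 s1.1 ∧ Split s.2 s0.2 s1.2 ∧
      |(f' s1.2.2 - f s1.1.2) - (f' s.2.2 - f s.1.2)| ≤ η ∧ Pure S s0.1.1 ∧ Pure S s1.1.1 := by
  obtain ⟨⟨P, τ⟩, ⟨P', τ'⟩⟩ := s
  obtain ⟨h1, h2, h3, h4⟩ := hs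
  simp only at h1 h2 h3 h4
  obtain ⟨P1, τ1, k1, k2, k3, k4, k5, k6⟩ : ∃ P1 τ1, Piece P1 ∧ P1 ⊆ P ∧ τ ∉ P1 ∧ Top f P1 τ1 ∧
      Pure S (P \ P1) ∧ Pure S P1 := by
    by_cases hp : Pure S P
    · obtain ⟨P1, τ1, k1, k2, k3, k4, -⟩ := hf.carve hφ hE h1 h2 le_rfl one_pos
      refine ⟨P1, τ1, k1, k2, k3, k4, ?_, ?_⟩
      · exact hp.imp (sdiff_subset.trans ·) (·.mono_left sdiff_subset)
      · exact hp.imp (k2.trans ·) (·.mono_left k2)
    · obtain ⟨n1, n2⟩ := not_or.mp hp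
      by_cases hτ : τ ∈ S
      · obtain ⟨τ1, hτ1⟩ := hf.exists_top (h1.diff hS) (sdiff_nonempty.mpr n1)
        refine ⟨_, τ1, h1.diff hS, sdiff_subset, fun h => h.2 hτ, hτ1, Or.inl ?_,
          Or.inr disjoint_sdiff_left⟩
        intro w hw
        by_contra h
        exact hw.2 ⟨hw.1, h⟩
      · obtain ⟨τ1, hτ1⟩ := hf.exists_top (h1.inter hS) (not_disjoint_iff_nonempty_inter.mp n2)
        refine ⟨_, τ1, h1.inter hS, inter_subset_left, fun h => hτ h.2, hτ1, Or.inr ?_,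
          Or.inl inter_subset_right⟩
        exact disjoint_left.mpr fun w hw h => hw.2 ⟨hw.1, h⟩
  obtain ⟨P1', τ1', l1, l2, l3, l4, l5⟩ := hf'.carve hφ hE h3 h4 (r := f τ1 + (f' τ' - f τ))
    (by have := h2.2 τ1 (k2 k4.1); linarith) hη
  obtain ⟨a1, a2, a3⟩ := split_of (τ1 := τ1) h1 h2 k1 k2 k3
  obtain ⟨b1, b2, b3⟩ := split_of (τ1 := τ1') h3 h4 l1 l2 l3
  refine ⟨((P \ P1, τ), (P' \ P1', τ')), ((P1, τ1), (P1', τ1')), ⟨a1, a2, b1, b2⟩,
    ⟨k1, k4, l1, l4⟩, a3, b3, ?_, k5, k6⟩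
  convert l5 using 2
  ring

theorem lelek_orb (hf : LH f) (hf' : LH f') (hφ : Continuous (ht (⊥ : X)))
    (hE : Dense {e : X | IsMax e}) {e a b : X} (he : Top f {⊥}ᶜ e) (he' : Top f' {⊥}ᶜ e)
    (ha : a ≠ ⊥) (hb : b ≠ ⊥) (hae : a ≤ e) (hbe : b ≤ e) (h : f' b - f a = f' e - f e) :
    b ∈ orb a := by
  obtain ⟨S, hS, hsep⟩ := exists_sep_family hφ
  have hstep : ∀ (n : ℕ) (s : (Set X × X) × (Set X × X)), Good f f' s →
      ∃ s0 s1, Good f f' s0 ∧ Good f f' s1 ∧ Split s.1 s0.1 s1.1 ∧ Split s.2 s0.2 s1.2 ∧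
      |(f' s1.2.2 - f s1.1.2) - (f' s.2.2 - f s.1.2)| ≤ 1 / 2 ^ n ∧
      (∀ k, n = 2 * k → Pure (S k) s0.1.1 ∧ Pure (S k) s1.1.1) ∧
      (∀ k, n = 2 * k + 1 → Pure (S k) s0.2.1 ∧ Pure (S k) s1.2.1) := by
    intro n s hs
    rcases Nat.even_or_odd' n with ⟨k, rfl | rfl⟩
    · obtain ⟨s0, s1, h1, h2, h3, h4, h5, h6⟩ := good_step hf hf' hφ hE (hS k)
        (η := 1 / 2 ^ (2 * k)) (by positivity) hs
      refine ⟨s0, s1, h1, h2, h3, h4, h5, fun j hj => ?_, fun j hj => by omega⟩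
      obtain rfl : k = j := by omega
      exact h6
    · obtain ⟨s0, s1, h1, h2, h3, h4, h5, h6⟩ := good_step hf' hf hφ hE (hS k)
        (η := 1 / 2 ^ (2 * k + 1)) (by positivity) (s := s.swap)
        ⟨hs.2.2.1, hs.2.2.2, hs.1, hs.2.1⟩
      refine ⟨s0.swap, s1.swap, ⟨h1.2.2.1, h1.2.2.2, h1.1, h1.2.1⟩,
        ⟨h2.2.2.1, h2.2.2.2, h2.1, h2.2.1⟩, h4, h3, ?_, fun j hj => by omega, fun j hj => ?_⟩
      · rw [← abs_neg]
        convert h5 using 2
        simp only [Prod.fst_swap, Prod.snd_swap]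
        ring
      · obtain rfl : k = j := by omega
        exact h6
  choose! c0 c1 g0 g1 sp sp' err pu pu' using hstep
  let r : (Set X × X) × (Set X × X) := (({⊥}ᶜ, e), ({⊥}ᶜ, e))
  let L : ℕ → Set ((Set X × X) × (Set X × X)) := fun n =>
    Nat.rec {r} (fun n T => c0 n '' T ∪ c1 n '' T) n
  have hL0 : L 0 = {r} := rfl
  have hL : ∀ n, L (n + 1) = c0 n '' L n ∪ c1 n '' L n := fun n => rfl
  have good : ∀ n, ∀ s ∈ L n, Good f f' s := by
    intro n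
    induction n with
    | zero => rintro s rfl; exact ⟨piece_all, he, piece_all, he'⟩
    | succ n ih =>
      rintro _ (⟨s, hs, rfl⟩ | ⟨s, hs, rfl⟩)
      · exact g0 n s (ih s hs)
      · exact g1 n s (ih s hs)
  have parent : ∀ n, ∀ s' ∈ L (n + 1), ∃ s ∈ L n, (s' = c0 n s ∨ s' = c1 n s) ∧
      s'.1.1 ⊆ s.1.1 ∧ s'.2.1 ⊆ s.2.1 ∧
      |(f' s'.2.2 - f s'.1.2) - (f' s.2.2 - f s.1.2)| ≤ 1 / 2 ^ n := by
    rintro n _ (⟨s, hs, rfl⟩ | ⟨s, hs, rfl⟩)
    · have h1 := sp n s (good n s hs)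
      have h2 := sp' n s (good n s hs)
      refine ⟨s, hs, Or.inl rfl, h1.1 ▸ subset_union_left, h2.1 ▸ subset_union_left, ?_⟩
      rw [h1.2.2, h2.2.2, sub_self, abs_zero]
      positivity
    · have h1 := sp n s (good n s hs)
      have h2 := sp' n s (good n s hs)
      exact ⟨s, hs, Or.inr rfl, h1.1 ▸ subset_union_right, h2.1 ▸ subset_union_right,
        err n s (good n s hs)⟩
  have uniq : ∀ n, ∀ s ∈ L n, ∀ s' ∈ L n,
      ((s.1.1 ∩ s'.1.1).Nonempty ∨ (s.2.1 ∩ s'.2.1).Nonempty) → s = s' := by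
    intro n
    induction n with
    | zero => rintro s rfl s' rfl -; rfl
    | succ n ih =>
      intro s hs s' hs' ho
      obtain ⟨p, hp, e1, a1, a2, -⟩ := parent n s hs
      obtain ⟨p', hp', e2, b1, b2, -⟩ := parent n s' hs'
      obtain rfl : p = p' := ih p hp p' hp'
        (ho.imp (·.mono (inter_subset_inter a1 b1)) (·.mono (inter_subset_inter a2 b2)))
      have d1 := (sp n p (good n p hp)).2.1
      have d2 := (sp' n p (good n p hp)).2.1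
      rcases e1 with rfl | rfl <;> rcases e2 with rfl | rfl
      · rfl
      · exact (ho.elim (not_disjoint_iff_nonempty_inter.mpr · d1)
          (not_disjoint_iff_nonempty_inter.mpr · d2)).elim
      · exact (ho.elim (not_disjoint_iff_nonempty_inter.mpr · d1.symm)
          (not_disjoint_iff_nonempty_inter.mpr · d2.symm)).elim
      · rfl
  have anc : ∀ n m, n ≤ m → ∀ s' ∈ L m, ∃ s ∈ L n, s'.1.1 ⊆ s.1.1 ∧ s'.2.1 ⊆ s.2.1 ∧
      |(f' s'.2.2 - f s'.1.2) - (f' s.2.2 - f s.1.2)| ≤ 2 / 2 ^ n - 2 / 2 ^ m := by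
    intro n m hnm
    induction m, hnm using Nat.le_induction with
    | base => intro s hs; exact ⟨s, hs, Subset.rfl, Subset.rfl, by simp⟩
    | succ m _ ih =>
      intro s' hs'
      obtain ⟨p, hp, -, a1, a2, a3⟩ := parent m s' hs'
      obtain ⟨s, hs, b1, b2, b3⟩ := ih p hp
      refine ⟨s, hs, a1.trans b1, a2.trans b2, ?_⟩
      have e : (2 : ℝ) / 2 ^ (m + 1) = 1 / 2 ^ m := by field_simp; ring
      have e' : (2 : ℝ) / 2 ^ m = 2 * (1 / 2 ^ m) := by ring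
      rw [abs_le] at a3 b3 ⊢
      constructor <;> linarith [a3.1, a3.2, b3.1, b3.2]
  have T : Tree f f' L (fun s => s.1.1) (fun s => s.2.1) (fun s => s.1.2) (fun s => s.2.2) := by
    refine ⟨fun n s hs => (good n s hs).1, fun n s hs => (good n s hs).2.2.1,
      fun n s hs => (good n s hs).2.1, fun n s hs => (good n s hs).2.2.2, ?_, ?_, ?_, ?_, ?_,
      ⟨r, rfl, rfl, rfl⟩⟩
    · intro n w hw
      induction n with
      | zero => exact ⟨r, rfl, hw⟩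
      | succ n ih =>
        obtain ⟨s, hs, h⟩ := ih
        rw [← (sp n s (good n s hs)).1] at h
        rcases h with h | h
        · exact ⟨_, Or.inl ⟨s, hs, rfl⟩, h⟩
        · exact ⟨_, Or.inr ⟨s, hs, rfl⟩, h⟩
    · intro n w hw
      induction n with
      | zero => exact ⟨r, rfl, hw⟩
      | succ n ih =>
        obtain ⟨s, hs, h⟩ := ih
        rw [← (sp' n s (good n s hs)).1] at h
        rcases h with h | h
        · exact ⟨_, Or.inl ⟨s, hs, rfl⟩, h⟩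
        · exact ⟨_, Or.inr ⟨s, hs, rfl⟩, h⟩
    · intro n m hnm s hs s' hs' ho
      obtain ⟨p, hp, a1, a2, a3⟩ := anc n m hnm s' hs'
      obtain rfl : s = p := uniq n s hs p hp
        (ho.imp (·.mono (inter_subset_inter_right _ a1)) (·.mono (inter_subset_inter_right _ a2)))
      refine ⟨a1, a2, a3.trans ?_⟩
      have : (0 : ℝ) < 2 / 2 ^ m := by positivity
      linarith
    · intro u v huv
      by_contra hcon
      obtain ⟨k, h1, h2⟩ := hsep u v (not_or.mp hcon).1 (not_or.mp hcon).2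
      obtain ⟨s, hs, hu, hv⟩ := huv (2 * k + 1)
      obtain ⟨p, hp, e1, -⟩ := parent _ s hs
      have : Pure (S k) s.1.1 := by
        rcases e1 with rfl | rfl
        · exact (pu _ p (good _ p hp) k rfl).1
        · exact (pu _ p (good _ p hp) k rfl).2
      exact this.elim (fun h => h2 (h hv)) (fun h => disjoint_left.mp h hu h1)
    · intro u v huv
      by_contra hcon
      obtain ⟨k, h1, h2⟩ := hsep u v (not_or.mp hcon).1 (not_or.mp hcon).2
      obtain ⟨s, hs, hu, hv⟩ := huv (2 * k + 1 + 1)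
      obtain ⟨p, hp, e1, -⟩ := parent _ s hs
      have : Pure (S k) s.2.1 := by
        rcases e1 with rfl | rfl
        · exact (pu' _ p (good (2 * k + 1) p hp) k rfl).1
        · exact (pu' _ p (good (2 * k + 1) p hp) k rfl).2
      exact this.elim (fun h => h2 (h hv)) (fun h => disjoint_left.mp h hu h1)
  refine T.orb hf hf' (e := e) (fun n => ?_) ha hb hae hbe h
  induction n with
  | zero => exact ⟨r, rfl, rfl, rfl⟩
  | succ n ih =>
    obtain ⟨s, hs, h1, h2⟩ := ih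
    exact ⟨c0 n s, Or.inl ⟨s, hs, rfl⟩, (sp n s (good n s hs)).2.2.trans h1,
      (sp' n s (good n s hs)).2.2.trans h2⟩

theorem Four.not_smooth_dense {a b : X} (F : Four a b) (hs : IsClosed {p : X × X | p.1 ≤ p.2})
    (hE : Dense {e : X | IsMax e}) : False := by
  have hφ := continuous_ht hs
  obtain ⟨e, -, hmax⟩ := isCompact_univ.exists_isMaxOn ⟨a, trivial⟩ hφ.continuousOn
  have he : IsMax e := fun v hv => by
    by_contra h
    exact absurd (hmax (mem_univ v)) (not_le.mpr (ht_strictMono (lt_of_le_not_ge hv h)))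
  have he0 := F.max_ne he
  obtain ⟨g, hg⟩ := F.exists_le_end a he
  obtain ⟨k, hk⟩ := F.exists_le_end b he
  have ha0 := map_ne_bot g F.a_ne
  have hb0 := map_ne_bot k F.b_ne
  have ha : Real.log (ht ⊥ (g a)) < Real.log (ht ⊥ e) := Real.log_lt_log (ht_pos ha0)
    (ht_strictMono (lt_of_le_of_ne hg fun h => orb_not_isMax F.a_nmax ⟨g, rfl⟩ (h ▸ he)))
  have hb : Real.log (ht ⊥ (k b)) < Real.log (ht ⊥ e) := Real.log_lt_log (ht_pos hb0)
    (ht_strictMono (lt_of_le_of_ne hk fun h => orb_not_isMax F.b_nmax ⟨k, rfl⟩ (h ▸ he)))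
  have htop : ∀ p : ℝ, 0 < p → Top (fun w : X => p * Real.log (ht ⊥ w)) {⊥}ᶜ e := fun p hp =>
    ⟨he0, fun w hw => mul_le_mul_of_nonneg_left
      (Real.log_le_log (ht_pos hw) (hmax (mem_univ w))) hp.le⟩
  have := lelek_orb (lh_log hφ (sub_pos.mpr hb)) (lh_log hφ (sub_pos.mpr ha)) hφ hE
    (htop _ (sub_pos.mpr hb)) (htop _ (sub_pos.mpr ha)) ha0 hb0 hg hk (by ring)
  exact F.not_orb (orb_trans (orb_trans ⟨g, rfl⟩ this) (orb_symm ⟨k, rfl⟩))

end Pool.Agent.P.MP_64e39e_gt
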