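import Pool.Agent.P.MP_64e39e_gt.Discrete
import Pool.Agent.P.MP_64e39e_gt.Lelek

/-!
The case where both inner orbits are dense in the legs.
-/

namespace Pool.Agent.P.MP_64e39e_gt
open Set Metric Topology Filter

variable {X : Type} [MetricSpace X] [CompactSpace X] [Fan X] {a b : X}

lemma exists_fixed (g : X ≃ₜ X) {y x : X} (hyx : y ≤ x) (h1 : y ≤ g y) (h2 : g x ≤ x) :
    ∃ z, y ≤ z ∧ z ≤ x ∧ g z = z := by
  have hcl : IsClosed (Icc y x ∩ {z | z ≤ g z ∧ g z ≤ x}) :=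
    (isClosed_Icc' hyx).inter ((isClosed_le_below x).preimage
      (f := fun z => (z, g z)) (by fun_prop))
  obtain ⟨z, hz, hmax⟩ := exists_greatest hcl ⟨y, ⟨le_rfl, hyx⟩, h1, (map_le g hyx).trans h2⟩
    (y := x) (fun z hz => hz.1.2)
  refine ⟨z, hz.1.1, hz.1.2, le_antisymm (hmax _ ⟨⟨hz.1.1.trans hz.2.1, hz.2.2⟩,
    map_le g hz.2.1, (map_le g hz.2.2).trans h2⟩) hz.2.1⟩

omit [CompactSpace X] [Fan X] in
lemma symm_fix {g : X ≃ₜ X} {e : X} (h : g e = e) : g.symm e = e := by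
  rw [Homeomorph.symm_apply_eq, h]

lemma le_of_fix {g : X ≃ₜ X} {e x : X} (h : g e = e) (hx : x ≤ e) : g x ≤ e := h ▸ map_le g hx

lemma lt_of_fix {g : X ≃ₜ X} {e x : X} (h : g e = e) (hx : x < e) : g x < e :=
  h ▸ (map_lt_iff g).mpr hx

theorem Four.nonfree (F : Four a b) (hA : LegDense a) {e : X} (he : IsMax e) :
    ∃ g : X ≃ₜ X, g e = e ∧ ∃ x x', x ≠ ⊥ ∧ x < e ∧ g x = x ∧ x' ≤ e ∧ g x' ≠ x' := by
  by_contra hcon
  push Not at hcon
  have cmp0 : ∀ l : X ≃ₜ X, l e = e → ∀ x x', x ≠ ⊥ → x < e → x' ≠ ⊥ → x' < e → l x < x →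
      l x' < x' := by
    intro l hl x x' h1 h2 h3 h4 h5
    by_contra h
    have h6 : x' ≤ l x' := by
      by_contra h'
      exact h (lt_of_not_le_below h4.le (le_of_fix hl h4.le) h')
    rcases total_below h2.le h4.le with k | k
    · obtain ⟨z, z1, z2, z3⟩ := exists_fixed l.symm k
        (by rw [← map_le_iff l, l.apply_symm_apply]; exact h5.le)
        (by rw [← map_le_iff l, l.apply_symm_apply]; exact h6)
      have := hcon l hl z x (ne_bot_of_le_ne_bot h1 z1) (z2.trans_lt h4)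
        (by rw [Homeomorph.symm_apply_eq] at z3; exact z3.symm) h2.le
      exact h5.ne this
    · obtain ⟨z, z1, z2, z3⟩ := exists_fixed l k h6 h5.le
      exact h5.ne (hcon l hl z x (ne_bot_of_le_ne_bot h3 z1) (z2.trans_lt h2) z3 h2.le)
  have cmp : ∀ g k : X ≃ₜ X, g e = e → k e = e → ∀ x x', x ≠ ⊥ → x < e → x' ≠ ⊥ → x' < e →
      g x < k x → g x' < k x' := by
    intro g k hg hk x x' h1 h2 h3 h4 h5
    have := cmp0 (g.trans k.symm) (by rw [Homeomorph.trans_apply, hg, symm_fix hk]) x x' h1 h2 h3 h4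
      (by rw [Homeomorph.trans_apply, ← map_lt_iff k, k.apply_symm_apply]; exact h5)
    rwa [Homeomorph.trans_apply, ← map_lt_iff k, k.apply_symm_apply] at this
  obtain ⟨a0, ha0, -, a1⟩ := F.exists_orb_gt he F.a_ne F.a_nmax
    (bot_lt_iff_ne_bot.mpr (F.max_ne he))
  obtain ⟨b0, hb0, b1, b2⟩ := F.exists_orb_gt he F.b_ne F.b_nmax a1
  have a2 := orb_ne_bot F.a_ne ha0
  have mover : ∀ x y, x ≠ ⊥ → x ≤ e → y ≤ e → y ∈ orb x → ∃ k : X ≃ₜ X, k e = e ∧ k x = y := by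
    rintro x _ h1 h2 h3 ⟨k, rfl⟩
    exact ⟨k, fix_end h1 he h2 h3, rfl⟩
  let S : Set X := {x | ∃ g : X ≃ₜ X, g e = e ∧ g a0 = x ∧ g x ≤ b0}
  have hS : S ⊆ Iic b0 := by
    rintro x ⟨g, hg, rfl, h⟩
    rcases total_below (le_of_fix hg a1.le) a1.le with k | k
    · exact k.trans b1.le
    · exact (map_le g k).trans h
  have haS : a0 ∈ S := ⟨Homeomorph.refl X, rfl, rfl, b1.le⟩
  have hS' := closure_minimal hS (isClosed_Iic' b0)
  obtain ⟨s, hs, hmax⟩ := exists_greatest isClosed_closure ⟨a0, subset_closure haS⟩ hS'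
  have s1 : s ≠ ⊥ := ne_bot_of_le_ne_bot a2 (hmax a0 (subset_closure haS))
  have s2 : s < e := lt_of_le_of_lt (hS' hs) b2
  have claim1 : ∀ k : X ≃ₜ X, k e = e → s < k a0 → ¬ k s < b0 := by
    intro k hk h1 h2
    have h3 : s < k.symm b0 := by rw [← map_lt_iff k, k.apply_symm_apply]; exact h2
    obtain ⟨m, m1, m2, m3⟩ : ∃ m, s < m ∧ m ≤ k a0 ∧ m ≤ k.symm b0 := by
      rcases total_below (le_of_fix hk a1.le) (le_of_fix (symm_fix hk) b2.le) with h | h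
      · exact ⟨_, h1, le_rfl, h⟩
      · exact ⟨_, h3, h, le_rfl⟩
    obtain ⟨x, hx, x1, x2⟩ := hA s m m1
    have x3 : x < e := (x2.trans_le m2).trans (lt_of_fix hk a1)
    obtain ⟨g, hg, rfl⟩ := mover a0 x a2 a1.le x3.le (orb_trans (orb_symm ha0) hx)
    have l1 := cmp g k hg hk a0 (g a0) a2 a1 (ne_bot_of_gt x1) x3 (x2.trans_le m2)
    have l2 : k (g a0) < b0 := by
      have := (map_lt_iff k).mpr (x2.trans_le m3)
      rwa [k.apply_symm_apply] at this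
    exact x1.not_ge (hmax _ (subset_closure ⟨g, hg, rfl, (l1.trans l2).le⟩))
  have claim2 : ∀ k : X ≃ₜ X, k e = e → k a0 < s → ¬ b0 < k s := by
    intro k hk h1 h2
    have h3 : k.symm b0 < s := by rw [← map_lt_iff k, k.apply_symm_apply]; exact h2
    obtain ⟨m, m1, m2, m3⟩ := exists_max_lt h1 h3
    obtain ⟨_, x1, g, hg, rfl, x2⟩ := mem_closure_iff.mp hs _ (isClosed_Iic' m).isOpen_compl
      m3.not_ge
    have x3 : m < g a0 := lt_of_not_le_below (le_of_fix hg a1.le) (m3.trans s2).le x1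
    have l1 := cmp k g hk hg a0 (g a0) a2 a1 (ne_bot_of_gt x3) (lt_of_fix hg a1) (m1.trans_lt x3)
    have l2 := (map_lt_iff k.symm).mpr (l1.trans_le x2)
    rw [k.symm_apply_apply] at l2
    exact lt_asymm l2 (m2.trans_lt x3)
  rcases F.cover s s1 (not_isMax_of_lt s2) with h | h
  · obtain ⟨g, hg, hgs⟩ := mover a0 s a2 a1.le s2.le (orb_trans (orb_symm ha0) h)
    have hne : g s ≠ b0 := fun e' => F.not_orb (orb_trans (e' ▸ map_mem_orb h g) (orb_symm hb0))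
    rcases total_below (le_of_fix hg s2.le) b2.le with k | k
    · obtain ⟨y, hy, y1, y2⟩ := hA _ _ (lt_of_le_of_ne k hne)
      obtain ⟨k, hk, rfl⟩ := mover s y s1 s2.le (y2.trans b2).le (orb_trans (orb_symm h) hy)
      exact claim1 k hk (hgs ▸ cmp g k hg hk s a0 s1 s2 a2 a1 y1) y2
    · obtain ⟨y, hy, y1, y2⟩ := hA _ _ (lt_of_le_of_ne k hne.symm)
      obtain ⟨k, hk, rfl⟩ := mover s y s1 s2.le (y2.trans (lt_of_fix hg s2)).le
        (orb_trans (orb_symm h) hy)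
      exact claim2 k hk (hgs ▸ cmp k g hk hg s a0 s1 s2 a2 a1 y2) y1
  · obtain ⟨g, hg, hgs⟩ := mover s b0 s1 s2.le b2.le (orb_trans (orb_symm h) hb0)
    have hne : g a0 ≠ s := fun e' => F.not_orb (orb_trans (e' ▸ map_mem_orb ha0 g) (orb_symm h))
    rcases total_below (le_of_fix hg a1.le) s2.le with k | k
    · obtain ⟨y, hy, y1, y2⟩ := hA _ _ (lt_of_le_of_ne k hne)
      obtain ⟨k, hk, rfl⟩ := mover a0 y a2 a1.le (y2.trans s2).le (orb_trans (orb_symm ha0) hy)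
      exact claim2 k hk y2 (hgs ▸ cmp g k hg hk a0 s a2 a1 s1 s2 y1)
    · obtain ⟨y, hy, y1, y2⟩ := hA _ _ (lt_of_le_of_ne k hne.symm)
      obtain ⟨k, hk, rfl⟩ := mover a0 y a2 a1.le (y2.trans (lt_of_fix hg a1)).le
        (orb_trans (orb_symm ha0) hy)
      exact claim1 k hk y1 (hgs ▸ cmp k g hk hg a0 s a2 a1 s1 s2 y2)

lemma exists_sig (y : X) : ∃ m, (m ≤ y ∧ (y, m) ∈ Q X) ∧ ∀ p, p ≤ y → (y, p) ∈ Q X → m ≤ p := by
  obtain ⟨m, hm, hmin⟩ := exists_least (S := Iic y ∩ {p | (y, p) ∈ Q X})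
    ((isClosed_Iic' y).inter (isClosed_Q.preimage (Continuous.prodMk_right y)))
    ⟨y, le_refl y, mem_Q_of_le le_rfl⟩ inter_subset_left
  exact ⟨m, hm, fun p h1 h2 => hmin p ⟨h1, h2⟩⟩

/-- The lowest point to which approximating legs fold back. -/
noncomputable def sig (y : X) : X := (exists_sig y).choose

lemma sig_le (y : X) : sig y ≤ y := (exists_sig y).choose_spec.1.1

lemma sig_Q (y : X) : (y, sig y) ∈ Q X := (exists_sig y).choose_spec.1.2

lemma sig_min {y p : X} (h1 : p ≤ y) (h2 : (y, p) ∈ Q X) : sig y ≤ p :=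
  (exists_sig y).choose_spec.2 p h1 h2

lemma map_sig (h : X ≃ₜ X) (y : X) : sig (h y) = h (sig y) := by
  refine le_antisymm (sig_min (map_le h (sig_le y)) (map_Q h (sig_Q y))) ?_
  have h1 := map_le h.symm (sig_le (h y))
  have h2 := map_Q h.symm (sig_Q (h y))
  rw [h.symm_apply_apply] at h1 h2
  simpa using map_le h (sig_min h1 h2)

lemma sig_mono {y y' : X} (h : y' ≤ y) : sig y' ≤ sig y := by
  rcases total_below (sig_le y) h with k | k
  · refine sig_min k (Q_sub (sig_Q y) (right_mem_seg _ _) ?_)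
    rw [seg_comm, ← Icc_eq_seg (sig_le y)]
    exact ⟨k, h⟩
  · exact (sig_le y').trans k

lemma Four.sig_ne_bot (F : Four a b) {y : X} (hy : y ≠ ⊥) : sig y ≠ ⊥ :=
  F.ne_bot_of_Q (sig_Q y) hy

lemma Four.sig_end (F : Four a b) {e : X} (he : IsMax e) : sig e = e := F.eq_of_Q he (sig_Q e)

/-- The hypotheses of the dense non-smooth case. -/
structure Fold (a b : X) : Prop extends Four a b where
  dense : ∀ x : X, x ≠ ⊥ → ¬ IsMax x → LegDense x
  lt : ∀ x : X, x ≠ ⊥ → ¬ IsMax x → sig x < x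

lemma Fold.exists_sig_mem (F : Fold a b) {u v : X} (h : u < v) :
    ∃ y, u < sig y ∧ sig y < v ∧ y ≤ en v := by
  obtain ⟨_, ⟨g, rfl⟩, h1, h2⟩ := F.dense (sig a) (F.sig_ne_bot F.a_ne)
    (not_isMax_of_lt (F.lt a F.a_ne F.a_nmax)) u v h
  rw [← map_sig] at h1 h2
  refine ⟨g a, h1, h2, ?_⟩
  rw [← en_eq (ne_bot_of_gt h1) (isMax_en v) (h2.le.trans (le_en v))]
  exact le_en_of_le (ne_bot_of_gt h1) (sig_le _)

lemma Fold.isClosed_graph (F : Fold a b) {e : X} (he : IsMax e) :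
    IsClosed {z : X × X | z.1 = sig z.2 ∧ z.2 ≤ e} := by
  refine isClosed_of_closure_subset ?_
  rintro ⟨p, y⟩ hz
  have h1 : p ≤ y ∧ y ≤ e := closure_minimal (t := {z : X × X | z.1 ≤ z.2 ∧ z.2 ≤ e})
    (by rintro z ⟨h1, h2⟩; exact ⟨h1 ▸ sig_le _, h2⟩) (isClosed_le_below e) hz
  refine ⟨?_, h1.2⟩
  by_contra hne
  rcases total_below h1.1 (sig_le y) with h | h
  · have hlt : p < sig y := lt_of_le_of_ne h hne
    obtain ⟨y1, k1, k2, k3⟩ := F.exists_sig_mem hlt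
    rw [en_eq hlt.ne_bot he ((sig_le y).trans h1.2)] at k3
    have k4 : y1 < y := lt_of_not_le_below h1.2 k3 fun h => k2.not_ge (sig_mono h)
    have k5 : sig y1 ≤ e := (sig_le _).trans k3
    obtain ⟨⟨p', y'⟩, ⟨l1, l2⟩, l3, l4⟩ := mem_closure_iff.mp hz ((Icc (sig y1) e)ᶜ ×ˢ (Iic y1)ᶜ)
      ((isClosed_Icc' k5).isOpen_compl.prod (isClosed_Iic' _).isOpen_compl)
      ⟨fun h => k1.not_ge h.1, k4.not_ge⟩
    obtain rfl : p' = sig y' := l3
    exact l1 ⟨sig_mono (lt_of_not_le_below l4 k3 l2).le, (sig_le _).trans l4⟩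
  · have hlt : sig y < p := lt_of_le_of_ne h (Ne.symm hne)
    obtain ⟨y1, k1, k2, k3⟩ := F.exists_sig_mem hlt
    rw [en_eq hlt.ne_bot he (h1.1.trans h1.2)] at k3
    have k4 : y < y1 := lt_of_not_le_below k3 h1.2 fun h => k1.not_ge (sig_mono h)
    obtain ⟨⟨p', y'⟩, ⟨l1, l2⟩, l3, l4⟩ := mem_closure_iff.mp hz ((Iic (sig y1))ᶜ ×ˢ (Icc y1 e)ᶜ)
      ((isClosed_Iic' _).isOpen_compl.prod (isClosed_Icc' k3).isOpen_compl)
      ⟨k2.not_ge, fun h => k4.not_ge h.1⟩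
    obtain rfl : p' = sig y' := l3
    exact l1 (sig_mono (lt_of_not_le_below k3 l4 fun h => l2 ⟨h, l4⟩).le)

lemma Fold.isClosed_pre (F : Fold a b) {e : X} (he : IsMax e) {C : Set X} (hC : IsClosed C) :
    IsClosed {w | w ≤ e ∧ sig w ∈ C} := by
  have := isClosedMap_snd_of_compactSpace _
    ((F.isClosed_graph he).inter (hC.preimage continuous_fst))
  convert this using 1
  ext w
  constructor
  · rintro ⟨h1, h2⟩; exact ⟨(sig w, w), ⟨⟨rfl, h1⟩, h2⟩, rfl⟩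
  · rintro ⟨⟨p, y⟩, ⟨⟨h1, h2⟩, h3⟩, rfl⟩
    obtain rfl : p = sig y := h1
    exact ⟨h2, h3⟩

lemma Fold.strict (F : Fold a b) {y1 y2 : X} (h : y1 < y2) : sig y1 < sig y2 := by
  refine lt_of_le_of_ne (sig_mono h.le) fun hc => ?_
  have he := isMax_en y2
  obtain ⟨m, hm, hmax⟩ := exists_greatest (F.isClosed_pre he (isClosed_singleton (x := sig y1)))
    ⟨y2, le_en y2, hc.symm⟩ (y := en y2) (fun x hx => hx.1)
  have h2 : y2 ≤ m := hmax y2 ⟨le_en y2, hc.symm⟩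
  have hm2 : sig m = sig y1 := hm.2
  have hme : m < en y2 := by
    refine lt_of_le_of_ne hm.1 fun e' => ?_
    rw [e', F.sig_end he] at hm2
    exact (h.trans_le (le_en y2)).not_ge (hm2 ▸ sig_le y1)
  have hm0 : m ≠ ⊥ := (h.trans_le h2).ne_bot
  obtain ⟨x, hx, x1, x2⟩ := F.dense m hm0 (not_isMax_of_lt hme) y1 y2 h
  obtain ⟨g, rfl⟩ := orb_symm hx
  have hg : g (en y2) = en y2 := fix_end x1.ne_bot he (x2.le.trans (le_en y2)) hm.1
  have e1 : sig x = sig y2 := le_antisymm (sig_mono x2.le) (hc ▸ sig_mono x1.le)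
  refine ((map_lt_iff g).mpr x2).not_ge (hmax _ ⟨le_of_fix hg (le_en y2), ?_⟩)
  rw [mem_singleton_iff, map_sig, ← e1, ← map_sig, hm2]

lemma iter_sig_mono (j : ℕ) {y y' : X} (h : y' ≤ y) : sig^[j] y' ≤ sig^[j] y :=
  Monotone.iterate (f := sig) (fun _ _ h => sig_mono h) j h

lemma iter_sig_le (j : ℕ) (y : X) : sig^[j] y ≤ y :=
  Function.iterate_le_id_of_le_id (f := sig) (fun y => sig_le y) j y

lemma map_iter_sig (h : X ≃ₜ X) (j : ℕ) (y : X) : sig^[j] (h y) = h (sig^[j] y) :=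
  (Function.Commute.iterate_left (f := sig) (g := h) (fun y => map_sig h y) j) y

lemma Fold.iter_lt (F : Fold a b) {e y x : X} (hy : y < e) (hx : x ≠ ⊥) (hxe : x ≤ e) :
    ∃ j, sig^[j] y < x := by
  by_contra hcon
  push Not at hcon
  have hle : ∀ j, x ≤ sig^[j] y := fun j => by
    by_contra h
    exact hcon j (lt_of_not_le_below hxe ((iter_sig_le j y).trans hy.le) h)
  have hxy : x ≤ y := hle 0
  have hsub : closure (range fun j => sig^[j] y) ⊆ Icc x y := closure_minimal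
    (by rintro _ ⟨j, rfl⟩; exact ⟨hle j, iter_sig_le j y⟩) (isClosed_Icc' hxy)
  obtain ⟨m, hm, hmin⟩ := exists_least (S := closure (range fun j => sig^[j] y)) isClosed_closure
    ⟨y, subset_closure ⟨0, rfl⟩⟩ (y := y) (fun z hz => (hsub hz).2)
  have hm0 : m ≠ ⊥ := ne_bot_of_le_ne_bot hx (hsub hm).1
  obtain ⟨y1, k1, k2, k3⟩ := F.exists_sig_mem (F.lt m hm0 (not_isMax_of_lt ((hsub hm).2.trans_lt hy)))
  have k4 : m < y1 := lt_of_not_le_below k3 (le_en m) fun h => k1.not_ge (sig_mono h)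
  obtain ⟨_, l1, j, rfl⟩ := mem_closure_iff.mp hm _ (isClosed_Icc' k3).isOpen_compl
    (fun h => k4.not_ge h.1)
  have l2 : sig^[j] y ≤ en m := le_en_of_le hm0 (hmin _ (subset_closure ⟨j, rfl⟩))
  have l3 : sig^[j] y < y1 := lt_of_not_le_below k3 l2 fun h => l1 ⟨h, l2⟩
  have l4 := hmin _ (subset_closure ⟨j + 1, rfl⟩)
  simp only [Function.iterate_succ_apply'] at l4
  exact k2.not_ge (l4.trans (sig_mono l3.le))

lemma Fold.isClosed_bd (F : Fold a b) {e : X} (he : IsMax e) (x : X) (j : ℕ) :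
    IsClosed {w | w ≤ e ∧ sig^[j] w ≤ x} := by
  induction j with
  | zero => exact (isClosed_Iic' e).inter (isClosed_Iic' x)
  | succ j ih =>
    convert F.isClosed_pre he ih using 1
    ext w
    exact ⟨fun h => ⟨h.1, (sig_le w).trans h.1, h.2⟩, fun h => ⟨h.1, h.2.2⟩⟩

lemma Fold.contract (F : Fold a b) {e : X} (he : IsMax e) :
    ∃ (g : X ≃ₜ X) (a0 x : X), g e = e ∧ a0 ≠ ⊥ ∧ a0 < x ∧ x < e ∧ g a0 = a0 ∧ g x ≤ x ∧
      ∀ y, a0 ≤ y → y ≤ x → y ≤ g y → y = a0 := by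
  obtain ⟨g, hg, x, x', h1, h2, h3, h4, h5⟩ := F.nonfree (F.dense a F.a_ne F.a_nmax) he
  have x0 : x' ≠ ⊥ := by rintro rfl; exact h5 (map_bot' g)
  have x1 : x' < e := lt_of_le_of_ne h4 (by rintro rfl; exact h5 hg)
  obtain ⟨j, hj⟩ := F.iter_lt h2 x0 h4
  have hfix : g (sig^[j] x) = sig^[j] x := by rw [← map_iter_sig, h3]
  have hj0 : sig^[j] x ≠ ⊥ := by
    clear hj hfix
    induction j with
    | zero => exact h1
    | succ j ih => rw [Function.iterate_succ_apply']; exact F.sig_ne_bot ih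
  obtain ⟨a0, ha0, hmax⟩ := exists_greatest (S := Iic x' ∩ {y | g y = y})
    ((isClosed_Iic' x').inter (isClosed_eq g.continuous continuous_id)) ⟨_, hj.le, hfix⟩
    inter_subset_left
  have a1 : a0 ≠ ⊥ := ne_bot_of_le_ne_bot hj0 (hmax _ ⟨hj.le, hfix⟩)
  have a2 : a0 < x' := lt_of_le_of_ne ha0.1 fun e' => h5 (e' ▸ ha0.2)
  rcases total_below (le_of_fix hg h4) h4 with h | h
  · refine ⟨g, a0, x', hg, a1, a2, x1, ha0.2, h, fun y y1 y2 y3 => ?_⟩
    obtain ⟨z, z1, z2, z3⟩ := exists_fixed g y2 y3 h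
    exact le_antisymm (z1.trans (hmax z ⟨z2, z3⟩)) y1
  · have h' : g.symm x' ≤ x' := by rw [← map_le_iff g, g.apply_symm_apply]; exact h
    refine ⟨g.symm, a0, x', symm_fix hg, a1, a2, x1, symm_fix ha0.2, h', fun y y1 y2 y3 => ?_⟩
    obtain ⟨z, z1, z2, z3⟩ := exists_fixed g.symm y2 y3 h'
    exact le_antisymm (z1.trans (hmax z ⟨z2, by simpa using symm_fix z3⟩)) y1

lemma Fold.approx (F : Fold a b) (hE : Dense {e : X | IsMax e}) {e a0 x : X} (he : IsMax e)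
    (h0 : a0 ≠ ⊥) (h1 : a0 < x) (h2 : x < e) :
    ∃ p w, (p, a0, w) ∈ Tri (sig a0) a0 e ∧ sig a0 ≤ p ∧ p ≤ sig x ∧ w < e := by
  obtain ⟨x1, k1, k2⟩ := exists_between' h1
  have k3 : sig x ≤ e := (sig_le x).trans h2.le
  have k4 : x1 ≤ e := (k2.trans h2).le
  obtain ⟨ε1, hε1, hdis⟩ := Disjoint.exists_cthickenings (s := Iic (sig x1)) (t := Icc (sig x) e)
    (disjoint_left.mpr fun z z1 z2 => (F.strict k2).not_ge (z2.1.trans z1))
    (isClosed_Iic' _).isCompact (isClosed_Icc' k3)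
  obtain ⟨r, hr, hball⟩ := Metric.isOpen_iff.mp (isClosed_Icc' k4).isOpen_compl a0
    (fun h => k1.not_ge h.1)
  obtain ⟨δ, hδ, hm⟩ := F.micro he (lt_min hε1 (half_pos hr))
  obtain ⟨u, hu, hsub⟩ := exists_Ioc_subset isOpen_ball (mem_ball_self (x := e) hδ) (F.max_ne he)
  obtain ⟨m, m1, m2, m3⟩ := exists_max_lt hu (h1.trans h2)
  obtain ⟨w, w1, w2⟩ := exists_between' m3
  have hC : IsClosed (Prod.snd '' (Tri (sig a0) a0 e ∩
      ({z | z.1 ∈ cthickening ε1 (Iic (sig x1))} ∩ {z | (z.2.1, z.1) ∈ Q X}))) :=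
    isClosedMap_snd_of_compactSpace _ (isClosed_closure.inter
      ((isClosed_cthickening.preimage continuous_fst).inter (isClosed_Q.preimage (by fun_prop))))
  obtain ⟨⟨p, z⟩, ⟨l1, l2, l3⟩, l4⟩ := hC.closure_subset (a := (a0, w)) (by
    refine mem_closure_iff.mpr fun N hN hmem => ?_
    obtain ⟨U, V, hU, hV, haU, hwV, hUV⟩ := isOpen_prod_iff.mp hN a0 w hmem
    have hU' : IsOpen (U ∩ ball a0 (r / 2) ∩ {⊥}ᶜ) :=
      (hU.inter isOpen_ball).inter isOpen_compl_singleton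
    obtain ⟨e', ⟨⟨n1, n2⟩, u', n3, n4⟩, n5⟩ := hE.inter_open_nonempty _
      ((hV.inter isOpen_ball).inter (isOpen_up' hU'))
      ⟨w, ⟨hwV, hsub w (m1.trans_lt w1) w2.le⟩, a0, ⟨⟨haU, mem_ball_self (half_pos hr)⟩, h0⟩,
        m2.trans w1.le⟩
    obtain ⟨k, hk, hke⟩ := hm e' n5 n2
    obtain ⟨u'', o1, o2⟩ := exists_Ioc_subset hU' n3 n3.2
    obtain ⟨_, ⟨h, rfl⟩, o3, o4⟩ := F.dense a0 h0 (not_isMax_of_lt h1) _ _ o1
    have o5 := o2 _ o3 o4.le
    have o6 : h e = e' := by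
      rw [← en_eq h0 he (h1.trans h2).le, ← map_en h h0, en_eq o5.2 n5 (o4.le.trans n4)]
    have o7 : k.symm (h a0) ≤ e := by
      rw [← map_le_iff k, k.apply_symm_apply, hke]; exact o4.le.trans n4
    have o8 : k.symm (h a0) < x1 := by
      refine lt_of_not_le_below k4 o7 fun h' => hball ?_ ⟨h', o7⟩
      have t1 := dist_triangle (k.symm (h a0)) (h a0) a0
      have t2 := (hk.symm (h a0)).trans (min_le_right _ _)
      have t3 : dist (h a0) a0 < r / 2 := o5.1.2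
      rw [mem_ball]
      linarith
    refine ⟨(h a0, h e), hUV ⟨o5.1.1, o6 ▸ n1⟩, (h (sig a0), h a0, h e),
      ⟨subset_closure ⟨h, rfl⟩, ?_, map_Q h (sig_Q a0)⟩, rfl⟩
    refine mem_cthickening_of_dist_le _ (sig (k.symm (h a0))) _ _ (sig_mono o8.le) ?_
    have : h (sig a0) = k (sig (k.symm (h a0))) := by
      rw [← map_sig k, k.apply_symm_apply, map_sig]
    simp only [this]
    exact (hk _).trans (min_le_left _ _))
  obtain rfl : z = (a0, w) := l4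
  have q1 : p ≤ e := F.le_end_of_Q l3 h0 he (h1.trans h2).le
  refine ⟨p, w, l1, ?_, ?_, w2⟩
  · rcases F.total_of_Q l3 h0 with h | h
    · exact (sig_le a0).trans h
    · exact sig_min h l3
  · exact (lt_of_not_le_below k3 q1 fun h =>
      disjoint_left.mp hdis l2 (self_subset_cthickening _ ⟨h, q1⟩)).le

theorem Fold.false (F : Fold a b) (hE : Dense {e : X | IsMax e}) : False := by
  have he := isMax_en a
  set e := en a
  obtain ⟨g, a0, x, hg, h0, h1, h2, h3, h4, h5⟩ := F.contract he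
  obtain ⟨p, w, k1, k2, k3, k4⟩ := F.approx hE he h0 h1 h2
  obtain ⟨j, hj⟩ := F.iter_lt k4 h0 (h1.trans h2).le
  have hT : IsClosed {p | p ∈ Icc (sig a0) (sig x) ∧
      ∃ w, (p, a0, w) ∈ Tri (sig a0) a0 e ∧ w ≤ e ∧ sig^[j] w ≤ a0} := by
    refine (isClosed_Icc' (sig_mono h1.le)).inter ?_
    have := isClosedMap_fst_of_compactSpace _
      (((isClosed_closure : IsClosed (Tri (sig a0) a0 e)).preimage
        (f := fun z : X × X => (z.1, a0, z.2)) (by fun_prop)).inter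
        ((F.isClosed_bd he a0 j).preimage continuous_snd))
    convert this using 1
    ext p
    exact ⟨fun ⟨w, h⟩ => ⟨(p, w), h, rfl⟩, by rintro ⟨⟨p, w⟩, h, rfl⟩; exact ⟨w, h⟩⟩
  obtain ⟨m, ⟨⟨m1, m2⟩, w', m3, m4, m5⟩, hmin⟩ := exists_least hT
    ⟨p, ⟨k2, k3⟩, w, k1, k4.le, hj.le⟩ (y := sig x) (fun z hz => hz.1.2)
  have hgm : m ≤ g m := by
    refine hmin _ ⟨⟨?_, ?_⟩, g w', ?_, le_of_fix hg m4, ?_⟩
    · have := map_le g m1
      rwa [← map_sig, h3] at this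
    · have := map_le g m2
      rw [← map_sig] at this
      exact this.trans (sig_mono h4)
    · have := map_Tri g m3
      rwa [h3] at this
    · rw [map_iter_sig, ← h3]; exact map_le g m5
  have hme : m ≤ e := m2.trans ((sig_le x).trans h2.le)
  obtain ⟨y, ⟨⟨y1, y2⟩, -, y3, -⟩, ymin⟩ := exists_least
    ((isClosed_Icc' h1.le).inter (F.isClosed_pre he (isClosed_Icc' hme)))
    ⟨x, ⟨h1.le, le_rfl⟩, h2.le, m2, (sig_le x).trans h2.le⟩ (y := x) (fun z hz => hz.1.2)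
  have y4 : g y ≤ x := (map_le g y2).trans h4
  have y5 : y = a0 := h5 y y1 y2 (ymin _ ⟨⟨h3 ▸ map_le g y1, y4⟩, y4.trans h2.le,
    by rw [map_sig]; exact hgm.trans (map_le g y3), (sig_le _).trans (y4.trans h2.le)⟩)
  obtain rfl : m = sig a0 := le_antisymm (y5 ▸ y3) m1
  obtain ⟨p', y', n1, n2, hcl, huniq⟩ := F.generic he h0 (h1.trans h2).le
    (F.lt a0 h0 (not_isMax_of_lt h1)).ne
  have n3 : p' = sig y' ∧ y' ≤ e := closure_minimal
    (t := {z : X × X | z.1 = sig z.2 ∧ z.2 ≤ e})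
    (by rintro _ ⟨k, hk, rfl⟩; exact ⟨(map_sig k a0).symm, le_of_fix hk (h1.trans h2).le⟩)
    (F.isClosed_graph he) hcl
  have n4 : y' < e := lt_of_le_of_ne n3.2 fun e' => n1 (by rw [n3.1, e', F.sig_end he])
  obtain ⟨x', x1, x2⟩ := exists_between' n4
  have hC : IsClosed ((fun z : X × X × X => (z.1, z.2.1)) '' (Tri (sig a0) a0 e ∩
      {z | z.2.2 ≤ e ∧ sig^[j] z.2.2 ≤ x'})) :=
    ((isClosed_closure.inter ((F.isClosed_bd he x' j).preimage
      (f := fun z : X × X × X => z.2.2) (by fun_prop))).isCompact.image (by fun_prop)).isClosed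
  obtain ⟨⟨p'', y'', w''⟩, ⟨l1, l2, l3⟩, l4⟩ := hC.closure_subset (a := (p', y')) (by
    refine mem_closure_iff.mpr fun N hN hmem => ?_
    obtain ⟨_, ⟨o1, o2⟩, k, hk, rfl⟩ := mem_closure_iff.mp hcl _
      (hN.inter ((isClosed_Icc' x2.le).isOpen_compl.preimage continuous_snd))
      ⟨hmem, fun h => x1.not_ge h.1⟩
    refine ⟨_, o1, (k (sig a0), k a0, k w'), ⟨map_Tri k m3, le_of_fix hk m4, ?_⟩, rfl⟩
    have o3 : k a0 ≤ e := le_of_fix hk (h1.trans h2).le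
    simp only [map_iter_sig]
    exact (map_le k m5).trans (lt_of_not_le_below x2.le o3 fun h => o2 ⟨h, o3⟩).le)
  obtain ⟨rfl, rfl⟩ := Prod.mk.inj l4
  obtain rfl := huniq _ l1
  simp only [Function.iterate_fixed (F.sig_end he)] at l3
  exact x2.not_ge l3

theorem Four.false (F : Four a b) : False := by
  have hd : ∀ x : X, x ≠ ⊥ → ¬ IsMax x → LegDense x := by
    intro x h1 h2 u v huv
    rcases F.cover x h1 h2 with h | h
    · obtain ⟨y, hy, k⟩ := F.symm.legDense u v huv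
      exact ⟨y, orb_trans (orb_symm h) hy, k⟩
    · obtain ⟨y, hy, k⟩ := F.legDense u v huv
      exact ⟨y, orb_trans (orb_symm h) hy, k⟩
  have hE : Dense {e : X | IsMax e} := by
    obtain ⟨x, hx, h1, h2⟩ := F.exists_acc
    have key : orb x ⊆ closure {e : X | IsMax e} := by
      rintro _ ⟨h, rfl⟩; exact closure_isMax_map h hx
    intro w
    refine closure_minimal key isClosed_closure ?_
    by_cases hw : w = ⊥
    · exact hw ▸ closure_mono inter_subset_left (F.ends_mem_orb (isMax_en x) h1 h2).1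
    · refine mem_closure_iff.mpr fun N hN hwN => ?_
      obtain ⟨u, hu, hsub⟩ := exists_Ioc_subset hN hwN hw
      obtain ⟨y, hy, y1, y2⟩ := hd x h1 h2 u w hu
      exact ⟨y, hsub y y1 y2.le, hy⟩
  by_cases hs : IsClosed {p : X × X | p.1 ≤ p.2}
  · exact F.not_smooth_dense hs hE
  refine Fold.false ⟨F, hd, fun x h1 h2 => ?_⟩ hE
  obtain ⟨⟨y, p⟩, hq, hn⟩ := not_subset.mp (mt isClosed_of_closure_subset hs)
  have hy : y ≠ ⊥ := by rintro rfl; exact hn (show ⊥ ≤ p from bot_le)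
  have hp : p ≤ y := (F.total_of_Q hq hy).resolve_left hn
  have hlt : sig y < y := (sig_min hp hq).trans_lt (lt_of_le_not_ge hp hn)
  obtain ⟨_, ⟨g, rfl⟩, z1, z2⟩ := hd x h1 h2 _ _ hlt
  have := (sig_mono z2.le).trans_lt z1
  rwa [map_sig, map_lt_iff] at this

end Pool.Agent.P.MP_64e39e_gt
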