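import Pool.Agent.P.MP_64e39e_gt.Slide

/-!
Generic continuity of the endpoint map on orbit closures of pairs, and the case where one inner
orbit is discrete in the legs.
-/

namespace Pool.Agent.P.MP_64e39e_gt
open Set Metric Topology Filter

variable {X : Type} [MetricSpace X] [CompactSpace X] [Fan X] {a b : X}

/-- The orbit closure of a triple. -/
def Tri (p y e : X) : Set (X × X × X) := closure {z | ∃ h : X ≃ₜ X, (h p, h y, h e) = z}

omit [CompactSpace X] [Fan X] in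
lemma map_Tri {p0 y0 e p y w : X} (h : X ≃ₜ X) (hz : (p, y, w) ∈ Tri p0 y0 e) :
    (h p, h y, h w) ∈ Tri p0 y0 e :=
  map_mem_closure (f := Prod.map h (Prod.map h h))
    (h.continuous.prodMap (h.continuous.prodMap h.continuous)) hz
    (by rintro _ ⟨g, rfl⟩; exact ⟨g.trans h, rfl⟩)

theorem Four.generic (F : Four a b) {p0 y0 e : X} (he : IsMax e) (hy0 : y0 ≠ ⊥) (hye : y0 ≤ e)
    (hne : p0 ≠ y0) : ∃ p y, p ≠ y ∧ y ≠ ⊥ ∧
      (p, y) ∈ closure {z | ∃ g : X ≃ₜ X, g e = e ∧ (g p0, g y0) = z} ∧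
      ∀ w, (p, y, w) ∈ Tri p0 y0 e → w = e := by
  have hc : Countable (TopologicalSpace.countableBasis X) :=
    (TopologicalSpace.countable_countableBasis X).to_subtype
  obtain ⟨⟨p1, y1⟩, hz, ⟨h1, h2⟩, -, hgen⟩ := baire_generic
    (K := closure {z : X × X | ∃ h : X ≃ₜ X, (h p0, h y0) = z})
    (W := {z | z.1 ≠ z.2} ∩ {z | z.2 ≠ ⊥}) isClosed_closure
    ((isOpen_ne_fun continuous_fst continuous_snd).inter
      (isOpen_ne_fun continuous_snd continuous_const))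
    ⟨(p0, y0), subset_closure ⟨Homeomorph.refl X, rfl⟩, hne, hy0⟩ (ι := Empty) (fun _ => univ)
    (fun i => i.elim) (fun i => i.elim)
    (fun U : TopologicalSpace.countableBasis X =>
      Prod.snd ⁻¹' (Prod.fst '' (Q X ∩ Prod.snd ⁻¹' closure U.1)))
    (fun U => (isClosedMap_fst_of_compactSpace _
      (isClosed_Q.inter (isClosed_closure.preimage continuous_snd))).preimage continuous_snd)
  have key : ∀ w, (p1, y1, w) ∈ Tri p0 y0 e → w = en y1 := by
    intro w hw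
    refine F.eq_of_Q (isMax_en y1) (mem_Q_iff.mpr fun U' V hU' hV hU hwV => ?_)
    obtain ⟨C, hC, hCc, hCU⟩ := exists_mem_nhds_isClosed_subset (hU'.mem_nhds hU)
    obtain ⟨U, hUb, heU, hUC⟩ := (TopologicalSpace.isBasis_countableBasis X).mem_nhds_iff.mp hC
    obtain ⟨N, hN, hzN, hsub⟩ := hgen ⟨U, hUb⟩
      ⟨(y1, en y1), ⟨mem_Q_of_le (le_en y1), subset_closure heU⟩, rfl⟩
    have hopen : IsOpen {z : X × X × X | (z.1, z.2.1) ∈ N ∧ z.2.2 ∈ V} :=
      (hN.preimage (by fun_prop)).inter (hV.preimage (by fun_prop))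
    obtain ⟨_, ⟨k1, k2⟩, h, rfl⟩ := mem_closure_iff.mp hw _ hopen ⟨hzN, hwV⟩
    obtain ⟨⟨y', u⟩, ⟨l1, l2⟩, l3⟩ := hsub ⟨subset_closure ⟨h, rfl⟩, k1⟩
    obtain rfl : y' = h y0 := l3
    exact ⟨u, hCU (closure_minimal hUC hCc l2), h e, k2,
      F.le_end_of_Q l1 (map_ne_bot h hy0) (map_isMax h he) (map_le h hye)⟩
  have hcl : (p1, y1) ∈ closure {z | ∃ g : X ≃ₜ X, g e = en y1 ∧ (g p0, g y0) = z} := by
    refine Metric.mem_closure_iff.mpr fun ε hε => ?_
    obtain ⟨δ, hδ, hm⟩ := F.micro (isMax_en y1) (half_pos hε)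
    have hC : IsClosed ((fun z : X × X × X => (z.1, z.2.1)) ''
        (Tri p0 y0 e ∩ {z | δ ≤ dist z.2.2 (en y1)})) :=
      (((isClosed_closure.inter (isClosed_le continuous_const (by fun_prop))).isCompact).image
        (by fun_prop)).isClosed
    obtain ⟨_, ⟨k1, k2⟩, h, rfl⟩ := mem_closure_iff.mp hz _
      (hC.isOpen_compl.inter (isOpen_ball (x := (p1, y1)) (ε := ε / 2)))
      ⟨by
        rintro ⟨⟨p, y, w⟩, ⟨l1, l2⟩, l3⟩
        obtain ⟨rfl, rfl⟩ := Prod.mk.inj l3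
        simp only [key w l1, mem_ofPred_eq, dist_self] at l2
        exact absurd l2 (not_le.mpr hδ), mem_ball_self (half_pos hε)⟩
    obtain ⟨k, hk, hke⟩ := hm (h e) (map_isMax h he)
      (not_le.mp fun l => k1 ⟨(h p0, h y0, h e), ⟨subset_closure ⟨h, rfl⟩, l⟩, rfl⟩)
    refine ⟨_, ⟨h.trans k.symm, ?_, rfl⟩, ?_⟩
    · rw [Homeomorph.trans_apply, ← hke, k.symm_apply_apply]
    · have a3 : dist (k.symm (h p0), k.symm (h y0)) (h p0, h y0) ≤ ε / 2 := by
        rw [Prod.dist_eq]; exact max_le (hk.symm _) (hk.symm _)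
      have := dist_triangle (k.symm (h p0), k.symm (h y0)) (h p0, h y0) (p1, y1)
      rw [mem_ball] at k2
      rw [dist_comm]
      simp only [Homeomorph.trans_apply]
      linarith
  obtain ⟨k, hk⟩ := F.ends _ _ (isMax_en y1) he
  refine ⟨k p1, k y1, fun h => h1 (k.injective h), map_ne_bot k h2, ?_, fun w hw => ?_⟩
  · refine map_mem_closure (f := Prod.map k k) (k.continuous.prodMap k.continuous) hcl ?_
    rintro _ ⟨g, hg, rfl⟩
    exact ⟨g.trans k, by rw [Homeomorph.trans_apply, hg, hk], rfl⟩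
  · have := map_Tri k.symm hw
    rw [k.symm_apply_apply, k.symm_apply_apply] at this
    rw [← hk, ← key _ this, k.apply_symm_apply]

lemma exists_Ioc_subset {N : Set X} (hN : IsOpen N) {w : X} (hw : w ∈ N) (h0 : w ≠ ⊥) :
    ∃ u, u < w ∧ ∀ x, u < x → x ≤ w → x ∈ N := by
  by_cases h : (Iic w ∩ Nᶜ).Nonempty
  · obtain ⟨m, hm, hmax⟩ := exists_greatest ((isClosed_Iic' w).inter hN.isClosed_compl) h
      inter_subset_left
    refine ⟨m, lt_of_le_of_ne hm.1 (fun e => hm.2 (e ▸ hw)), fun x h1 h2 => ?_⟩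
    by_contra hx
    exact h1.not_ge (hmax x ⟨h2, hx⟩)
  · refine ⟨⊥, bot_lt_iff_ne_bot.mpr h0, fun x _ h2 => ?_⟩
    by_contra hx
    exact h ⟨x, h2, hx⟩

lemma exists_Ico_subset {N : Set X} (hN : IsOpen N) {u v : X} (hu : u ∈ N) (huv : u < v) :
    ∃ m, u < m ∧ m ≤ v ∧ ∀ x, u ≤ x → x < m → x ∈ N := by
  by_cases h : (Icc u v ∩ Nᶜ).Nonempty
  · obtain ⟨m, hm, hmin⟩ := exists_least ((isClosed_Icc' huv.le).inter hN.isClosed_compl) h
      (y := v) (fun x hx => hx.1.2)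
    refine ⟨m, lt_of_le_of_ne hm.1.1 (fun e => hm.2 (e ▸ hu)), hm.1.2, fun x h1 h2 => ?_⟩
    by_contra hx
    exact h2.not_ge (hmin x ⟨⟨h1, h2.le.trans hm.1.2⟩, hx⟩)
  · refine ⟨v, huv, le_rfl, fun x h1 h2 => ?_⟩
    by_contra hx
    exact h ⟨x, ⟨h1, h2.le⟩, hx⟩

lemma exists_max_lt {u v e : X} (hu : u < e) (hv : v < e) : ∃ m, u ≤ m ∧ v ≤ m ∧ m < e := by
  rcases total_below hu.le hv.le with h | h
  · exact ⟨v, h, le_rfl, hv⟩
  · exact ⟨u, le_rfl, h, hu⟩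

/-- An orbit that is dense in every leg. -/
def LegDense (x : X) : Prop := ∀ u v, u < v → ∃ y ∈ orb x, u < y ∧ y < v

/-- Consecutive points of an orbit. -/
def Gap (b c d : X) : Prop := c ∈ orb b ∧ d ∈ orb b ∧ c < d ∧ ∀ y ∈ orb b, c < y → ¬ y < d

lemma Gap.map {c d : X} (H : Gap b c d) (h : X ≃ₜ X) : Gap b (h c) (h d) := by
  refine ⟨map_mem_orb H.1 h, map_mem_orb H.2.1 h, (map_lt_iff h).mpr H.2.2.1,
    fun y hy h1 h2 => H.2.2.2 (h.symm y) (map_mem_orb hy _) ?_ ?_⟩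
  · rw [← map_lt_iff h]; simpa using h1
  · rw [← map_lt_iff h]; simpa using h2

lemma Gap.succ_unique {c d d' : X} (hb : b ≠ ⊥) (H : Gap b c d) (H' : Gap b c d') : d = d' := by
  by_contra hne
  rcases total_above (orb_ne_bot hb H.1) H.2.2.1.le H'.2.2.1.le with h | h
  · exact H'.2.2.2 d H.2.1 H.2.2.1 (lt_of_le_of_ne h hne)
  · exact H.2.2.2 d' H'.2.1 H'.2.2.1 (lt_of_le_of_ne h (Ne.symm hne))

lemma Gap.left_unique {c d c' d' x : X} (H : Gap b c d) (H' : Gap b c' d')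
    (h1 : c < x) (h2 : x < d) (h3 : c' < x) (h4 : x < d') : c = c' := by
  by_contra hne
  rcases total_below h1.le h3.le with h | h
  · exact H.2.2.2 c' H'.1 (lt_of_le_of_ne h hne) (h3.trans h2)
  · exact H'.2.2.2 c H.1 (lt_of_le_of_ne h (Ne.symm hne)) (h1.trans h4)

lemma Four.closure_orb (F : Four a b) {u v : X} (huv : u < v)
    (hno : ∀ y ∈ orb b, u < y → ¬ y < v) {e x : X} (he : IsMax e)
    (hx : x ∈ closure (orb b ∩ Iic e)) (h0 : x ≠ ⊥) (h1 : x ≠ e) : x ∈ orb b := by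
  have hxe : x ≤ e := closure_minimal inter_subset_right (isClosed_Iic' e) hx
  refine (F.cover x h0 (not_isMax_of_lt (lt_of_le_of_ne hxe h1))).resolve_left fun hxa => ?_
  obtain ⟨a0, k1, k2⟩ := exists_between' huv
  have ha0 := (F.cover a0 (ne_bot_of_gt k1) (not_isMax_of_lt k2)).resolve_right
    fun h => hno a0 h k1 k2
  obtain ⟨g, rfl⟩ := orb_trans (orb_symm ha0) hxa
  have l1 : g a0 < g v := (map_lt_iff g).mpr k2
  have l2 : g v ≤ e := en_eq h0 he hxe ▸ le_en_of_le h0 l1.le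
  have : closure (orb b ∩ Iic e) ⊆ Iic (g u) ∪ Icc (g v) e := by
    refine closure_minimal ?_ ((isClosed_Iic' _).union (isClosed_Icc' l2))
    rintro y ⟨hy, hye⟩
    by_contra hcon
    obtain ⟨n1, n2⟩ := not_or.mp hcon
    refine hno (g.symm y) (map_mem_orb hy _) ?_ ?_
    · rw [← map_lt_iff g, g.apply_symm_apply]
      exact lt_of_not_le_below hye (((map_lt_iff g).mpr huv).le.trans l2) n1
    · rw [← map_lt_iff g, g.apply_symm_apply]
      exact lt_of_not_le_below l2 hye fun h => n2 ⟨h, hye⟩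
  rcases this hx with h | h
  · exact ((map_lt_iff g).mpr k1).not_ge h
  · exact l1.not_ge h.1

lemma Four.exists_gap (F : Four a b) (h : ¬ LegDense b) : ∃ c d, Gap b c d := by
  unfold LegDense at h
  push Not at h
  obtain ⟨u, v, huv, hno⟩ := h
  have hu : u ≠ ⊥ := by
    rintro rfl
    obtain ⟨y, hy, h⟩ := F.exists_orb_lt F.b_ne F.b_nmax huv.ne'
    exact hno y hy (bot_lt_iff_ne_bot.mpr (orb_ne_bot F.b_ne hy)) h
  have he := isMax_en v
  have hv : v < en v := by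
    refine lt_of_le_of_ne (le_en v) fun e => ?_
    obtain ⟨y, hy, h1, h2⟩ := F.exists_orb_gt he F.b_ne F.b_nmax (huv.trans_le (le_en v))
    exact hno y hy h1 (e ▸ h2)
  obtain ⟨y0, hy0, l0⟩ := F.exists_orb_lt F.b_ne F.b_nmax hu
  obtain ⟨y1, hy1, l1, l2⟩ := F.exists_orb_gt he F.b_ne F.b_nmax hv
  obtain ⟨c, hc, hmax⟩ := exists_greatest (S := closure (orb b ∩ Iic (en v)) ∩ Iic u)
    (isClosed_closure.inter (isClosed_Iic' u))
    ⟨y0, subset_closure ⟨hy0, (l0.trans (huv.trans hv)).le⟩, l0.le⟩ inter_subset_right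
  obtain ⟨d, hd, hmin⟩ := exists_least (S := closure (orb b ∩ Iic (en v)) ∩ Icc v (en v))
    (isClosed_closure.inter (isClosed_Icc' hv.le))
    ⟨y1, subset_closure ⟨hy1, l2.le⟩, l1.le, l2.le⟩ (y := en v) (fun x hx => hx.2.2)
  refine ⟨c, d, F.closure_orb huv hno he hc.1 ?_ (hc.2.trans_lt (huv.trans hv)).ne,
    F.closure_orb huv hno he hd.1 (ne_bot_of_gt (huv.trans_le hd.2.1)) ?_,
    hc.2.trans_lt (huv.trans_le hd.2.1), fun y hy h1 h2 => ?_⟩
  · exact ne_bot_of_le_ne_bot (orb_ne_bot F.b_ne hy0)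
      (hmax y0 ⟨subset_closure ⟨hy0, (l0.trans (huv.trans hv)).le⟩, l0.le⟩)
  · exact ((hmin y1 ⟨subset_closure ⟨hy1, l2.le⟩, l1.le, l2.le⟩).trans_lt l2).ne
  · have hye : y ≤ en v := h2.le.trans hd.2.2
    refine hno y hy (lt_of_not_le_below hye (huv.trans hv).le fun h => ?_)
      (lt_of_not_le_below hv.le hye fun h => ?_)
    · exact h1.not_ge (hmax y ⟨subset_closure ⟨hy, hye⟩, h⟩)
    · exact h2.not_ge (hmin y ⟨subset_closure ⟨hy, hye⟩, h, hye⟩)

lemma Gap.exists_succ {c d x : X} (H : Gap b c d) (hx : x ∈ orb b) : ∃ y, Gap b x y := by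
  obtain ⟨h, rfl⟩ := orb_trans (orb_symm H.1) hx
  exact ⟨_, H.map h⟩

lemma Gap.exists_pred {c d x : X} (H : Gap b c d) (hx : x ∈ orb b) : ∃ y, Gap b y x := by
  obtain ⟨h, rfl⟩ := orb_trans (orb_symm H.2.1) hx
  exact ⟨_, H.map h⟩

lemma Four.fix_above (F : Four a b) {c0 d0 : X} (H : Gap b c0 d0) {g : X ≃ₜ X} {c c' : X}
    (hc : c ∈ orb b) (hg : g c = c) (hc' : c' ∈ orb b) (hle : c ≤ c') : g c' = c' := by
  by_contra hne
  have h0 := orb_ne_bot F.b_ne hc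
  let S : Set X := {x | x ∈ orb b ∧ c ≤ x ∧ g x ≠ x}
  have hS : S ⊆ orb b ∩ Iic (en c) := fun x hx => ⟨hx.1, le_en_of_le h0 hx.2.1⟩
  have hS' : closure S ⊆ Icc c (en c) :=
    closure_minimal (fun x hx => ⟨hx.2.1, (hS hx).2⟩) (isClosed_Icc' (le_en c))
  obtain ⟨m, hm, hmin⟩ := exists_least (S := closure S) isClosed_closure
    ⟨c', subset_closure ⟨hc', hle, hne⟩⟩ (y := en c) (fun x hx => (hS' hx).2)
  have hmb : m ∈ orb b := F.closure_orb H.2.2.1 H.2.2.2 (isMax_en c) (closure_mono hS hm)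
    (ne_bot_of_le_ne_bot h0 (hS' hm).1) (fun e => orb_not_isMax F.b_nmax hc' fun v hv => by
      have h1 : en c ≤ c' := e ▸ hmin c' (subset_closure ⟨hc', hle, hne⟩)
      exact (isMax_en c (h1.trans hv)).trans h1)
  obtain ⟨m1, H1⟩ := H.exists_succ hmb
  have hm1 : m1 ≤ en c := le_en_of_le h0 ((hS' hm).1.trans H1.2.2.1.le)
  have hmS : m ∈ S := by
    by_contra hmS
    have : closure S ⊆ Icc m1 (en c) := by
      refine closure_minimal (fun x hx => ⟨?_, (hS hx).2⟩) (isClosed_Icc' hm1)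
      by_contra h
      exact H1.2.2.2 x hx.1 (lt_of_le_of_ne (hmin x (subset_closure hx)) (fun e => hmS (e ▸ hx)))
        (lt_of_not_le_below hm1 (hS hx).2 h)
    exact H1.2.2.1.not_ge (this hm).1
  obtain ⟨m0, H0⟩ := H.exists_pred hmb
  have hcm : c < m := lt_of_le_of_ne hmS.2.1 (fun e => hmS.2.2 (e ▸ hg))
  have hcm0 : c ≤ m0 := by
    by_contra h
    exact H0.2.2.2 c hc (lt_of_not_le_below hcm.le H0.2.2.1.le h) hcm
  have hfix : g m0 = m0 := by
    by_contra h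
    exact H0.2.2.1.not_ge (hmin m0 (subset_closure ⟨H0.1, hcm0, h⟩))
  have := H0.map g
  rw [hfix] at this
  exact hmS.2.2 (this.succ_unique F.b_ne H0)

/-- The closure of the pairs formed by a point of an orbit and the endpoint above it. -/
def Duo (b : X) : Set (X × X) := closure {z | ∃ y ∈ orb b, (y, en y) = z}

lemma Four.not_duo (F : Four a b) {c d e : X} (H : Gap b c d) (he : IsMax e) (hd : d ≤ e) :
    ∃ v, v < e ∧ ∀ x w, c < x → x < d → v ≤ w → w ≤ e → (x, w) ∉ Duo b := by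
  obtain ⟨a', k1, k2⟩ := exists_between' H.2.2.1
  have inA : ∀ x, c < x → x < d → x ∈ orb a := fun x h1 h2 =>
    (F.cover x (ne_bot_of_gt h1) (not_isMax_of_lt h2)).resolve_right fun h => H.2.2.2 x h h1 h2
  have hnot : a' ∉ closure (orb b ∩ Iic e) := fun h => H.2.2.2 a'
    (F.closure_orb H.2.2.1 H.2.2.2 he h (ne_bot_of_gt k1) (k2.trans_le hd).ne) k1 k2
  obtain ⟨r, hr, hball⟩ := Metric.isOpen_iff.mp isClosed_closure.isOpen_compl a' hnot
  obtain ⟨δ, hδ, hm⟩ := F.micro he (half_pos hr)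
  have hfar : ∀ w, (a', w) ∈ Duo b → δ ≤ dist w e := by
    intro w hw
    by_contra hlt
    obtain ⟨_, ⟨l1, l2⟩, y, l3, rfl⟩ := mem_closure_iff.mp hw (ball a' (r / 2) ×ˢ ball e δ)
      (isOpen_ball.prod isOpen_ball) ⟨mem_ball_self (half_pos hr), not_le.mp hlt⟩
    obtain ⟨k, hk, hke⟩ := hm _ (isMax_en y) l2
    refine hball (show k.symm y ∈ ball a' r from ?_) (subset_closure ⟨map_mem_orb l3 _, ?_⟩)
    · have := dist_triangle (k.symm y) y a'
      have h1 := hk.symm y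
      rw [mem_ball] at l1 ⊢
      simp only at l1
      linarith
    · rw [mem_Iic, ← map_le_iff k, k.apply_symm_apply, hke]; exact le_en y
  obtain ⟨u, hu, hsub⟩ := exists_Ioc_subset isOpen_ball (mem_ball_self (x := e) hδ) (F.max_ne he)
  obtain ⟨m, m1, m2, m3⟩ := exists_max_lt hu (H.2.2.1.trans_le hd)
  obtain ⟨v, hv, v1, v2⟩ := F.exists_orb_gt he F.b_ne F.b_nmax m3
  refine ⟨v, v2, fun x w h1 h2 h3 h4 hx => ?_⟩
  obtain ⟨g, hg⟩ := orb_trans (orb_symm (inA x h1 h2)) (inA a' k1 k2)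
  have hge : g e = e := fix_end (ne_bot_of_gt h1) he (h2.le.trans hd) (hg ▸ k2.le.trans hd)
  have hgc : g c = c := (H.map g).left_unique H (x := a')
    (hg ▸ (map_lt_iff g).mpr h1) (hg ▸ (map_lt_iff g).mpr h2) k1 k2
  have hgv : g v = v := F.fix_above H H.1 hgc hv (m2.trans v1.le)
  have : (a', g w) ∈ Duo b := by
    rw [← hg]
    refine map_mem_closure (f := Prod.map g g) (g.continuous.prodMap g.continuous) hx ?_
    rintro _ ⟨y, l1, rfl⟩
    exact ⟨g y, map_mem_orb l1 g, by rw [map_en g (orb_ne_bot F.b_ne l1)]; rfl⟩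
  refine absurd (hfar _ this) (not_le.mpr (hsub _ ?_ ?_))
  · exact (m1.trans_lt v1).trans_le (hgv ▸ map_le g h3)
  · exact hge ▸ map_le g h4

lemma Duo_subset_Q : Duo b ⊆ Q X := closure_mono (by rintro _ ⟨y, -, rfl⟩; exact le_en y)

lemma Four.eq_of_duo (F : Four a b) {c0 d0 : X} (H : Gap b c0 d0) {c e : X} (hc : c ∈ orb b)
    (he : IsMax e) (hce : c ≤ e) : ∃ v ε, v < e ∧ 0 < ε ∧
      ∀ x w, dist x c ≤ ε → v ≤ w → w ≤ e → (x, w) ∈ Duo b → x = c := by
  obtain ⟨c1, H1⟩ := H.exists_succ hc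
  obtain ⟨c2, H2⟩ := H.exists_pred hc
  have h0 := orb_ne_bot F.b_ne hc
  have h1 : c1 ≤ e := en_eq h0 he hce ▸ le_en_of_le h0 H1.2.2.1.le
  obtain ⟨v1, l1, k1⟩ := F.not_duo H1 he h1
  obtain ⟨v2, l2, k2⟩ := F.not_duo H2 he hce
  obtain ⟨m, m1, m2, m3⟩ := exists_max_lt l1 l2
  obtain ⟨v, v1', v2'⟩ := exists_between' m3
  obtain ⟨r, hr, hball⟩ := Metric.isOpen_iff.mp
    ((isClosed_Iic' c2).union (isClosed_Icc' h1)).isOpen_compl c
    (fun h => h.elim H2.2.2.1.not_ge fun h => H1.2.2.1.not_ge h.1)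
  refine ⟨v, r / 2, v2', half_pos hr, fun x w hx h3 h4 hxw => ?_⟩
  obtain ⟨n1, n2⟩ := not_or.mp (hball (show x ∈ ball c r from hx.trans_lt (half_lt_self hr)))
  have hx0 : x ≠ ⊥ := by rintro rfl; exact n1 (show ⊥ ≤ c2 from bot_le)
  have hw0 : w ≠ ⊥ := ne_bot_of_gt (v1'.trans_le h3)
  have hxe : x ≤ e := by
    rcases F.total_of_Q (Duo_subset_Q hxw) hx0 with h | h
    · exact h.trans h4
    · exact en_eq hw0 he h4 ▸ le_en_of_le hw0 h
  by_contra hne
  rcases total_below hxe hce with h | h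
  · exact k2 x w (lt_of_not_le_below hxe (H2.2.2.1.le.trans hce) n1) (lt_of_le_of_ne h hne)
      (m2.trans (v1'.le.trans h3)) h4 hxw
  · exact k1 x w (lt_of_le_of_ne h (Ne.symm hne)) (lt_of_not_le_below h1 hxe fun h => n2 ⟨h, hxe⟩)
      (m1.trans (v1'.le.trans h3)) h4 hxw

lemma closure_isMax_map (h : X ≃ₜ X) {x : X} (hx : x ∈ closure {e : X | IsMax e}) :
    h x ∈ closure {e : X | IsMax e} :=
  map_mem_closure h.continuous hx fun _ hy => map_isMax h hy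

theorem Four.legDense (F : Four a b) : LegDense b := by
  by_contra hnd
  obtain ⟨c, d, H⟩ := F.exists_gap hnd
  have hc0 := orb_ne_bot F.b_ne H.1
  have hd0 := orb_ne_bot F.b_ne H.2.1
  have he := isMax_en d
  set e := en d with hedef
  have hde : d ≤ e := le_en d
  have hce : c ≤ e := H.2.2.1.le.trans hde
  have hacc : ∀ w ∈ orb b, w ∈ closure {e : X | IsMax e} := by
    obtain ⟨x, hx, h1, h2⟩ := F.exists_acc
    have key : ∀ y, y ∈ closure {e : X | IsMax e} → ∀ w ∈ orb y, w ∈ closure {e : X | IsMax e} := by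
      rintro y hy _ ⟨h, rfl⟩; exact closure_isMax_map h hy
    rcases F.cover x h1 h2 with h | h
    · have : d ∈ closure {e : X | IsMax e} := by
        refine isClosed_closure.closure_subset (mem_closure_iff.mpr fun N hN hdN => ?_)
        obtain ⟨u, hu, hsub⟩ := exists_Ioc_subset hN hdN hd0
        obtain ⟨m, m1, m2, m3⟩ := exists_max_lt hu H.2.2.1
        obtain ⟨y, y1, y2⟩ := exists_between' m3
        refine ⟨y, hsub y (m1.trans_lt y1) y2.le, key x hx y (orb_trans (orb_symm h) ?_)⟩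
        exact (F.cover y (ne_bot_of_gt y1) (not_isMax_of_lt y2)).resolve_right
          fun h => H.2.2.2 y h (m2.trans_lt y1) y2
      exact fun w hw => key d this w (orb_trans (orb_symm H.2.1) hw)
    · exact fun w hw => key x hx w (orb_trans (orb_symm h) hw)
  obtain ⟨p, y, hne, hy0, hcl, huniq⟩ := F.generic he hd0 hde H.2.2.1.ne
  have hsub : ∀ g : X ≃ₜ X, g e = e → ∀ x, x ≤ e → g x ≤ e := fun g hg x hx => hg ▸ map_le g hx
  have hpy : p ≤ y ∧ y ≤ e := closure_minimal (t := {z : X × X | z.1 ≤ z.2 ∧ z.2 ≤ e})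
    (by rintro _ ⟨g, hg, rfl⟩; exact ⟨map_le g H.2.2.1.le, hsub g hg d hde⟩)
    (isClosed_le_below e) hcl
  have hlt : p < y := lt_of_le_of_ne hpy.1 hne
  have hno : ∀ x ∈ orb b, p < x → ¬ x < y := by
    intro x hx h1 h2
    have hxe := h2.le.trans hpy.2
    obtain ⟨_, ⟨k1, k2⟩, g, hg, rfl⟩ := mem_closure_iff.mp hcl ((Icc x e)ᶜ ×ˢ (Iic x)ᶜ)
      ((isClosed_Icc' hxe).isOpen_compl.prod (isClosed_Iic' x).isOpen_compl)
      ⟨fun h => h1.not_ge h.1, h2.not_ge⟩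
    exact (H.map g).2.2.2 x hx
      (lt_of_not_le_below hxe (hsub g hg c hce) fun h => k1 ⟨h, hsub g hg c hce⟩)
      (lt_of_not_le_below (hsub g hg d hde) hxe k2)
  have hp0 : p ≠ ⊥ := by
    rintro rfl
    obtain ⟨x, hx, h⟩ := F.exists_orb_lt F.b_ne F.b_nmax hy0
    exact hno x hx (bot_lt_iff_ne_bot.mpr (orb_ne_bot F.b_ne hx)) h
  have hye : y ≠ e := by
    intro e'
    obtain ⟨x, hx, h1, h2⟩ := F.exists_orb_gt he F.b_ne F.b_nmax (hlt.trans_le hpy.2)
    exact hno x hx h1 (e' ▸ h2)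
  have hpb : p ∈ orb b := F.closure_orb H.2.2.1 H.2.2.2 he
    (map_mem_closure continuous_fst hcl (by
      rintro _ ⟨g, hg, rfl⟩; exact ⟨map_mem_orb H.1 g, hsub g hg c hce⟩))
    hp0 (hlt.trans_le hpy.2).ne
  have hyb : y ∈ orb b := F.closure_orb H.2.2.1 H.2.2.2 he
    (map_mem_closure continuous_snd hcl (by
      rintro _ ⟨g, hg, rfl⟩; exact ⟨map_mem_orb H.2.1 g, hsub g hg d hde⟩))
    hy0 hye
  obtain ⟨g, rfl⟩ := orb_trans (orb_symm H.1) hpb
  obtain rfl : g d = y := (H.map g).succ_unique F.b_ne ⟨hpb, hyb, hlt, hno⟩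
  have hg : g e = e := fix_end hd0 he hde hpy.2
  obtain ⟨v1, ε1, a1, a2, a3⟩ := F.eq_of_duo H H.1 he hce
  obtain ⟨v2, ε2, b1, b2, b3⟩ := F.eq_of_duo H H.2.1 he hde
  obtain ⟨δ, hδ, hm⟩ := F.micro he (lt_min a2 b2)
  obtain ⟨u, hu, hball⟩ := exists_Ioc_subset isOpen_ball (mem_ball_self (x := e) hδ) (F.max_ne he)
  obtain ⟨m, m1, m2, m3⟩ := exists_max_lt a1 b1
  obtain ⟨m', m4, m5, m6⟩ := exists_max_lt m3 hu
  obtain ⟨w, hw, w1, w2⟩ := F.exists_orb_gt he F.b_ne F.b_nmax m6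
  have hC : IsClosed ((fun z : X × X × X => z.2.2) '' (Tri c d e ∩
      ({z | dist z.1 c ≤ ε1} ∩ {z | dist z.2.1 d ≤ ε2}))) := by
    refine (IsCompact.image (IsClosed.isCompact (isClosed_closure.inter (IsClosed.inter
      (isClosed_le ?_ continuous_const) (isClosed_le ?_ continuous_const)))) ?_).isClosed
    all_goals fun_prop
  obtain ⟨⟨x1, x2, _⟩, ⟨k1, k2, k3⟩, rfl⟩ := hC.closure_subset (a := w) (by
    refine mem_closure_iff.mpr fun N hN hwN => ?_
    obtain ⟨e', ⟨l1, l2⟩, l3⟩ := mem_closure_iff.mp (hacc w hw) _ (hN.inter isOpen_ball)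
      ⟨hwN, hball w (m5.trans_lt w1) w2.le⟩
    obtain ⟨k, hk, rfl⟩ := hm e' l3 l2
    exact ⟨_, l1, (k c, k d, k e), ⟨subset_closure ⟨k, rfl⟩, (hk c).trans (min_le_left _ _),
      (hk d).trans (min_le_right _ _)⟩, rfl⟩)
  simp only [mem_ofPred_eq] at k2 k3 w1 w2
  obtain rfl := a3 x1 _ k2 (m1.trans (m4.trans w1.le)) w2.le
    (map_mem_closure (f := fun z : X × X × X => (z.1, z.2.2)) (by fun_prop) k1 (by
      rintro _ ⟨k, rfl⟩
      exact ⟨k c, map_mem_orb H.1 k, by rw [map_en k hc0, en_eq hc0 he hce]⟩))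
  obtain rfl := b3 x2 _ k3 (m2.trans (m4.trans w1.le)) w2.le
    (map_mem_closure (f := fun z : X × X × X => (z.2.1, z.2.2)) (by fun_prop) k1 (by
      rintro _ ⟨k, rfl⟩
      exact ⟨k d, map_mem_orb H.2.1 k, by rw [map_en k hd0]⟩))
  have := huniq _ (map_Tri g k1)
  rw [← hg] at this
  exact w2.ne (g.injective this)

end Pool.Agent.P.MP_64e39e_gt
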