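import Pool.Agent.P.MP_64e39e_gt.Seg
import Pool.Agent.P.MP_64e39e_gt.Basic

/-!
Fans: the order from the top, endpoints, and the closure of the order.
-/

namespace Pool.Agent.P.MP_64e39e_gt
open Set Metric Topology Filter

/-- A dendroid with a point fixed by all homeomorphisms that is the only branching point. -/
class Fan (X : Type) [MetricSpace X] [CompactSpace X] extends Dendroid X where
  top : X
  fix : ∀ h : X ≃ₜ X, h top = top
  comp : ∀ m y y' : X, m ≠ top → m ∈ seg top y → m ∈ seg top y' →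
    y ∈ seg top y' ∨ y' ∈ seg top y

variable {X : Type} [MetricSpace X] [CompactSpace X] [Fan X]

instance (priority := low) fanOrder : PartialOrder X where
  le u v := u ∈ seg Fan.top v
  le_refl _ := right_mem_seg _ _
  le_trans _ _ _ := seg_trans
  le_antisymm _ _ := seg_antisymm

instance (priority := low) fanBot : OrderBot X where
  bot := Fan.top
  bot_le _ := left_mem_seg _ _

lemma le_def {u v : X} : u ≤ v ↔ u ∈ seg ⊥ v := Iff.rfl

lemma map_bot' (h : X ≃ₜ X) : h ⊥ = ⊥ := Fan.fix h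

lemma map_le (h : X ≃ₜ X) {u v : X} (huv : u ≤ v) : h u ≤ h v := by
  have := map_mem_seg h (le_def.mp huv)
  rwa [map_bot'] at this

lemma map_le_iff (h : X ≃ₜ X) {u v : X} : h u ≤ h v ↔ u ≤ v :=
  ⟨fun H => by simpa using map_le h.symm H, map_le h⟩

lemma map_lt_iff (h : X ≃ₜ X) {u v : X} : h u < h v ↔ u < v := by
  simp only [lt_iff_le_not_ge, map_le_iff]

lemma map_ne_bot (h : X ≃ₜ X) {u : X} (hu : u ≠ ⊥) : h u ≠ ⊥ := by
  intro e
  exact hu (h.injective (e.trans (map_bot' h).symm))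

lemma map_isMax (h : X ≃ₜ X) {e : X} (he : IsMax e) : IsMax (h e) := by
  intro v hv
  have : e ≤ h.symm v := by rw [← map_le_iff h]; simpa using hv
  simpa using map_le h (he this)

lemma total_below {y u v : X} (hu : u ≤ y) (hv : v ≤ y) : u ≤ v ∨ v ≤ u := seg_total hu hv

lemma lt_of_not_le_below {y u v : X} (hu : u ≤ y) (hv : v ≤ y) (h : ¬ u ≤ v) : v < u :=
  lt_of_le_not_ge ((total_below hu hv).resolve_left h) h

lemma total_above {m y y' : X} (hm : m ≠ ⊥) (h1 : m ≤ y) (h2 : m ≤ y') : y ≤ y' ∨ y' ≤ y :=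
  Fan.comp m y y' hm h1 h2

lemma Iic_eq_seg (y : X) : Iic y = seg ⊥ y := rfl

lemma isClosed_Iic' (y : X) : IsClosed (Iic y) := isClosed_seg _ _

lemma Icc_eq_seg {u v : X} (h : u ≤ v) : Icc u v = seg u v := by
  ext w; exact (mem_seg_iff h).symm

lemma isClosed_Icc' {u v : X} (h : u ≤ v) : IsClosed (Icc u v) := by
  rw [Icc_eq_seg h]; exact isClosed_seg _ _

lemma isPreconnected_Icc' {u v : X} (h : u ≤ v) : IsPreconnected (Icc u v) := by
  rw [Icc_eq_seg h]; exact isPreconnected_seg _ _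

lemma exists_between' {u v : X} (h : u < v) : ∃ m, u < m ∧ m < v := by
  obtain ⟨m, hm, h1, h2⟩ := exists_between_seg h.ne
  rw [← Icc_eq_seg h.le] at hm
  exact ⟨m, lt_of_le_of_ne hm.1 h1.symm, lt_of_le_of_ne hm.2 h2⟩

/-- The points above a set. -/
def up (W : Set X) : Set X := {w | ∃ u ∈ W, u ≤ w}

lemma isOpen_up' {W : Set X} (hW : IsOpen W) : IsOpen (up W) := by
  have := isOpen_up (⊥ : X) hW
  convert this using 1
  ext w
  exact ⟨fun ⟨u, h1, h2⟩ => ⟨u, h2, h1⟩, fun ⟨u, h1, h2⟩ => ⟨u, h2, h1⟩⟩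

lemma isClosed_le_below (y : X) : IsClosed {p : X × X | p.1 ≤ p.2 ∧ p.2 ≤ y} :=
  isClosed_order_seg ⊥ y

lemma ht_strictMono : StrictMono (ht (⊥ : X)) := fun _ _ h => ht_lt h.le h.ne

lemma exists_greatest {S : Set X} {y : X} (hS : IsClosed S) (hne : S.Nonempty)
    (hy : S ⊆ Iic y) : ∃ m ∈ S, ∀ s ∈ S, s ≤ m := by
  obtain ⟨m, hm, hmax⟩ := hS.isCompact.exists_isMaxOn hne
    ((continuousOn_ht (isClosed_order_seg ⊥ y)).mono hy)
  refine ⟨m, hm, fun s hs => ?_⟩
  by_contra h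
  exact absurd (hmax hs) (not_le.mpr (ht_strictMono (lt_of_not_le_below (hy hs) (hy hm) h)))

lemma exists_least {S : Set X} {y : X} (hS : IsClosed S) (hne : S.Nonempty)
    (hy : S ⊆ Iic y) : ∃ m ∈ S, ∀ s ∈ S, m ≤ s := by
  obtain ⟨m, hm, hmin⟩ := hS.isCompact.exists_isMinOn hne
    ((continuousOn_ht (isClosed_order_seg ⊥ y)).mono hy)
  refine ⟨m, hm, fun s hs => ?_⟩
  by_contra h
  exact absurd (hmin hs) (not_le.mpr (ht_strictMono (lt_of_not_le_below (hy hm) (hy hs) h)))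

lemma exists_arc' {y : X} (hy : y ≠ ⊥) :
    ∃ γ : unitInterval → X, Continuous γ ∧ γ 0 = ⊥ ∧ γ 1 = y ∧ range γ = Iic y ∧
      ∀ s s', γ s ≤ γ s' ↔ s ≤ s' := exists_arc hy.symm

lemma bot_mem_seg {y p : X} (h1 : ¬ y ≤ p) (h2 : ¬ p ≤ y) : (⊥ : X) ∈ seg y p := by
  have hsub : seg y p ⊆ Iic y ∪ Iic p := by
    have := seg_subset_union y p ⊥
    rwa [seg_comm y ⊥] at this
  obtain ⟨m, hm, hmy, hmp⟩ := (isPreconnected_closed_iff.mp (isPreconnected_seg y p)) _ _
    (isClosed_Iic' y) (isClosed_Iic' p) hsub ⟨y, left_mem_seg _ _, le_refl y⟩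
    ⟨p, right_mem_seg _ _, le_refl p⟩
  by_cases h : m = ⊥
  · exact h ▸ hm
  · exact absurd (total_above h hmy hmp) (by tauto)

lemma isPreconnected_Ici' (y : X) : IsPreconnected (Ici y) :=
  isPreconnected_of_forall y fun w hw =>
    ⟨Icc y w, Icc_subset_Ici_self, ⟨le_refl y, hw⟩, ⟨hw, le_refl w⟩, isPreconnected_Icc' hw⟩

/-- Every point lies below an endpoint. -/
theorem exists_isMax_ge (x : X) : ∃ e, IsMax e ∧ x ≤ e := by
  have key : ∀ x : X, x ≠ ⊥ → ∃ e, IsMax e ∧ x ≤ e := by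
    intro x hx
    by_contra hcon
    push Not at hcon
    have : Nonempty (Ici x) := ⟨⟨x, le_refl x⟩⟩
    obtain ⟨z, hz⟩ := IsCompact.nonempty_iInter_of_directed_nonempty_isCompact_isClosed
      (fun y : Ici x => closure (Ici y.1))
      (by
        rintro ⟨y, hy⟩ ⟨y', hy'⟩
        rcases total_above hx hy hy' with h | h
        · exact ⟨⟨y', hy'⟩, closure_mono (Ici_subset_Ici.mpr h), Subset.rfl⟩
        · exact ⟨⟨y, hy⟩, Subset.rfl, closure_mono (Ici_subset_Ici.mpr h)⟩)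
      (fun y => ⟨y, subset_closure (le_refl y.1)⟩) (fun _ => isClosed_closure.isCompact)
      (fun _ => isClosed_closure)
    have hseg : ∀ y u : X, u ∈ closure (Ici y) → seg y u ⊆ closure (Ici y) := fun y u hu =>
      seg_subset isClosed_closure (isPreconnected_Ici' y).closure (subset_closure (le_refl y)) hu
    obtain ⟨y0, hxy0, hy0⟩ : ∃ y0, x ≤ y0 ∧ ∀ y, x ≤ y → y0 ∈ closure (Ici y) := by
      by_cases h : x ≤ z
      · exact ⟨z, h, fun y hy => mem_iInter.mp hz ⟨y, hy⟩⟩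
      · refine ⟨x, le_refl x, fun y hy => hseg y z (mem_iInter.mp hz ⟨y, hy⟩) ?_⟩
        rw [seg_comm]
        exact (seg_subset_union ⊥ y z hy).resolve_left h
    have hall : ∀ y, x ≤ y → closure (Ici y0) ⊆ closure (Ici y) := by
      intro y hy
      refine closure_minimal (fun w hw => ?_) isClosed_closure
      rcases total_above hx hy (hxy0.trans hw) with h | h
      · exact subset_closure h
      · refine hseg y y0 (hy0 y hy) ?_
        rw [seg_comm, ← Icc_eq_seg (le_trans hw h)]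
        exact ⟨hw, h⟩
    have hc : Countable {U // U ∈ TopologicalSpace.countableBasis X ∧ (U ∩ Ici y0).Nonempty} :=
      ((TopologicalSpace.countable_countableBasis X).mono (fun _ h => h.1)).to_subtype
    obtain ⟨z', -, -, hz'⟩ := baire_closed (K := closure (Ici y0)) isClosed_closure isOpen_univ
      ⟨y0, subset_closure (le_refl y0), trivial⟩
      (fun U : {U // U ∈ TopologicalSpace.countableBasis X ∧ (U ∩ Ici y0).Nonempty} => up U.1)
      (fun U => isOpen_up' (TopologicalSpace.isOpen_of_mem_countableBasis U.2.1))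
      (by
        rintro ⟨U, -, u, huU, hu⟩ N hN - ⟨w, hw, hwN⟩
        obtain ⟨v, hvN, hv⟩ := mem_closure_iff.mp (hall u (hxy0.trans hu) hw) N hN hwN
        exact ⟨v, ⟨subset_closure (show y0 ≤ v from le_trans hu hv), hvN⟩, u, huU, hv⟩)
    obtain ⟨v, hv, hvz⟩ : ∃ v, y0 ≤ v ∧ ¬ v ≤ z' := by
      by_cases h : y0 ≤ z'
      · have : ¬ IsMax z' := fun hm => hcon z' hm (hxy0.trans h)
        obtain ⟨v, hv⟩ := not_isMax_iff.mp this
        exact ⟨v, h.trans hv.le, hv.not_ge⟩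
      · exact ⟨y0, le_refl _, h⟩
    obtain ⟨U, hU, hvU, hUs⟩ :=
      (TopologicalSpace.isBasis_countableBasis X).exists_subset_of_mem_open
        (show v ∈ (Iic z')ᶜ from hvz) (isClosed_Iic' z').isOpen_compl
    obtain ⟨u, huU, hu⟩ := hz' ⟨U, hU, v, hvU, hv⟩
    exact hUs huU hu
  by_cases hx : ∃ y : X, y ≠ ⊥
  · by_cases h : x = ⊥
    · obtain ⟨y, hy⟩ := hx
      obtain ⟨e, he, -⟩ := key y hy
      exact ⟨e, he, h ▸ bot_le⟩
    · exact key x h
  · push Not at hx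
    exact ⟨x, fun v _ => by rw [hx v]; exact bot_le, le_refl x⟩

/-- The endpoint of the leg through a point. -/
noncomputable def en (x : X) : X := (exists_isMax_ge x).choose

lemma isMax_en (x : X) : IsMax (en x) := (exists_isMax_ge x).choose_spec.1

lemma le_en (x : X) : x ≤ en x := (exists_isMax_ge x).choose_spec.2

lemma en_eq {x e : X} (hx : x ≠ ⊥) (he : IsMax e) (h : x ≤ e) : en x = e := by
  rcases total_above hx (le_en x) h with h' | h'
  · exact le_antisymm h' (isMax_en x h')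
  · exact le_antisymm (he h') h'

lemma le_en_of_le {x y : X} (hx : x ≠ ⊥) (h : x ≤ y) : y ≤ en x := by
  rw [en_eq hx (isMax_en y) (h.trans (le_en y))]; exact le_en y

lemma map_en (h : X ≃ₜ X) {x : X} (hx : x ≠ ⊥) : en (h x) = h (en x) :=
  en_eq (map_ne_bot h hx) (map_isMax h (isMax_en x)) (map_le h (le_en x))

/-- A homeomorphism sending a point of a leg into the same leg fixes the endpoint. -/
lemma fix_end {h : X ≃ₜ X} {x e : X} (hx : x ≠ ⊥) (he : IsMax e) (h1 : x ≤ e) (h2 : h x ≤ e) :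
    h e = e := by
  have := map_en h hx
  rw [en_eq (map_ne_bot h hx) he h2, en_eq hx he h1] at this
  exact this.symm

/-- The closure of the order relation. -/
def Q (X : Type) [MetricSpace X] [CompactSpace X] [Fan X] : Set (X × X) :=
  closure {p | p.1 ≤ p.2}

lemma isClosed_Q : IsClosed (Q X) := isClosed_closure

lemma mem_Q_of_le {y p : X} (h : y ≤ p) : (y, p) ∈ Q X := subset_closure h

lemma mem_Q_iff {y p : X} : (y, p) ∈ Q X ↔ ∀ U V : Set X, IsOpen U → IsOpen V → y ∈ U → p ∈ V →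
    ∃ u ∈ U, ∃ v ∈ V, u ≤ v := by
  constructor
  · intro h U V hU hV hy hp
    obtain ⟨⟨u, v⟩, ⟨h1, h2⟩, h3⟩ := mem_closure_iff.mp h (U ×ˢ V) (hU.prod hV) ⟨hy, hp⟩
    exact ⟨u, h1, v, h2, h3⟩
  · intro h
    refine mem_closure_iff.mpr fun N hN hm => ?_
    obtain ⟨U, V, hU, hV, hy, hp, hs⟩ := isOpen_prod_iff.mp hN y p hm
    obtain ⟨u, hu, v, hv, huv⟩ := h U V hU hV hy hp
    exact ⟨(u, v), hs ⟨hu, hv⟩, huv⟩

lemma map_Q (h : X ≃ₜ X) {y p : X} (hq : (y, p) ∈ Q X) : (h y, h p) ∈ Q X :=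
  map_mem_closure (f := Prod.map h h) (h.continuous.prodMap h.continuous) hq
    (fun _ hz => map_le h hz)

lemma Q_sub {y p y' p' : X} (hq : (y, p) ∈ Q X) (hp : p' ∈ seg y p) (hy : y' ∈ seg y p') :
    (y', p') ∈ Q X := by
  refine mem_Q_iff.mpr fun U' V' hU' hV' hy' hp' => ?_
  obtain ⟨U, V, hU, hV, hyU, hpV, hs⟩ := isOpen_prod_iff.mp (isOpen_seg_meets hU') y p'
    ⟨y', hy, hy'⟩
  obtain ⟨U1, V1, hU1, hV1, hyU1, hpV1, hs1⟩ := isOpen_prod_iff.mp
    (isOpen_seg_meets (hV.inter hV')) y p ⟨p', hp, hpV, hp'⟩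
  obtain ⟨u, hu, v, hv, huv⟩ := mem_Q_iff.mp hq _ _ (hU.inter hU1) hV1 ⟨hyU, hyU1⟩ hpV1
  obtain ⟨p'', h1, h2, h3⟩ := hs1 (show (u, v) ∈ U1 ×ˢ V1 from ⟨hu.2, hv⟩)
  obtain ⟨y'', k1, k2⟩ := hs (show (u, p'') ∈ U ×ˢ V from ⟨hu.1, h2⟩)
  simp only at h1 k1
  rw [← Icc_eq_seg huv] at h1
  rw [← Icc_eq_seg h1.1] at k1
  exact ⟨y'', k2, p'', h3, k1.2⟩

end Pool.Agent.P.MP_64e39e_gt
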