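import Pool.Agent.P.MP_64e39e_gt.Fan

/-!
Fans with four orbits: cofinality of the two inner orbits, the doubling argument, and
micro-transitivity on the endpoints.
-/

namespace Pool.Agent.P.MP_64e39e_gt
open Set Metric Topology Filter

variable {X : Type} [MetricSpace X] [CompactSpace X] [Fan X]

/-- The orbit structure of a fan with four orbits. -/
structure Four (a b : X) : Prop where
  a_ne : a ≠ ⊥
  a_nmax : ¬ IsMax a
  b_ne : b ≠ ⊥
  b_nmax : ¬ IsMax b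
  not_orb : b ∉ orb a
  cover : ∀ x : X, x ≠ ⊥ → ¬ IsMax x → x ∈ orb a ∨ x ∈ orb b
  ends : ∀ e e' : X, IsMax e → IsMax e' → e' ∈ orb e

variable {a b : X}

lemma Four.symm (F : Four a b) : Four b a :=
  ⟨F.b_ne, F.b_nmax, F.a_ne, F.a_nmax, fun h => F.not_orb (orb_symm h),
    fun x h1 h2 => (F.cover x h1 h2).symm, F.ends⟩

lemma Four.max_ne (F : Four a b) {e : X} (he : IsMax e) : e ≠ ⊥ := by
  rintro rfl
  exact F.a_ne (le_bot_iff.mp (he bot_le))

lemma orb_ne_bot {x y : X} (hx : x ≠ ⊥) (hy : y ∈ orb x) : y ≠ ⊥ := by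
  obtain ⟨h, rfl⟩ := hy
  exact map_ne_bot h hx

lemma orb_not_isMax {x y : X} (hx : ¬ IsMax x) (hy : y ∈ orb x) : ¬ IsMax y := by
  obtain ⟨h, rfl⟩ := hy
  intro hm
  simpa [hx] using map_isMax h.symm hm

lemma Four.exists_le_end (F : Four a b) (x : X) {e : X} (he : IsMax e) :
    ∃ h : X ≃ₜ X, h x ≤ e := by
  obtain ⟨h, hh⟩ := F.ends _ _ (isMax_en x) he
  exact ⟨h, hh ▸ map_le h (le_en x)⟩

lemma Four.no_fix (F : Four a b) {e s : X} (he : IsMax e) (hs : s ≠ ⊥) (hse : s < e) :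
    ∃ h : X ≃ₜ X, h e = e ∧ h s ≠ s := by
  by_contra hcon
  push Not at hcon
  obtain ⟨u, hu0, hus⟩ := exists_between' (bot_lt_iff_ne_bot.mpr hs)
  obtain ⟨v, hsv, hve⟩ := exists_between' hse
  have k1 : ∀ x, x ≤ e → x ∈ orb s → x = s := by
    rintro _ hx ⟨h, rfl⟩
    exact hcon h (fix_end hs he hse.le hx)
  have k2 : v ∉ orb u := by
    rintro ⟨h, rfl⟩
    have := hcon h (fix_end hu0.ne' he (hus.trans hse).le hve.le)
    rw [← this, map_lt_iff] at hsv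
    exact lt_asymm hsv hus
  have n1 : u ∉ orb s := fun h => hus.ne (k1 u (hus.trans hse).le h)
  have n2 : v ∉ orb s := fun h => hsv.ne' (k1 v hve.le h)
  have c1 := F.cover u hu0.ne' (not_isMax_of_lt hus)
  have c2 := F.cover s hs (not_isMax_of_lt hse)
  have c3 := F.cover v (ne_bot_of_gt hsv) (not_isMax_of_lt hve)
  rcases c1 with c1 | c1 <;> rcases c2 with c2 | c2 <;> rcases c3 with c3 | c3
  all_goals first
    | exact n1 (orb_trans (orb_symm c2) c1)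
    | exact n2 (orb_trans (orb_symm c2) c3)
    | exact k2 (orb_trans (orb_symm c1) c3)

lemma Four.ends_mem (F : Four a b) {e : X} (he : IsMax e) {S : Set X} (hS : IsClosed S)
    (hSe : S ⊆ Iic e) (hinv : ∀ h : X ≃ₜ X, h e = e → ∀ s ∈ S, h s ∈ S) {x : X} (hx : x ∈ S)
    (hx0 : x ≠ ⊥) (hxe : x ≠ e) : ⊥ ∈ S ∧ e ∈ S := by
  have hsymm : ∀ h : X ≃ₜ X, h e = e → h.symm e = e := fun h hh => by
    rw [Homeomorph.symm_apply_eq, hh]
  constructor
  · obtain ⟨m, hm, hmin⟩ := exists_least hS ⟨x, hx⟩ hSe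
    by_contra h0
    obtain ⟨h, hh, hne⟩ := F.no_fix he (s := m) (fun e => h0 (e ▸ hm))
      ((hmin x hx).trans_lt (lt_of_le_of_ne (hSe hx) hxe))
    have h1 := hmin _ (hinv h hh m hm)
    have h2 := map_le h (hmin _ (hinv h.symm (hsymm h hh) m hm))
    rw [h.apply_symm_apply] at h2
    exact hne (le_antisymm h2 h1)
  · obtain ⟨m, hm, hmax⟩ := exists_greatest hS ⟨x, hx⟩ hSe
    by_contra h0
    obtain ⟨h, hh, hne⟩ := F.no_fix he (s := m) (ne_bot_of_le_ne_bot hx0 (hmax x hx))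
      (lt_of_le_of_ne (hSe hm) (fun e => h0 (e ▸ hm)))
    have h1 := hmax _ (hinv h hh m hm)
    have h2 := map_le h (hmax _ (hinv h.symm (hsymm h hh) m hm))
    rw [h.apply_symm_apply] at h2
    exact hne (le_antisymm h1 h2)

lemma Four.ends_mem_orb (F : Four a b) {e x : X} (he : IsMax e) (hx : x ≠ ⊥) (hxm : ¬ IsMax x) :
    ⊥ ∈ closure (orb x ∩ Iic e) ∧ e ∈ closure (orb x ∩ Iic e) := by
  obtain ⟨g, hg⟩ := F.exists_le_end x he
  refine F.ends_mem he isClosed_closure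
    (closure_minimal inter_subset_right (isClosed_Iic' e)) (fun h hh s hs => ?_)
    (subset_closure ⟨⟨g, rfl⟩, hg⟩) (map_ne_bot g hx)
    (fun e' => orb_not_isMax hxm ⟨g, rfl⟩ (e' ▸ he))
  refine map_mem_closure h.continuous hs fun y hy => ⟨map_mem_orb hy.1 h, ?_⟩
  have := map_le h hy.2
  rwa [hh] at this

lemma Four.exists_orb_gt (F : Four a b) {e x w : X} (he : IsMax e) (hx : x ≠ ⊥)
    (hxm : ¬ IsMax x) (hw : w < e) : ∃ y ∈ orb x, w < y ∧ y < e := by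
  obtain ⟨y, h1, h2, h3⟩ := mem_closure_iff.mp (F.ends_mem_orb he hx hxm).2 (Iic w)ᶜ
    (isClosed_Iic' w).isOpen_compl hw.not_ge
  exact ⟨y, h2, lt_of_not_le_below h3 hw.le h1,
    lt_of_le_of_ne h3 (fun e' => orb_not_isMax hxm h2 (e' ▸ he))⟩

lemma Four.exists_orb_lt (F : Four a b) {x w : X} (hx : x ≠ ⊥)
    (hxm : ¬ IsMax x) (hw : w ≠ ⊥) : ∃ y ∈ orb x, y < w := by
  obtain ⟨y, h1, h2, h3⟩ := mem_closure_iff.mp (F.ends_mem_orb (isMax_en w) hx hxm).1
    (Icc w (en w))ᶜ (isClosed_Icc' (le_en w)).isOpen_compl (fun h => hw (le_bot_iff.mp h.1))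
  exact ⟨y, h2, lt_of_not_le_below (le_en w) h3 (fun h => h1 ⟨h, h3⟩)⟩

/-- The sets of points below which there are many oscillations between two sets. -/
def osc (P R : Set X) : ℕ → Set X
  | 0 => univ
  | k + 1 => up (P ∩ up (R ∩ osc P R k))

lemma isOpen_osc {P R : Set X} (hP : IsOpen P) (hR : IsOpen R) : ∀ k, IsOpen (osc P R k)
  | 0 => isOpen_univ
  | k + 1 => isOpen_up' (hP.inter (isOpen_up' (hR.inter (isOpen_osc hP hR k))))

lemma not_all_osc {P R : Set X} {r : ℝ} (hr : 0 < r) (hPR : ∀ p ∈ P, ∀ q ∈ R, r ≤ dist p q)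
    {w : X} (hw : w ≠ ⊥) : ∃ k, w ∉ osc P R k := by
  obtain ⟨γ, hγ, -, h1, hrange, hle⟩ := exists_arc' hw
  obtain ⟨η, hη, hu⟩ := Metric.uniformContinuous_iff.mp
    (CompactSpace.uniformContinuous_of_continuous hγ) r hr
  have key : ∀ k : ℕ, ∀ s, γ s ∈ osc P R k → k * η ≤ s := by
    intro k
    induction k with
    | zero => intro s _; simpa using s.2.1
    | succ k ih =>
      rintro s ⟨p, ⟨hp, q, ⟨hq, hqk⟩, hqp⟩, hps⟩
      have hsw : γ s ≤ w := show γ s ∈ Iic w from hrange ▸ mem_range_self s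
      obtain ⟨s1, rfl⟩ : p ∈ range γ := hrange ▸ hps.trans hsw
      obtain ⟨s2, rfl⟩ : q ∈ range γ := hrange ▸ hqp.trans (hps.trans hsw)
      have a1 := ih s2 hqk
      have a2 : (s2 : ℝ) ≤ s1 := (hle _ _).mp hqp
      have a3 : (s1 : ℝ) ≤ s := (hle _ _).mp hps
      have a4 : η ≤ dist s1 s2 := not_lt.mp fun h => absurd (hu h) (not_lt.mpr (hPR _ hp _ hq))
      rw [Subtype.dist_eq, Real.dist_eq, abs_of_nonneg (by linarith)] at a4
      push_cast
      linarith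
  obtain ⟨k, hk⟩ := exists_nat_gt (1 / η)
  refine ⟨k, fun h => ?_⟩
  have := key k 1 (h1 ▸ h)
  rw [div_lt_iff₀ hη] at hk
  simp only [Icc.coe_one] at this
  linarith

theorem Four.eq_bot_of_Q (F : Four a b) {y : X} (hq : (y, ⊥) ∈ Q X) : y = ⊥ := by
  by_contra hy
  have hdown : ∀ y y' : X, (y, ⊥) ∈ Q X → y' ≤ y → (y', ⊥) ∈ Q X := fun y y' h1 h2 =>
    Q_sub h1 (right_mem_seg _ _) (seg_comm y ⊥ ▸ h2)
  obtain ⟨u, hu0, huy⟩ := exists_between' (bot_lt_iff_ne_bot.mpr hy)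
  have hall : ∀ w : X, (w, ⊥) ∈ Q X := by
    intro w
    obtain ⟨g, hg⟩ := F.exists_le_end u (isMax_en w)
    have hinv : ∀ (h : X ≃ₜ X) (s : X), (s, ⊥) ∈ Q X → (h s, ⊥) ∈ Q X := fun h s hs => by
      have := map_Q h hs
      rwa [map_bot'] at this
    have := (F.ends_mem (isMax_en w) (S := {s | (s, ⊥) ∈ Q X} ∩ Iic (en w))
      ((isClosed_Q.preimage (Continuous.prodMk_left ⊥)).inter (isClosed_Iic' _))
      inter_subset_right
      (fun h hh s hs => ⟨hinv h s hs.1, by have := map_le h hs.2; rwa [hh] at this⟩)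
      (x := g u) ⟨hinv g u (hdown y u hq huy.le), hg⟩ (map_ne_bot g hu0.ne')
      (fun e => orb_not_isMax (not_isMax_of_lt huy) ⟨g, rfl⟩ (e ▸ isMax_en w))).2
    exact hdown _ _ this.1 (le_en w)
  have hrev : ∀ u v : X, u ≤ v → (v, u) ∈ Q X := fun u v h =>
    Q_sub (hall v) (seg_comm v ⊥ ▸ h) (left_mem_seg _ _)
  have hd : 0 < dist y ⊥ := dist_pos.mpr hy
  set r := dist y ⊥ / 3 with hr
  have hr0 : 0 < r := by positivity
  obtain ⟨w, -, hw, hwk⟩ := baire_closed (K := univ) isClosed_univ (isOpen_ball (x := y) (ε := r))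
    ⟨y, trivial, mem_ball_self hr0⟩ (osc (ball ⊥ r) (ball y r))
    (isOpen_osc isOpen_ball isOpen_ball)
    (by
      intro k
      induction k with
      | zero => intro N _ _ h; simpa [osc] using h
      | succ k ih =>
        intro N hN hNW hne
        obtain ⟨z, ⟨-, hzN⟩, hzk⟩ := ih N hN hNW hne
        have hU : IsOpen (N ∩ osc (ball ⊥ r) (ball y r) k) :=
          hN.inter (isOpen_osc isOpen_ball isOpen_ball k)
        obtain ⟨y1, hy1, p1, hp1, h1⟩ := mem_Q_iff.mp (hall z) _ _ hU isOpen_ball ⟨hzN, hzk⟩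
          (mem_ball_self hr0)
        obtain ⟨p2, hp2, y2, hy2, h2⟩ := mem_Q_iff.mp (hrev y1 p1 h1) _ _
          (isOpen_ball.inter (isOpen_up' hU)) hU ⟨hp1, y1, hy1, h1⟩ hy1
        obtain ⟨hp2, y3, hy3, h3⟩ := hp2
        exact ⟨y2, ⟨trivial, hy2.1⟩, p2, ⟨hp2, y3, ⟨hNW hy3.1, hy3.2⟩, h3⟩, h2⟩)
  have hsep : ∀ p ∈ ball (⊥ : X) r, ∀ q ∈ ball y r, r ≤ dist p q := by
    intro p hp q hq
    have := dist_triangle4 y q p ⊥
    rw [mem_ball] at hp hq
    rw [dist_comm y q, dist_comm q p] at this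
    linarith
  have hw0 : w ≠ ⊥ := by
    rintro rfl
    have := hsep _ (mem_ball_self hr0) _ hw
    rw [dist_self] at this
    linarith
  obtain ⟨k, hk⟩ := not_all_osc hr0 hsep hw0
  exact hk (hwk k)

theorem Four.ne_bot_of_Q (F : Four a b) {y p : X} (hq : (y, p) ∈ Q X) (hy : y ≠ ⊥) : p ≠ ⊥ := by
  rintro rfl
  exact hy (F.eq_bot_of_Q hq)

theorem Four.total_of_Q (F : Four a b) {y p : X} (hq : (y, p) ∈ Q X) (hy : y ≠ ⊥) :
    y ≤ p ∨ p ≤ y := by
  by_contra h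
  push Not at h
  exact hy (F.eq_bot_of_Q (Q_sub hq (bot_mem_seg h.1 h.2) (left_mem_seg _ _)))

theorem Four.le_end_of_Q (F : Four a b) {y p e : X} (hq : (y, p) ∈ Q X) (hy : y ≠ ⊥)
    (he : IsMax e) (hye : y ≤ e) : p ≤ e := by
  rcases F.total_of_Q hq hy with h | h
  · rw [← en_eq hy he hye]; exact le_en_of_le hy h
  · exact h.trans hye

theorem Four.eq_of_Q (F : Four a b) {e p : X} (he : IsMax e) (hq : (e, p) ∈ Q X) : p = e := by
  by_contra hne
  have h0 := F.max_ne he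
  refine h0 (F.eq_bot_of_Q (F.ends_mem he (S := {s | (e, s) ∈ Q X} ∩ Iic e)
    ((isClosed_Q.preimage (Continuous.prodMk_right e)).inter (isClosed_Iic' _))
    inter_subset_right (fun h hh s hs => ⟨?_, ?_⟩) (x := p)
    ⟨hq, F.le_end_of_Q hq h0 he (le_refl e)⟩ (F.ne_bot_of_Q hq h0) hne).1.1)
  · have := map_Q h hs.1
    rwa [hh] at this
  · have := map_le h hs.2
    rwa [hh] at this

lemma Four.isMax_iff (F : Four a b) {e : X} : IsMax e ↔ ∀ n : ℕ,
    e ∈ (Prod.fst '' (Q X ∩ {p | 1 / ((n : ℝ) + 1) ≤ dist p.1 p.2}))ᶜ := by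
  constructor
  · rintro he n ⟨⟨u, v⟩, ⟨h1, h2⟩, rfl⟩
    have : v = u := F.eq_of_Q he h1
    simp only [this, mem_ofPred_eq, dist_self] at h2
    exact absurd h2 (not_le.mpr Nat.one_div_pos_of_nat)
  · intro h
    by_contra hm
    obtain ⟨v, hv⟩ := not_isMax_iff.mp hm
    obtain ⟨n, hn⟩ := exists_nat_one_div_lt (dist_pos.mpr hv.ne)
    exact h n ⟨(e, v), ⟨mem_Q_of_le hv.le, hn.le⟩, rfl⟩

/-- Micro-transitivity on the endpoints. -/
theorem Four.micro (F : Four a b) {e : X} (he : IsMax e) {ε : ℝ} (hε : 0 < ε) :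
    ∃ δ > 0, ∀ e', IsMax e' → dist e' e < δ → ∃ h : X ≃ₜ X, Near ε h ∧ h e = e' := by
  obtain ⟨δ, hδ, h⟩ := effros (x0 := e)
    (fun n : ℕ => (Prod.fst '' (Q X ∩ {p | 1 / ((n : ℝ) + 1) ≤ dist p.1 p.2}))ᶜ)
    (fun n => (isClosedMap_fst_of_compactSpace _ (isClosed_Q.inter
      (isClosed_le continuous_const continuous_dist))).isOpen_compl)
    (by
      ext y
      rw [mem_iInter, ← F.isMax_iff]
      exact ⟨fun ⟨h, hh⟩ => hh ▸ map_isMax h he, F.ends e y he⟩)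
    (self_mem_orb e) hε
  exact ⟨δ, hδ, fun e' he' hd => h e' (F.ends e e' he he') hd⟩

end Pool.Agent.P.MP_64e39e_gt
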