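import Pool.Agent.P.MP_64e39e_gt.Dense

/-!
No fan has exactly four orbits.
-/

namespace Pool.Agent.P.MP_64e39e_gt
open Set Metric Topology Filter

theorem no_four_orbits {X : Type} [MetricSpace X] [CompactSpace X] [Fan X] {x0 : X} (hx0 : x0 ≠ ⊥)
    (a : Fin 4 → X) (h1 : ∀ i j, (∃ h : X ≃ₜ X, h (a i) = a j) → i = j)
    (h2 : ∀ x : X, ∃ i, ∃ h : X ≃ₜ X, h (a i) = x) : False := by
  choose c hc using h2
  have key : ∀ x y, c x = c y ↔ y ∈ orb x := fun x y =>
    ⟨fun h => orb_trans (orb_symm (hc x)) (h ▸ hc y),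
      fun h => h1 _ _ (orb_trans (orb_trans (hc x) h) (orb_symm (hc y)))⟩
  have hca : ∀ i, c (a i) = i := fun i => h1 _ _ (hc (a i))
  have he := isMax_en x0
  have he0 : en x0 ≠ ⊥ := ne_bot_of_le_ne_bot hx0 (le_en x0)
  have n1 : ∀ x, x ≠ ⊥ → c x ≠ c ⊥ := fun x hx h => orb_ne_bot hx ((key _ _).mp h) rfl
  have n2 : ∀ x e, ¬ IsMax x → IsMax e → c x ≠ c e := fun x e hx he h =>
    orb_not_isMax hx ((key _ _).mp h) he
  have hmax : ∀ e : X, IsMax e → e ≠ ⊥ := by
    rintro _ he rfl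
    exact hx0 (le_bot_iff.mp (he bot_le))
  obtain ⟨u, u1, u2⟩ := exists_between' (bot_lt_iff_ne_bot.mpr hx0)
  obtain ⟨v, v1, v2, v3⟩ : ∃ v, v ≠ ⊥ ∧ ¬ IsMax v ∧ c u ≠ c v := by
    by_contra hcon
    push Not at hcon
    have p4 : ∀ i j k : Fin 4, ∃ m, m ≠ i ∧ m ≠ j ∧ m ≠ k := by decide
    obtain ⟨m, m1, m2, m3⟩ := p4 (c ⊥) (c (en x0)) (c u)
    by_cases k1 : a m = ⊥
    · exact m1 (k1 ▸ (hca m).symm)
    by_cases k2 : IsMax (a m)
    · obtain ⟨w, w1, w2⟩ := exists_between' (bot_lt_iff_ne_bot.mpr k1)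
      obtain ⟨g, rfl⟩ := (key _ _).mp (hcon w w1.ne' (not_isMax_of_lt w2))
      refine m2 ((hca m).symm.trans ((key _ _).mpr ⟨g, ?_⟩).symm)
      rw [← en_eq u1.ne' he (u2.le.trans (le_en x0)), ← map_en g u1.ne', en_eq w1.ne' k2 w2.le]
    · exact m3 ((hca m).symm.trans (hcon _ k1 k2).symm)
  have p5 : ∀ i j k l m : Fin 4, j ≠ i → k ≠ i → l ≠ i → k ≠ j → l ≠ j → k ≠ l →
      m = i ∨ m = j ∨ m = k ∨ m = l := by decide
  have all := fun x => p5 (c ⊥) (c (en x0)) (c u) (c v) (c x) (n1 _ he0) (n1 _ u1.ne') (n1 _ v1)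
    (n2 _ _ (not_isMax_of_lt u2) he) (n2 _ _ v2 he) v3
  have hends : ∀ e, IsMax e → c e = c (en x0) := by
    intro e h
    rcases all e with k | k | k | k
    · exact absurd k (n1 _ (hmax e h))
    · exact k
    · exact absurd k.symm (n2 _ _ (not_isMax_of_lt u2) h)
    · exact absurd k.symm (n2 _ _ v2 h)
  refine Four.false (a := u) (b := v) ⟨u1.ne', not_isMax_of_lt u2, v1, v2,
    fun h => v3 ((key _ _).mpr h), fun x k1 k2 => ?_,
    fun e e' k1 k2 => (key _ _).mp ((hends e k1).trans (hends e' k2).symm)⟩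
  rcases all x with k | k | k | k
  · exact absurd k (n1 _ k1)
  · exact absurd k (n2 _ _ k2 he)
  · exact Or.inl ((key _ _).mp k.symm)
  · exact Or.inr ((key _ _).mp k.symm)

theorem no_four_orbits' {X : Type} [MetricSpace X] [CompactSpace X] [PathConnectedSpace X]
    (hu : ∀ A B : Set X, IsClosed A → IsConnected A → IsClosed B → IsConnected B →
      IsPreconnected (A ∩ B))
    (ht' : ∃! t : X, ∃ γ : Fin 3 → unitInterval → X,
      (∀ i, Continuous (γ i) ∧ Function.Injective (γ i) ∧ γ i 0 = t) ∧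
      ∀ i j, i ≠ j → Set.range (γ i) ∩ Set.range (γ j) = {t})
    (a : Fin 4 → X) (h1 : ∀ i j, (∃ h : X ≃ₜ X, h (a i) = a j) → i = j)
    (h2 : ∀ x : X, ∃ i, ∃ h : X ≃ₜ X, h (a i) = x) : False := by
  have D : Dendroid X := ⟨hu⟩
  obtain ⟨t, ⟨γ, hγ, hγ'⟩, huniq⟩ := ht'
  have hfix : ∀ h : X ≃ₜ X, h t = t := by
    intro h
    refine huniq _ ⟨fun i => h ∘ γ i, fun i => ⟨h.continuous.comp (hγ i).1,
      h.injective.comp (hγ i).2.1, by simp [(hγ i).2.2]⟩, fun i j hij => ?_⟩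
    rw [range_comp, range_comp, ← image_inter h.injective, hγ' i j hij, image_singleton]
  have hcomp : ∀ m y y' : X, m ≠ t → m ∈ seg t y → m ∈ seg t y' →
      y ∈ seg t y' ∨ y' ∈ seg t y := by
    intro m y y' hm k1 k2
    by_contra hcon
    obtain ⟨n1, n2⟩ := not_or.mp hcon
    obtain ⟨q, hq, hmax⟩ := ((isClosed_seg t y).inter (isClosed_seg t y')).isCompact.exists_isMaxOn
      ⟨m, k1, k2⟩ ((continuousOn_ht (isClosed_order_seg t y)).mono inter_subset_left)
    have hqt : q ≠ t := by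
      rintro rfl
      exact absurd (hmax ⟨k1, k2⟩) (not_le.mpr (ht_lt (left_mem_seg q m) hm.symm))
    have arc : ∀ z, q ≠ z → ∃ β : unitInterval → X,
        (Continuous β ∧ Function.Injective β ∧ β 0 = q) ∧ range β = seg q z := by
      intro z hz
      obtain ⟨β, b1, b2, -, b3, b4⟩ := exists_arc hz
      refine ⟨β, ⟨b1, fun s s' e => le_antisymm ((b4 _ _).mp ?_) ((b4 _ _).mp ?_), b2⟩, b3⟩
      · rw [e]; exact right_mem_seg _ _
      · rw [e]; exact right_mem_seg _ _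
    obtain ⟨β0, a0, r0⟩ := arc t hqt
    obtain ⟨β1, a1, r1⟩ := arc y (by rintro rfl; exact n1 hq.2)
    obtain ⟨β2, a2, r2⟩ := arc y' (by rintro rfl; exact n2 hq.1)
    have i1 : ∀ z, q ∈ seg t z → seg q t ∩ seg q z = {q} := by
      intro z hz
      refine Subset.antisymm (fun w hw => ?_)
        (singleton_subset_iff.mpr ⟨left_mem_seg _ _, left_mem_seg _ _⟩)
      exact seg_antisymm (seg_comm q t ▸ hw.1) ((mem_seg_iff hz).mp hw.2).1
    have i2 : seg q y ∩ seg q y' = {q} := by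
      refine Subset.antisymm (fun w hw => ?_)
        (singleton_subset_iff.mpr ⟨left_mem_seg _ _, left_mem_seg _ _⟩)
      obtain ⟨l1, l2⟩ := (mem_seg_iff hq.1).mp hw.1
      obtain ⟨-, l3⟩ := (mem_seg_iff hq.2).mp hw.2
      by_contra hne
      exact absurd (hmax ⟨l2, l3⟩) (not_le.mpr (ht_lt l1 (Ne.symm hne)))
    refine hqt (huniq q ⟨![β0, β1, β2], fun i => ?_, fun i j hij => ?_⟩)
    · fin_cases i
      · exact a0
      · exact a1
      · exact a2
    · have j1 := i1 y hq.1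
      have j2 := i1 y' hq.2
      rw [← r0, ← r1] at j1
      rw [← r0, ← r2] at j2
      rw [← r1, ← r2] at i2
      fin_cases i <;> fin_cases j
      · exact absurd rfl hij
      · exact j1
      · exact j2
      · exact (inter_comm _ _).trans j1
      · exact absurd rfl hij
      · exact i2
      · exact (inter_comm _ _).trans j2
      · exact (inter_comm _ _).trans i2
      · exact absurd rfl hij
  let : Fan X := { D with top := t, fix := hfix, comp := hcomp }
  refine no_four_orbits (x0 := γ 0 1) (fun h => ?_) a h1 h2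
  have : γ 0 1 = γ 0 0 := h.trans (hγ 0).2.2.symm
  exact one_ne_zero ((hγ 0).2.1 this)

end Pool.Agent.P.MP_64e39e_gt
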