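import Pool.Agent.P.MP_64e39e_gt.Slide

/-!
Clopen pieces of a smooth fan and logarithmic height functions.
-/

namespace Pool.Agent.P.MP_64e39e_gt
open Set Metric Topology Filter

variable {X : Type} [MetricSpace X] [CompactSpace X] [Fan X]

/-- A set that is clopen in the complement of the top. -/
structure Piece (P : Set X) : Prop where
  isOpen : IsOpen P
  isClosed : IsClosed (insert ⊥ P)
  bot_notMem : ⊥ ∉ P

lemma Piece.ne_bot {P : Set X} (hP : Piece P) {u : X} (hu : u ∈ P) : u ≠ ⊥ := by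
  rintro rfl; exact hP.bot_notMem hu

lemma Piece.mem_iff {P : Set X} (hP : Piece P) {u v : X} (hu : u ≠ ⊥) (h : u ≤ v) :
    u ∈ P ↔ v ∈ P := by
  have hsub : Icc u v ⊆ P ∪ (insert ⊥ P)ᶜ := by
    intro w hw
    by_cases h' : w ∈ P
    · exact Or.inl h'
    · exact Or.inr fun h'' => h''.elim (ne_bot_of_le_ne_bot hu hw.1) h'
  rcases (isPreconnected_iff_subset_of_disjoint.mp (isPreconnected_Icc' h)) P (insert ⊥ P)ᶜ
    hP.isOpen hP.isClosed.isOpen_compl hsub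
    (eq_empty_iff_forall_notMem.mpr fun w hw => hw.2.2 (Or.inr hw.2.1)) with h' | h'
  · exact iff_of_true (h' ⟨le_refl u, h⟩) (h' ⟨h, le_refl v⟩)
  · exact iff_of_false (fun k => h' ⟨le_refl u, h⟩ (Or.inr k))
      (fun k => h' ⟨h, le_refl v⟩ (Or.inr k))

lemma Piece.inter {P S : Set X} (hP : Piece P) (hS : Piece S) : Piece (P ∩ S) :=
  ⟨hP.isOpen.inter hS.isOpen, by
    rw [insert_inter_distrib]; exact hP.isClosed.inter hS.isClosed, fun h => hP.bot_notMem h.1⟩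

lemma Piece.diff {P S : Set X} (hP : Piece P) (hS : Piece S) : Piece (P \ S) := by
  refine ⟨?_, ?_, fun h => hP.bot_notMem h.1⟩
  · have : P \ S = P ∩ (insert ⊥ S)ᶜ := by
      ext w
      constructor
      · rintro ⟨h1, h2⟩; exact ⟨h1, fun h => h.elim (hP.ne_bot h1) h2⟩
      · rintro ⟨h1, h2⟩; exact ⟨h1, fun h => h2 (Or.inr h)⟩
    rw [this]; exact hP.isOpen.inter hS.isClosed.isOpen_compl
  · have : insert ⊥ (P \ S) = insert ⊥ P ∩ Sᶜ := by
      ext w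
      constructor
      · rintro (rfl | ⟨h1, h2⟩)
        · exact ⟨Or.inl rfl, hS.bot_notMem⟩
        · exact ⟨Or.inr h1, h2⟩
      · rintro ⟨h1 | h1, h2⟩
        · exact Or.inl h1
        · exact Or.inr ⟨h1, h2⟩
    rw [this]; exact hP.isClosed.inter hS.isOpen.isClosed_compl

lemma piece_all : Piece ({⊥}ᶜ : Set X) :=
  ⟨isOpen_compl_singleton, by rw [insert_eq, union_compl_self]; exact isClosed_univ, by simp⟩

lemma Piece.diff_biUnion {P : Set X} (hP : Piece P) {ι : Type} (T : Finset ι) (S : ι → Set X)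
    (hS : ∀ i, Piece (S i)) : Piece (P \ ⋃ i ∈ T, S i) := by
  classical
  induction T using Finset.induction_on with
  | empty => simpa using hP
  | insert i T _ ih =>
    have : P \ ⋃ j ∈ insert i T, S j = (P \ ⋃ j ∈ T, S j) \ S i := by
      rw [Finset.set_biUnion_insert, sdiff_sdiff, union_comm]
    rw [this]; exact ih.diff (hS i)

lemma separate {K C D : Set X} (hK : IsClosed K) (h0 : ⊥ ∉ K) (hC : IsClosed C) (hD : IsClosed D)
    (hCK : C ⊆ K) (hDK : D ⊆ K) (hCD : ∀ c ∈ C, ∀ d ∈ D, ¬ c ≤ d ∧ ¬ d ≤ c) :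
    ∃ U V : Set X, IsClosed U ∧ IsClosed V ∧ Disjoint U V ∧ U ∪ V = K ∧ C ⊆ U ∧ D ⊆ V := by
  have : CompactSpace K := isCompact_iff_compactSpace.mp hK.isCompact
  let π : K → ConnectedComponents K := ConnectedComponents.mk
  have hπ : Continuous π := ConnectedComponents.continuous_coe
  have : CompactSpace (ConnectedComponents K) :=
    ⟨by rw [← ConnectedComponents.surjective_coe.range_eq]; exact isCompact_range hπ⟩
  have hcl : ∀ T : Set X, IsClosed T → IsClosed (π '' ((↑) ⁻¹' T)) := fun T hT =>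
    ((hT.preimage continuous_subtype_val).isCompact.image hπ).isClosed
  obtain ⟨Z, hZ, h1, h2⟩ := exists_clopen_of_closed_subset_open (hcl C hC)
    (hcl D hD).isOpen_compl (by
      rintro _ ⟨c, hc, rfl⟩ ⟨d, hd, e⟩
      have hmem : d ∈ connectedComponent c := ConnectedComponents.coe_eq_coe'.mp e
      have hsub : seg (c : X) d ⊆ (↑) '' connectedComponent c := seg_subset
        (hK.isClosedEmbedding_subtypeVal.isClosedMap _ isClosed_connectedComponent)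
        (isPreconnected_connectedComponent.image _ continuous_subtype_val.continuousOn)
        ⟨c, mem_connectedComponent, rfl⟩ ⟨d, hmem, rfl⟩
      obtain ⟨w, -, hw⟩ := hsub (bot_mem_seg (hCD c hc d hd).1 (hCD c hc d hd).2)
      exact h0 (hw ▸ w.2))
  refine ⟨(↑) '' (π ⁻¹' Z), (↑) '' (π ⁻¹' Zᶜ),
    hK.isClosedEmbedding_subtypeVal.isClosedMap _ (hZ.1.preimage hπ),
    hK.isClosedEmbedding_subtypeVal.isClosedMap _ (hZ.compl.1.preimage hπ), ?_, ?_, ?_, ?_⟩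
  · exact disjoint_image_of_injective Subtype.val_injective
      (Disjoint.preimage π disjoint_compl_right)
  · rw [← image_union, ← preimage_union, union_compl_self, preimage_univ, Subtype.coe_image_univ]
  · intro c hc
    exact ⟨⟨c, hCK hc⟩, h1 ⟨_, hc, rfl⟩, rfl⟩
  · intro d hd
    exact ⟨⟨d, hDK hd⟩, fun h => h2 h ⟨_, hd, rfl⟩, rfl⟩

lemma exists_piece_sep (hφ : Continuous (ht (⊥ : X))) {u v : X} (h1 : ¬ u ≤ v) (h2 : ¬ v ≤ u) :
    ∃ P, Piece P ∧ u ∈ P ∧ v ∉ P := by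
  have hu : u ≠ ⊥ := by rintro rfl; exact h1 bot_le
  have hv : v ≠ ⊥ := by rintro rfl; exact h2 bot_le
  obtain ⟨s, hs0, hsu, hsv⟩ : ∃ s, 0 < s ∧ s ≤ ht ⊥ u ∧ s ≤ ht ⊥ v :=
    ⟨_, lt_min (ht_pos hu) (ht_pos hv), min_le_left _ _, min_le_right _ _⟩
  let K : ℕ → Set X := fun k => {w | s / 2 ^ k ≤ ht ⊥ w}
  have hK : ∀ k, IsClosed (K k) := fun k => isClosed_le continuous_const hφ
  have hK0 : ∀ k, ⊥ ∉ K k := fun k h => by
    have : s / 2 ^ k ≤ ht ⊥ (⊥ : X) := h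
    rw [ht_self] at this
    exact absurd this (not_le.mpr (by positivity))
  have hKm : ∀ k, K k ⊆ K (k + 1) := fun k w hw =>
    le_trans (show s / 2 ^ (k + 1) ≤ s / 2 ^ k by gcongr <;> norm_num) hw
  have hnc : ∀ k, ∀ U V : Set X, IsClosed U → IsClosed V → Disjoint U V → U ∪ V = K k →
      ∀ c ∈ U, ∀ d ∈ V, ¬ c ≤ d := by
    intro k U V hU hV hUV e c hc d hd hcd
    have hck : c ∈ K k := e ▸ Or.inl hc
    obtain ⟨w, -, hw⟩ := (isPreconnected_closed_iff.mp (isPreconnected_Icc' hcd)) U V hU hV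
      (fun w hw => e ▸ le_trans hck (ht_strictMono.monotone hw.1)) ⟨c, ⟨le_refl c, hcd⟩, hc⟩
      ⟨d, ⟨hcd, le_refl d⟩, hd⟩
    exact disjoint_left.mp hUV hw.1 hw.2
  obtain ⟨U0, V0, a1, a2, a3, a4, a5, a6⟩ := separate (hK 0) (hK0 0) (C := {u}) (D := {v})
    isClosed_singleton isClosed_singleton (by simpa [K] using hsu) (by simpa [K] using hsv)
    (by rintro _ rfl _ rfl; exact ⟨h1, h2⟩)
  obtain ⟨f, hf0, hf⟩ := exists_seq_rec (α := Set X × Set X)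
    (fun k p => IsClosed p.1 ∧ IsClosed p.2 ∧ Disjoint p.1 p.2 ∧ p.1 ∪ p.2 = K k)
    (fun _ p q => p.1 ⊆ q.1 ∧ p.2 ⊆ q.2) (U0, V0) ⟨a1, a2, a3, a4⟩
    (by
      rintro k ⟨U, V⟩ ⟨b1, b2, b3, b4⟩
      obtain ⟨U', V', c1, c2, c3, c4, c5, c6⟩ := separate (hK (k + 1)) (hK0 (k + 1)) b1 b2
        ((subset_union_left.trans b4.le).trans (hKm k))
        ((subset_union_right.trans b4.le).trans (hKm k))
        (fun c hc d hd => ⟨hnc k U V b1 b2 b3 b4 c hc d hd,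
          hnc k V U b2 b1 b3.symm (union_comm U V ▸ b4) d hd c hc⟩)
      exact ⟨(U', V'), ⟨c1, c2, c3, c4⟩, c5, c6⟩)
  have m1 : Monotone fun k => (f k).1 := monotone_nat_of_le_succ fun k => (hf k).2.1
  have m2 : Monotone fun k => (f k).2 := monotone_nat_of_le_succ fun k => (hf k).2.2
  have hdis : ∀ j k w, w ∈ (f j).1 → w ∉ (f k).2 := fun j k w hj hk =>
    disjoint_left.mp (hf (max j k)).1.2.2.1 (m1 (le_max_left j k) hj) (m2 (le_max_right j k) hk)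
  have hlev : ∀ w : X, w ≠ ⊥ → ∃ k : ℕ, s / 2 ^ k < ht ⊥ w := by
    intro w hw
    obtain ⟨k, hk⟩ := pow_unbounded_of_one_lt (s / ht ⊥ w) (one_lt_two (α := ℝ))
    refine ⟨k, ?_⟩
    rw [div_lt_iff₀ (ht_pos hw)] at hk
    rw [div_lt_iff₀ (by positivity)]
    linarith
  have hopen : ∀ A B : ℕ → Set X, (∀ k, IsClosed (B k)) → (∀ k, A k ∪ B k = K k) →
      (∀ j k w, w ∈ A j → w ∉ B k) → IsOpen (⋃ k, A k) := by
    intro A B hB hAB hd
    rw [isOpen_iff_mem_nhds]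
    intro w hw
    obtain ⟨j, hj⟩ := mem_iUnion.mp hw
    obtain ⟨k, hk⟩ := hlev w (by rintro rfl; exact hK0 j (hAB j ▸ Or.inl hj))
    filter_upwards [(isOpen_lt continuous_const hφ).mem_nhds hk,
      (hB k).isOpen_compl.mem_nhds (hd j k w hj)] with x h1 h2
    have : x ∈ A k ∪ B k := hAB k ▸ le_of_lt h1
    exact mem_iUnion.mpr ⟨k, this.resolve_right h2⟩
  refine ⟨⋃ k, (f k).1, ⟨hopen _ (fun k => (f k).2) (fun k => (hf k).1.2.1)
    (fun k => (hf k).1.2.2.2) hdis, ?_, ?_⟩, mem_iUnion.mpr ⟨0, hf0 ▸ a5 rfl⟩, ?_⟩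
  · have : insert ⊥ (⋃ k, (f k).1) = (⋃ k, (f k).2)ᶜ := by
      ext w
      simp only [mem_insert_iff, mem_iUnion, mem_compl_iff, not_exists]
      constructor
      · rintro (rfl | ⟨j, hj⟩) k hk
        · exact hK0 k ((hf k).1.2.2.2 ▸ Or.inr hk)
        · exact hdis j k w hj hk
      · intro h
        by_cases hw : w = ⊥
        · exact Or.inl hw
        · obtain ⟨k, hk⟩ := hlev w hw
          have : w ∈ (f k).1 ∪ (f k).2 := (hf k).1.2.2.2 ▸ le_of_lt hk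
          exact Or.inr ⟨k, this.resolve_right (h k)⟩
    rw [this]
    exact (hopen _ (fun k => (f k).1) (fun k => (hf k).1.1)
      (fun k => union_comm (f k).1 (f k).2 ▸ (hf k).1.2.2.2)
      (fun j k w h1 h2 => hdis k j w h2 h1)).isClosed_compl
  · intro h
    obtain ⟨k, hk⟩ := mem_iUnion.mp h
    exact hK0 k ((hf k).1.2.2.2 ▸ Or.inl hk)
  · intro h
    obtain ⟨k, hk⟩ := mem_iUnion.mp h
    exact hdis k 0 v hk (hf0 ▸ a6 rfl)

lemma exists_sep_family (hφ : Continuous (ht (⊥ : X))) :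
    ∃ S : ℕ → Set X, (∀ n, Piece (S n)) ∧ ∀ u v, ¬ u ≤ v → ¬ v ≤ u → ∃ n, u ∈ S n ∧ v ∉ S n := by
  obtain ⟨T, hTc, hT⟩ := TopologicalSpace.isOpen_iUnion_countable
    (fun P : {P : Set X // Piece P} => P.1 ×ˢ (insert ⊥ P.1)ᶜ)
    (fun P => P.2.isOpen.prod P.2.isClosed.isOpen_compl)
  obtain ⟨g, hg⟩ := (hTc.insert ⟨_, piece_all⟩).exists_eq_range (insert_nonempty _ _)
  refine ⟨fun n => (g n).1, fun n => (g n).2, fun u v h1 h2 => ?_⟩
  obtain ⟨P, hP, hu, hv⟩ := exists_piece_sep hφ h1 h2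
  have : (u, v) ∈ ⋃ P : {P : Set X // Piece P}, P.1 ×ˢ (insert ⊥ P.1)ᶜ :=
    mem_iUnion.mpr ⟨⟨P, hP⟩, hu, fun h => h.elim (fun e => h2 ((show v = ⊥ from e) ▸ bot_le)) hv⟩
  rw [← hT] at this
  obtain ⟨P', hP', k1, k2⟩ := mem_iUnion₂.mp this
  obtain ⟨n, rfl⟩ : P' ∈ range g := hg ▸ Or.inr hP'
  exact ⟨n, k1, fun h => k2 (Or.inr h)⟩

/-- A logarithmic height function. -/
structure LH (f : X → ℝ) : Prop where
  cont : ContinuousOn f {⊥}ᶜ
  mono : ∀ u v, u ≠ ⊥ → u < v → f u < f v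
  closed : ∀ r, IsClosed {w | w ≠ ⊥ ∧ r ≤ f w}
  surj : ∀ w, w ≠ ⊥ → ∀ r, r ≤ f w → ∃ u, u ≠ ⊥ ∧ u ≤ w ∧ f u = r

lemma lh_log (hφ : Continuous (ht (⊥ : X))) {p : ℝ} (hp : 0 < p) :
    LH fun w : X => p * Real.log (ht ⊥ w) := by
  have key : ∀ (w : X) (r : ℝ), w ≠ ⊥ →
      (r ≤ p * Real.log (ht ⊥ w) ↔ Real.exp (r / p) ≤ ht ⊥ w) := by
    intro w r hw
    rw [← Real.le_log_iff_exp_le (ht_pos hw), div_le_iff₀ hp, mul_comm]
  refine ⟨continuousOn_const.mul (hφ.continuousOn.log fun w hw => (ht_pos hw).ne'),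
    fun u v hu h => mul_lt_mul_of_pos_left (Real.log_lt_log (ht_pos hu) (ht_strictMono h)) hp,
    fun r => ?_, fun w hw r hr => ?_⟩
  · have : {w : X | w ≠ ⊥ ∧ r ≤ p * Real.log (ht ⊥ w)} = {w | Real.exp (r / p) ≤ ht ⊥ w} := by
      ext w
      constructor
      · rintro ⟨h1, h2⟩; exact (key w r h1).mp h2
      · intro h
        have hw : w ≠ ⊥ := by
          rintro rfl
          simp only [mem_ofPred_eq, ht_self] at h
          exact absurd h (not_le.mpr (Real.exp_pos _))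
        exact ⟨hw, (key w r hw).mpr h⟩
    rw [this]; exact isClosed_le continuous_const hφ
  · obtain ⟨u, hu, e⟩ := exists_ht_eq (Real.exp_pos (r / p)).le ((key w r hw).mp hr)
    refine ⟨u, ?_, hu, ?_⟩
    · rintro rfl
      rw [ht_self] at e
      exact (Real.exp_pos _).ne e
    · rw [e, Real.log_exp]; field_simp

/-- A highest point of a set. -/
def Top (f : X → ℝ) (P : Set X) (τ : X) : Prop := τ ∈ P ∧ ∀ w ∈ P, f w ≤ f τ

lemma LH.isClosed_inter {f : X → ℝ} (hf : LH f) {P : Set X} (hP : Piece P) (r : ℝ) :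
    IsClosed (P ∩ {w | r ≤ f w}) := by
  have : P ∩ {w | r ≤ f w} = insert ⊥ P ∩ {w | w ≠ ⊥ ∧ r ≤ f w} := by
    ext w
    constructor
    · rintro ⟨h1, h2⟩; exact ⟨Or.inr h1, hP.ne_bot h1, h2⟩
    · rintro ⟨h1, h2, h3⟩; exact ⟨h1.resolve_left h2, h3⟩
  rw [this]; exact hP.isClosed.inter (hf.closed r)

lemma LH.exists_top {f : X → ℝ} (hf : LH f) {P : Set X} (hP : Piece P) (hne : P.Nonempty) :
    ∃ τ, Top f P τ := by
  obtain ⟨w0, hw0⟩ := hne
  obtain ⟨τ, hτ, hmax⟩ := (hf.isClosed_inter hP (f w0)).isCompact.exists_isMaxOn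
    ⟨w0, hw0, le_refl (f w0)⟩ (hf.cont.mono fun w hw => hP.ne_bot hw.1)
  refine ⟨τ, hτ.1, fun w hw => ?_⟩
  by_cases h : f w0 ≤ f w
  · exact hmax ⟨hw, h⟩
  · exact (not_le.mp h).le.trans hτ.2

lemma LH.carve {f : X → ℝ} (hf : LH f) (hφ : Continuous (ht (⊥ : X)))
    (hE : Dense {e : X | IsMax e}) {P : Set X} (hP : Piece P) {τ : X} (hτ : Top f P τ) {r η : ℝ}
    (hr : r ≤ f τ) (hη : 0 < η) :
    ∃ P1 τ1, Piece P1 ∧ P1 ⊆ P ∧ τ ∉ P1 ∧ Top f P1 τ1 ∧ |f τ1 - r| ≤ η := by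
  obtain ⟨x, hx0, hxτ, hx⟩ := hf.surj τ (hP.ne_bot hτ.1) (r - η / 2) (by linarith)
  have hxP : x ∈ P := (hP.mem_iff hx0 hxτ).mpr hτ.1
  have hN : IsOpen (P ∩ f ⁻¹' Ioo (r - η) r) :=
    (hf.cont.mono fun w hw => hP.ne_bot hw).isOpen_inter_preimage hP.isOpen isOpen_Ioo
  obtain ⟨e, ⟨heP, he1, he2⟩, he⟩ := hE.inter_open_nonempty _ hN
    ⟨x, hxP, by rw [mem_preimage, hx]; constructor <;> linarith⟩
  have hsep : ∀ k : (P ∩ {w | r ≤ f w} : Set X), ∃ S, Piece S ∧ k.1 ∈ S ∧ e ∉ S := by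
    rintro ⟨k, hk, hkr⟩
    have h1 : ¬ k ≤ e := by
      intro h
      rcases h.eq_or_lt with rfl | h
      · exact absurd hkr (not_le.mpr he2)
      · exact absurd hkr (not_le.mpr ((hf.mono _ _ (hP.ne_bot hk) h).trans he2))
    exact exists_piece_sep hφ h1 (fun h => h1 (he h))
  choose S hS1 hS2 hS3 using hsep
  obtain ⟨T, hT⟩ := (hf.isClosed_inter hP r).isCompact.elim_finite_subcover S
    (fun k => (hS1 k).isOpen) (fun k hk => mem_iUnion.mpr ⟨⟨k, hk⟩, hS2 _⟩)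
  have hP1 := hP.diff_biUnion T S hS1
  have he1' : e ∈ P \ ⋃ i ∈ T, S i := ⟨heP, by simp [hS3]⟩
  obtain ⟨τ1, hτ1⟩ := hf.exists_top hP1 ⟨e, he1'⟩
  refine ⟨_, τ1, hP1, sdiff_subset, fun h => h.2 (hT ⟨hτ.1, hr⟩), hτ1, ?_⟩
  have a1 := hτ1.2 e he1'
  have a2 : f τ1 < r := not_le.mp fun h => hτ1.1.2 (hT ⟨hτ1.1.1, h⟩)
  rw [abs_le]
  constructor <;> linarith

end Pool.Agent.P.MP_64e39e_gt
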