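import Mathlib

/-!
Dendroids: the irreducible continuum `seg x y` between two points, its order, height functions
and arc parametrisations.
-/

namespace Pool.Agent.P.MP_64e39e_gt
open Set Metric Topology Filter

/-- Path connected and hereditarily unicoherent. -/
class Dendroid (X : Type) [TopologicalSpace X] : Prop extends PathConnectedSpace X where
  hu : ∀ A B : Set X, IsClosed A → IsConnected A → IsClosed B → IsConnected B →
    IsPreconnected (A ∩ B)

section General
variable {X : Type} [MetricSpace X] [CompactSpace X]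

/-- Separation of two points of a compact set that lie on no common continuum inside it. -/
lemma sep_points {K : Set X} (hK : IsClosed K) {u v : X} (hu : u ∈ K) (hv : v ∈ K)
    (h : ∀ C : Set X, IsClosed C → IsPreconnected C → C ⊆ K → u ∈ C → v ∉ C) :
    ∃ U V : Set X, IsOpen U ∧ IsOpen V ∧ K ⊆ U ∪ V ∧ K ∩ (U ∩ V) = ∅ ∧ u ∈ U ∧ v ∈ V := by
  have : CompactSpace K := isCompact_iff_compactSpace.mp hK.isCompact
  have h1 : (⟨v, hv⟩ : K) ∉ connectedComponent (⟨u, hu⟩ : K) := by
    intro hmem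
    refine h ((↑) '' connectedComponent (⟨u, hu⟩ : K)) ?_ ?_ ?_ ?_ ⟨_, hmem, rfl⟩
    · exact hK.isClosedEmbedding_subtypeVal.isClosedMap _ isClosed_connectedComponent
    · exact isPreconnected_connectedComponent.image _ continuous_subtype_val.continuousOn
    · rintro _ ⟨w, -, rfl⟩; exact w.2
    · exact ⟨_, mem_connectedComponent, rfl⟩
  rw [connectedComponent_eq_iInter_isClopen, mem_iInter] at h1
  push Not at h1
  obtain ⟨⟨s, hs, hus⟩, hvs⟩ := h1
  obtain ⟨U, hU, hUs⟩ := isOpen_induced_iff.mp hs.2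
  obtain ⟨V, hV, hVs⟩ := isOpen_induced_iff.mp hs.1.isOpen_compl
  refine ⟨U, V, hU, hV, fun w hw => ?_, ?_, ?_, ?_⟩
  · by_cases hws : (⟨w, hw⟩ : K) ∈ s
    · left; rw [← hUs] at hws; exact hws
    · right
      have : (⟨w, hw⟩ : K) ∈ sᶜ := hws
      rw [← hVs] at this; exact this
  · rw [eq_empty_iff_forall_notMem]
    rintro w ⟨hw, hwU, hwV⟩
    have a1 : (⟨w, hw⟩ : K) ∈ s := by rw [← hUs]; exact hwU
    have a2 : (⟨w, hw⟩ : K) ∈ sᶜ := by rw [← hVs]; exact hwV
    exact a2 a1
  · rw [← hUs] at hus; exact hus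
  · have : (⟨v, hv⟩ : K) ∈ sᶜ := hvs
    rw [← hVs] at this; exact this

/-- A closed relation that is the graph of a bijection is the graph of a homeomorphism. -/
lemma exists_homeo_of_rel (R : X → X → Prop) (hR : IsClosed {p : X × X | R p.1 p.2})
    (h1 : ∀ w, ∃! w', R w w') (h2 : ∀ w', ∃! w, R w w') :
    ∃ h : X ≃ₜ X, ∀ w, R w (h w) := by
  choose f hf hf' using h1
  have hbij : Function.Bijective f := by
    constructor
    · intro a b hab
      obtain ⟨w, -, hw⟩ := h2 (f a)
      exact (hw a (hf a)).trans (hw b (hab ▸ hf b)).symm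
    · intro w'
      obtain ⟨w, hw, -⟩ := h2 w'
      exact ⟨w, (hf' w w' hw).symm⟩
  have hcont : Continuous f := by
    rw [continuous_iff_isClosed]
    intro C hC
    have : f ⁻¹' C = Prod.fst '' ({p : X × X | R p.1 p.2} ∩ Prod.snd ⁻¹' C) := by
      ext w
      constructor
      · intro hw; exact ⟨(w, f w), ⟨hf w, hw⟩, rfl⟩
      · rintro ⟨⟨a, b⟩, ⟨hab, hb⟩, rfl⟩
        have : b = f a := hf' a b hab
        simpa [← this] using hb
    rw [this]
    exact isClosedMap_fst_of_compactSpace _ (hR.inter (hC.preimage continuous_snd))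
  exact ⟨Continuous.homeoOfEquivCompactToT2 (f := Equiv.ofBijective f hbij) hcont, hf⟩

end General

variable {X : Type} [MetricSpace X] [CompactSpace X] [Dendroid X]

/-- The intersection of all continua through two points. -/
def seg (x y : X) : Set X := ⋂₀ {C | IsClosed C ∧ IsPreconnected C ∧ x ∈ C ∧ y ∈ C}

omit [CompactSpace X] [Dendroid X] in
lemma seg_subset {x y : X} {C : Set X} (h1 : IsClosed C) (h2 : IsPreconnected C) (hx : x ∈ C)
    (hy : y ∈ C) : seg x y ⊆ C := sInter_subset_of_mem ⟨h1, h2, hx, hy⟩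

omit [CompactSpace X] [Dendroid X] in
lemma left_mem_seg (x y : X) : x ∈ seg x y := fun _ h => h.2.2.1

omit [CompactSpace X] [Dendroid X] in
lemma right_mem_seg (x y : X) : y ∈ seg x y := fun _ h => h.2.2.2

omit [CompactSpace X] [Dendroid X] in
lemma isClosed_seg (x y : X) : IsClosed (seg x y) := isClosed_sInter fun _ h => h.1

omit [CompactSpace X] [Dendroid X] in
lemma seg_comm (x y : X) : seg x y = seg y x := by
  unfold seg; congr 1; ext C; simp only [mem_ofPred_eq]; tauto

omit [CompactSpace X] [Dendroid X] in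
lemma seg_self (x : X) : seg x x = {x} :=
  Subset.antisymm (seg_subset isClosed_singleton isPreconnected_singleton rfl rfl)
    (singleton_subset_iff.mpr (left_mem_seg x x))

lemma isPreconnected_seg (x y : X) : IsPreconnected (seg x y) := by
  rw [isPreconnected_iff_subset_of_fully_disjoint_closed (isClosed_seg x y)]
  intro u v hu hv huv hd
  obtain ⟨U, V, hU, hV, huU, hvV, hUV⟩ := normal_separation hu hv hd
  let S := {C : Set X // IsClosed C ∧ IsPreconnected C ∧ x ∈ C ∧ y ∈ C}
  have : Nonempty S := ⟨⟨univ, isClosed_univ, isPreconnected_univ, trivial, trivial⟩⟩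
  have hdir : Directed (· ⊇ ·) (fun C : S => C.1) := by
    rintro ⟨C, h1, h2, h3, h4⟩ ⟨D, k1, k2, k3, k4⟩
    exact ⟨⟨C ∩ D, h1.inter k1, Dendroid.hu C D h1 ⟨⟨x, h3⟩, h2⟩ k1 ⟨⟨x, k3⟩, k2⟩, ⟨h3, k3⟩,
      ⟨h4, k4⟩⟩, inter_subset_left, inter_subset_right⟩
  have hsub : ∀ w ∈ ⋂ C : S, C.1, U ∪ V ∈ 𝓝 w := by
    intro w hw
    have : w ∈ seg x y := fun C hC => mem_iInter.mp hw ⟨C, hC⟩
    exact (hU.union hV).mem_nhds (union_subset_union huU hvV (huv this))
  obtain ⟨C, hC⟩ := exists_subset_nhds_of_isCompact' hdir (fun C => C.2.1.isCompact)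
    (fun C => C.2.1) hsub
  have hsC : seg x y ⊆ C.1 := sInter_subset_of_mem C.2
  rcases (isPreconnected_iff_subset_of_disjoint.mp C.2.2.1) U V hU hV hC
    (by rw [hUV.inter_eq, inter_empty]) with h | h
  · left
    intro w hw
    rcases huv hw with h' | h'
    · exact h'
    · exact absurd (h (hsC hw)) (disjoint_right.mp hUV (hvV h'))
  · right
    intro w hw
    rcases huv hw with h' | h'
    · exact absurd (h (hsC hw)) (disjoint_left.mp hUV (huU h'))
    · exact h'

lemma seg_mono {x y u v : X} (hu : u ∈ seg x y) (hv : v ∈ seg x y) : seg u v ⊆ seg x y :=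
  seg_subset (isClosed_seg x y) (isPreconnected_seg x y) hu hv

lemma seg_subset_union (x y u : X) : seg x y ⊆ seg x u ∪ seg u y :=
  seg_subset ((isClosed_seg _ _).union (isClosed_seg _ _))
    ((isPreconnected_seg x u).union u (right_mem_seg _ _) (left_mem_seg _ _)
      (isPreconnected_seg u y)) (Or.inl (left_mem_seg _ _)) (Or.inr (right_mem_seg _ _))

omit [CompactSpace X] in
lemma seg_antisymm {x u v : X} (h1 : u ∈ seg x v) (h2 : v ∈ seg x u) : u = v := by
  by_contra hne
  obtain ⟨p⟩ := PathConnectedSpace.joined x u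
  let T : Set unitInterval := {s | p s = u ∨ p s = v}
  have hT : IsClosed T :=
    (isClosed_eq p.continuous continuous_const).union (isClosed_eq p.continuous continuous_const)
  obtain ⟨s, hs, hmin⟩ := hT.isCompact.exists_isLeast ⟨1, Or.inl p.target⟩
  have hC : IsClosed (p '' Icc 0 s) := (isCompact_Icc.image p.continuous).isClosed
  have hC' : IsPreconnected (p '' Icc 0 s) := isPreconnected_Icc.image _ p.continuous.continuousOn
  have hx : x ∈ p '' Icc 0 s := ⟨0, ⟨le_rfl, unitInterval.nonneg'⟩, p.source⟩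
  rcases hs with hs | hs
  · have hu : u ∈ p '' Icc 0 s := ⟨s, ⟨unitInterval.nonneg', le_rfl⟩, hs⟩
    obtain ⟨s', hs', e⟩ := seg_subset hC hC' hx hu h2
    have : s' = s := le_antisymm hs'.2 (hmin (Or.inr e))
    exact hne (hs.symm.trans (this ▸ e))
  · have hv : v ∈ p '' Icc 0 s := ⟨s, ⟨unitInterval.nonneg', le_rfl⟩, hs⟩
    obtain ⟨s', hs', e⟩ := seg_subset hC hC' hx hv h1
    have : s' = s := le_antisymm hs'.2 (hmin (Or.inl e))
    exact hne ((this ▸ e : p s = u).symm.trans hs)

lemma seg_total {x y u v : X} (hu : u ∈ seg x y) (hv : v ∈ seg x y) :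
    u ∈ seg x v ∨ v ∈ seg x u := by
  rcases seg_subset_union x y v hu with h1 | h1
  · exact Or.inl h1
  rcases seg_subset_union x y u hv with h2 | h2
  · exact Or.inr h2
  rw [seg_comm] at h1 h2
  rw [seg_antisymm h1 h2]
  exact Or.inl (right_mem_seg _ _)

lemma seg_trans {x u v w : X} (h1 : u ∈ seg x v) (h2 : v ∈ seg x w) : u ∈ seg x w :=
  seg_mono (left_mem_seg _ _) h2 h1

lemma mem_seg_iff {x u v w : X} (h : u ∈ seg x v) :
    w ∈ seg u v ↔ u ∈ seg x w ∧ w ∈ seg x v := by
  constructor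
  · intro hw
    have h1 : w ∈ seg x v := seg_mono h (right_mem_seg _ _) hw
    refine ⟨?_, h1⟩
    rcases seg_subset_union x v w h with h2 | h2
    · exact h2
    · rw [seg_comm] at h2 hw
      rw [seg_antisymm h2 hw]; exact right_mem_seg _ _
  · rintro ⟨h1, h2⟩
    rcases seg_subset_union x v u h2 with h3 | h3
    · rw [seg_antisymm h3 h1]; exact left_mem_seg _ _
    · exact h3

lemma exists_between_seg {u v : X} (h : u ≠ v) : ∃ m ∈ seg u v, m ≠ u ∧ m ≠ v := by
  by_contra hcon
  push Not at hcon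
  have hsub : seg u v ⊆ {u} ∪ {v} := by
    intro m hm
    by_cases h1 : m = u
    · exact Or.inl h1
    · exact Or.inr (hcon m hm h1)
  rcases (isPreconnected_iff_subset_of_fully_disjoint_closed (isClosed_seg u v)).mp
    (isPreconnected_seg u v) {u} {v} isClosed_singleton isClosed_singleton hsub
    (disjoint_singleton.mpr h) with h' | h'
  · exact h (h' (right_mem_seg u v)).symm
  · exact h (h' (left_mem_seg u v))

/-- Lower semicontinuity of segments. -/
lemma isOpen_seg_meets {W : Set X} (hW : IsOpen W) :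
    IsOpen {p : X × X | (seg p.1 p.2 ∩ W).Nonempty} := by
  rw [isOpen_iff_mem_nhds]
  rintro ⟨u, v⟩ ⟨w, hw, hwW⟩
  by_cases hu : u ∈ W
  · filter_upwards [prod_mem_nhds (hW.mem_nhds hu) univ_mem] with p hp
    exact ⟨p.1, left_mem_seg _ _, hp.1⟩
  by_cases hv : v ∈ W
  · filter_upwards [prod_mem_nhds univ_mem (hW.mem_nhds hv)] with p hp
    exact ⟨p.2, right_mem_seg _ _, hp.2⟩
  obtain ⟨U, V, hU, hV, hUV, hd, huU, hvV⟩ := sep_points hW.isClosed_compl hu hv
    (fun C h1 h2 h3 h4 h5 => h3 (seg_subset h1 h2 h4 h5 hw) hwW)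
  filter_upwards [prod_mem_nhds (hU.mem_nhds huU) (hV.mem_nhds hvV)] with p hp
  by_contra hcon
  have hsub : seg p.1 p.2 ⊆ Wᶜ := fun z hz hzW => hcon ⟨z, hz, hzW⟩
  obtain ⟨z, hz, hz'⟩ := isPreconnected_seg p.1 p.2 U V hU hV (hsub.trans hUV)
    ⟨p.1, left_mem_seg _ _, hp.1⟩ ⟨p.2, right_mem_seg _ _, hp.2⟩
  have : z ∈ Wᶜ ∩ (U ∩ V) := ⟨hsub hz, hz'⟩
  rw [hd] at this
  exact this

lemma isOpen_up (x : X) {W : Set X} (hW : IsOpen W) :
    IsOpen {w : X | (seg x w ∩ W).Nonempty} :=
  (isOpen_seg_meets hW).preimage (Continuous.prodMk_right x)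

lemma isClosed_order_seg (x y : X) :
    IsClosed {p : X × X | p.1 ∈ seg x p.2 ∧ p.2 ∈ seg x y} := by
  rw [← isOpen_compl_iff, isOpen_iff_mem_nhds]
  rintro ⟨v, w⟩ hvw
  by_cases hw : w ∈ seg x y
  swap
  · filter_upwards [prod_mem_nhds univ_mem ((isClosed_seg x y).isOpen_compl.mem_nhds hw)]
      with p hp
    exact fun h => hp.2 h.2
  by_cases hv : v ∈ seg x y
  swap
  · filter_upwards [prod_mem_nhds ((isClosed_seg x y).isOpen_compl.mem_nhds hv) univ_mem]
      with p hp
    exact fun h => hp.1 (seg_trans h.1 h.2)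
  have h1 : v ∉ seg x w := fun h => hvw ⟨h, hw⟩
  have h2 : w ∈ seg x v := (seg_total hv hw).resolve_left h1
  have hne : w ≠ v := by rintro rfl; exact h1 (right_mem_seg _ _)
  obtain ⟨m, hm, hmw, hmv⟩ := exists_between_seg hne
  obtain ⟨h3, h4⟩ := (mem_seg_iff h2).mp hm
  have hmy : m ∈ seg x y := seg_trans h4 hv
  have a1 : v ∉ seg x m := fun h => hmv (seg_antisymm h4 h)
  have a2 : w ∉ seg m y := fun h => hmw (seg_antisymm ((mem_seg_iff hmy).mp h).1 h3)
  filter_upwards [prod_mem_nhds ((isClosed_seg x m).isOpen_compl.mem_nhds a1)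
    ((isClosed_seg m y).isOpen_compl.mem_nhds a2)] with p hp
  rintro ⟨k1, k2⟩
  have k3 : m ∈ seg x p.1 := (seg_total (seg_trans k1 k2) hmy).resolve_left hp.1
  exact hp.2 ((mem_seg_iff hmy).mpr ⟨seg_trans k3 k1, k2⟩)

omit [CompactSpace X] [Dendroid X] in
lemma map_mem_seg (h : X ≃ₜ X) {x y w : X} (hw : w ∈ seg x y) : h w ∈ seg (h x) (h y) := by
  rintro C ⟨h1, h2, h3, h4⟩
  have : seg x y ⊆ h ⁻¹' C := seg_subset (h1.preimage h.continuous)
    (h.isPreconnected_preimage.mpr h2) h3 h4
  exact this hw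

/-! ### Height functions -/

/-- One term of the height function. -/
noncomputable def htTerm (x : X) (i : ℕ) (w : X) : ℝ :=
  haveI : Nonempty X := ⟨x⟩
  (1 / 2 : ℝ) ^ i * (dist (TopologicalSpace.denseSeq X i) x
    - infDist (TopologicalSpace.denseSeq X i) (seg x w))

/-- A Whitney type height function with base point `x`. -/
noncomputable def ht (x : X) (w : X) : ℝ := ∑' i, htTerm x i w

omit [Dendroid X] in
lemma htTerm_bound (x : X) (i : ℕ) (w : X) :
    ‖htTerm x i w‖ ≤ (1 / 2 : ℝ) ^ i * diam (univ : Set X) := by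
  have : Nonempty X := ⟨x⟩
  unfold htTerm
  set q := TopologicalSpace.denseSeq X i
  have h1 : infDist q (seg x w) ≤ dist q x := infDist_le_dist_of_mem (left_mem_seg _ _)
  have h2 : dist q x ≤ diam (univ : Set X) :=
    dist_le_diam_of_mem isCompact_univ.isBounded trivial trivial
  have h3 : 0 ≤ infDist q (seg x w) := infDist_nonneg
  rw [Real.norm_eq_abs, abs_of_nonneg (mul_nonneg (by positivity) (by linarith))]
  gcongr
  linarith

omit [Dendroid X] in
lemma summable_htTerm (x w : X) : Summable fun i => htTerm x i w :=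
  Summable.of_norm_bounded (summable_geometric_two.mul_right _) (fun i => htTerm_bound x i w)

omit [Dendroid X] in
lemma ht_self (x : X) : ht x x = 0 := by
  unfold ht htTerm
  simp [seg_self]

lemma htTerm_mono {x u v : X} (h : u ∈ seg x v) (i : ℕ) : htTerm x i u ≤ htTerm x i v := by
  unfold htTerm
  have := infDist_le_infDist_of_subset (x := @TopologicalSpace.denseSeq X _ _ ⟨x⟩ i)
    (seg_mono (left_mem_seg x v) h) ⟨x, left_mem_seg _ _⟩
  gcongr

lemma ht_lt {x u v : X} (h : u ∈ seg x v) (hne : u ≠ v) : ht x u < ht x v := by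
  have : Nonempty X := ⟨x⟩
  have hv : v ∉ seg x u := fun h' => hne (seg_antisymm h h')
  have hpos : 0 < infDist v (seg x u) :=
    ((isClosed_seg x u).notMem_iff_infDist_pos ⟨x, left_mem_seg _ _⟩).mp hv
  obtain ⟨i, hi⟩ := (TopologicalSpace.denseRange_denseSeq X).exists_dist_lt v (half_pos hpos)
  refine Summable.tsum_lt_tsum (i := i) (fun j => htTerm_mono h j) ?_ (summable_htTerm x u)
    (summable_htTerm x v)
  unfold htTerm
  set q := TopologicalSpace.denseSeq X i
  have h1 : infDist q (seg x v) ≤ dist q v := infDist_le_dist_of_mem (right_mem_seg _ _)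
  have h2 : infDist v (seg x u) ≤ infDist q (seg x u) + dist v q := infDist_le_infDist_add_dist
  rw [dist_comm q v] at h1
  gcongr
  linarith

lemma continuousOn_ht {x : X} {S : Set X}
    (hS : IsClosed {p : X × X | p.1 ∈ seg x p.2 ∧ p.2 ∈ S}) : ContinuousOn (ht x) S := by
  refine continuousOn_tsum (fun i => ?_) (summable_geometric_two.mul_right _)
    (fun i w _ => htTerm_bound x i w)
  unfold htTerm
  set q := @TopologicalSpace.denseSeq X _ _ ⟨x⟩ i
  refine continuousOn_const.mul (continuousOn_const.sub ?_)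
  rw [continuousOn_iff_lower_upperSemicontinuousOn]
  constructor
  · intro w hw r hr
    have hcl : IsClosed (Prod.snd '' ({p : X × X | p.1 ∈ seg x p.2 ∧ p.2 ∈ S} ∩
        {p | dist q p.1 ≤ r})) :=
      isClosedMap_snd_of_compactSpace _ (hS.inter (isClosed_le (by fun_prop) continuous_const))
    have hnot : w ∉ Prod.snd '' ({p : X × X | p.1 ∈ seg x p.2 ∧ p.2 ∈ S} ∩
        {p | dist q p.1 ≤ r}) := by
      rintro ⟨⟨u, w'⟩, ⟨⟨h1, -⟩, h2⟩, rfl⟩
      exact absurd ((infDist_le_dist_of_mem h1).trans h2) (not_le.mpr hr)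
    filter_upwards [mem_nhdsWithin_of_mem_nhds (hcl.isOpen_compl.mem_nhds hnot),
      self_mem_nhdsWithin] with w' h1 h2
    by_contra hle
    obtain ⟨u, hu, e⟩ := (isClosed_seg x w').isCompact.exists_infDist_eq_dist
      ⟨x, left_mem_seg _ _⟩ q
    exact h1 ⟨(u, w'), ⟨⟨hu, h2⟩, (e ▸ not_lt.mp hle : dist q u ≤ r)⟩, rfl⟩
  · intro w _ r hr
    obtain ⟨u, hu, hlt⟩ := (infDist_lt_iff ⟨x, left_mem_seg x w⟩).mp hr
    have hopen := isOpen_up x (isOpen_ball (x := q) (ε := r))
    filter_upwards [mem_nhdsWithin_of_mem_nhds (hopen.mem_nhds ⟨u, hu, mem_ball'.mpr hlt⟩)]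
      with w' h1
    obtain ⟨u', hu', hlt'⟩ := h1
    exact (infDist_le_dist_of_mem hu').trans_lt (mem_ball'.mp hlt')

/-- Order preserving arc parametrisation of a segment. -/
lemma exists_arc {x y : X} (hne : x ≠ y) :
    ∃ γ : unitInterval → X, Continuous γ ∧ γ 0 = x ∧ γ 1 = y ∧ range γ = seg x y ∧
      ∀ s s', γ s ∈ seg x (γ s') ↔ s ≤ s' := by
  have hcont : ContinuousOn (ht x) (seg x y) := continuousOn_ht (isClosed_order_seg x y)
  have hmono : ∀ u v, u ∈ seg x v → ht x u ≤ ht x v := by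
    intro u v h
    by_cases e : u = v
    · rw [e]
    · exact (ht_lt h e).le
  set c := ht x y with hc
  have hc0 : 0 < c := by
    have := ht_lt (left_mem_seg x y) hne
    rwa [ht_self] at this
  have hmem : ∀ w : seg x y, ht x w / c ∈ unitInterval := by
    intro w
    have h1 := hmono _ _ (left_mem_seg x w)
    rw [ht_self] at h1
    exact ⟨div_nonneg h1 hc0.le, (div_le_one hc0).mpr (hmono _ _ w.2)⟩
  let g : seg x y → unitInterval := fun w => ⟨ht x w / c, hmem w⟩
  have hg : Continuous g := (hcont.domRestrict.div_const c).subtype_mk _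
  have hgle : ∀ u v : seg x y, g u ≤ g v ↔ (u : X) ∈ seg x v := by
    intro u v
    constructor
    · intro h
      by_contra hcon
      have h1 := (seg_total u.2 v.2).resolve_left hcon
      have h2 : (v : X) ≠ u := by
        intro e; rw [e] at hcon; exact hcon (right_mem_seg _ _)
      have h3 := ht_lt h1 h2
      have h4 : ht x u / c ≤ ht x v / c := h
      rw [div_le_div_iff_of_pos_right hc0] at h4
      linarith
    · intro h
      show ht x u / c ≤ ht x v / c
      gcongr
      exact hmono _ _ h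
  have hbij : Function.Bijective g := by
    constructor
    · intro u v h
      exact Subtype.ext (seg_antisymm ((hgle u v).mp h.le) ((hgle v u).mp h.ge))
    · intro s
      have : c * s ∈ Icc (ht x x) (ht x y) := by
        rw [ht_self]
        exact ⟨mul_nonneg hc0.le s.2.1, mul_le_of_le_one_right hc0.le s.2.2⟩
      obtain ⟨w, hw, e⟩ := (isPreconnected_seg x y).intermediate_value (left_mem_seg _ _)
        (right_mem_seg _ _) hcont this
      refine ⟨⟨w, hw⟩, Subtype.ext ?_⟩
      show ht x w / c = s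
      rw [e]; field_simp
  have : CompactSpace (seg x y) := isCompact_iff_compactSpace.mp (isClosed_seg x y).isCompact
  let e := Continuous.homeoOfEquivCompactToT2 (f := Equiv.ofBijective g hbij) hg
  have he : ∀ s, g (e.symm s) = s := fun s => e.apply_symm_apply s
  have he' : ∀ w, e.symm (g w) = w := fun w => e.symm_apply_apply w
  refine ⟨fun s => (e.symm s : X), continuous_subtype_val.comp e.symm.continuous, ?_, ?_, ?_, ?_⟩
  · have : g ⟨x, left_mem_seg _ _⟩ = 0 := Subtype.ext (by simp [g, ht_self])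
    simp only [← this, he']
  · have : g ⟨y, right_mem_seg _ _⟩ = 1 := Subtype.ext (by simp [g, ← hc, hc0.ne'])
    simp only [← this, he']
  · ext w
    constructor
    · rintro ⟨s, rfl⟩; exact (e.symm s).2
    · intro hw; exact ⟨g ⟨w, hw⟩, by simp only [he']⟩
  · intro s s'
    rw [← hgle, he, he]

end Pool.Agent.P.MP_64e39e_gt
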