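import Pool.Agent.P.MP_64e39e_gt.Four

/-!
The case where endpoints accumulate only at endpoints and at the top: the fan is smooth with a
continuous endpoint map, and one can slide along all legs simultaneously.
-/

namespace Pool.Agent.P.MP_64e39e_gt
open Set Metric Topology Filter

variable {X : Type} [MetricSpace X] [CompactSpace X] [Fan X] {a b : X}

lemma continuous_ht (hs : IsClosed {p : X × X | p.1 ≤ p.2}) : Continuous (ht (⊥ : X)) := by
  rw [← continuousOn_univ]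
  refine continuousOn_ht ?_
  convert hs using 2
  simp [le_def]

lemma ht_pos {w : X} (hw : w ≠ ⊥) : 0 < ht ⊥ w := by
  have := ht_strictMono (bot_lt_iff_ne_bot.mpr hw)
  rwa [ht_self] at this

lemma ht_nonneg (w : X) : 0 ≤ ht ⊥ w := by
  have := ht_strictMono.monotone (bot_le : (⊥ : X) ≤ w)
  rwa [ht_self] at this

lemma exists_ht_eq {y : X} {s : ℝ} (h0 : 0 ≤ s) (h1 : s ≤ ht ⊥ y) : ∃ w ≤ y, ht ⊥ w = s :=
  (isPreconnected_seg ⊥ y).intermediate_value (left_mem_seg _ _) (right_mem_seg _ _)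
    (continuousOn_ht (isClosed_order_seg ⊥ y)) ⟨by rwa [ht_self], h1⟩

lemma eq_of_strictMono {f : X → ℝ} {y u v : X} (hf : ∀ u v, u ≠ ⊥ → u < v → f u < f v)
    (hu0 : u ≠ ⊥) (hv0 : v ≠ ⊥) (hu : u ≤ y) (hv : v ≤ y) (h : f u = f v) : u = v := by
  by_contra hne
  rcases total_below hu hv with h' | h'
  · exact (hf u v hu0 (lt_of_le_of_ne h' hne)).ne h
  · exact (hf v u hv0 (lt_of_le_of_ne h' (Ne.symm hne))).ne' h

/-- The sliding relation. -/
def Slide (c1 c2 : ℝ) (w w' : X) : Prop :=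
  (w = ⊥ ∧ w' = ⊥) ∨ (w ≠ ⊥ ∧ w' ≠ ⊥ ∧ en w = en w' ∧
    c1 * ht ⊥ w' * (ht ⊥ (en w) - ht ⊥ w) = c2 * ht ⊥ w * (ht ⊥ (en w) - ht ⊥ w'))

lemma Slide.symm {c1 c2 : ℝ} {w w' : X} (h : Slide c1 c2 w w') : Slide c2 c1 w' w := by
  rcases h with h | ⟨h1, h2, h3, h4⟩
  · exact Or.inl h.symm
  · exact Or.inr ⟨h2, h1, h3.symm, by rw [← h3]; exact h4.symm⟩

lemma slide_unique {c1 c2 : ℝ} (h1 : 0 < c1) (h2 : 0 < c2) (w : X) : ∃! w', Slide c1 c2 w w' := by
  by_cases hw : w = ⊥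
  · refine ⟨⊥, Or.inl ⟨hw, rfl⟩, fun w' h => ?_⟩
    rcases h with h | h
    · exact h.2
    · exact absurd hw h.1
  have a1 := ht_pos hw
  have a2 : ht ⊥ w ≤ ht ⊥ (en w) := ht_strictMono.monotone (le_en w)
  set s := ht ⊥ w with hs
  set l := ht ⊥ (en w) with hl
  have hD : 0 < c1 * (l - s) + c2 * s := by
    have : 0 ≤ c1 * (l - s) := mul_nonneg h1.le (by linarith)
    have : 0 < c2 * s := mul_pos h2 a1
    linarith
  have hpos : 0 < c2 * s * l / (c1 * (l - s) + c2 * s) := by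
    have : 0 < l := by linarith
    positivity
  obtain ⟨w', hw', e⟩ := exists_ht_eq (y := en w) hpos.le (by
    rw [div_le_iff₀ hD]
    have : 0 ≤ l * (c1 * (l - s)) := mul_nonneg (by linarith) (mul_nonneg h1.le (by linarith))
    nlinarith)
  have hw0 : w' ≠ ⊥ := by
    rintro rfl
    rw [ht_self] at e
    exact hpos.ne e
  refine ⟨w', Or.inr ⟨hw, hw0, (en_eq hw0 (isMax_en w) hw').symm, ?_⟩, fun w'' h => ?_⟩
  · rw [e, ← hs, ← hl]
    field_simp
    ring
  · rcases h with h | ⟨-, k2, k3, k4⟩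
    · exact absurd h.1 hw
    refine eq_of_strictMono (f := ht ⊥) (fun u v _ h => ht_strictMono h) k2 hw0
      (k3 ▸ le_en w'') hw' ?_
    rw [e, eq_div_iff hD.ne']
    rw [← hs, ← hl] at k4
    linarith

lemma Slide.bound {c1 c2 : ℝ} {w w' : X} (h : Slide c1 c2 w w') :
    min c1 c2 * ht ⊥ w' ≤ c2 * ht ⊥ w := by
  rcases h with ⟨rfl, rfl⟩ | ⟨k1, k2, -, k4⟩
  · simp [ht_self]
  have a1 := ht_pos k1
  have a2 : ht ⊥ w ≤ ht ⊥ (en w) := ht_strictMono.monotone (le_en w)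
  have a3 := ht_pos k2
  set s := ht ⊥ w
  set l := ht ⊥ (en w)
  set s' := ht ⊥ w'
  have b1 : min c1 c2 ≤ c1 := min_le_left _ _
  have b2 : min c1 c2 ≤ c2 := min_le_right _ _
  have b3 : min c1 c2 * s' * (l - s) ≤ c1 * s' * (l - s) := by gcongr
  have b4 : min c1 c2 * s' * s ≤ c2 * s' * s := by gcongr
  have hl : 0 < l := by linarith
  refine le_of_mul_le_mul_right ?_ hl
  nlinarith

lemma slide (hs : IsClosed {p : X × X | p.1 ≤ p.2}) (hen : ∀ w : X, w ≠ ⊥ → ContinuousAt en w)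
    {e : X} (he : IsMax e) (ha : a ≠ ⊥) (hb : b ≠ ⊥) (hae : a < e) (hbe : b < e) :
    b ∈ orb a := by
  have hφ := continuous_ht hs
  obtain ⟨c1, hc1⟩ : ∃ c, c = ht ⊥ a * (ht ⊥ e - ht ⊥ b) := ⟨_, rfl⟩
  obtain ⟨c2, hc2⟩ : ∃ c, c = ht ⊥ b * (ht ⊥ e - ht ⊥ a) := ⟨_, rfl⟩
  have h1 : 0 < c1 := hc1 ▸ mul_pos (ht_pos ha) (sub_pos.mpr (ht_strictMono hbe))
  have h2 : 0 < c2 := hc2 ▸ mul_pos (ht_pos hb) (sub_pos.mpr (ht_strictMono hae))
  have hcl : IsClosed {p : X × X | Slide c1 c2 p.1 p.2} := by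
    refine isClosed_of_closure_subset ?_
    rintro ⟨w, w'⟩ hw
    have b1 := closure_minimal (t := {p : X × X | min c1 c2 * ht ⊥ p.2 ≤ c2 * ht ⊥ p.1})
        (fun p hp => Slide.bound hp) (isClosed_le (by fun_prop) (by fun_prop)) hw
    have b2 := closure_minimal (t := {p : X × X | min c2 c1 * ht ⊥ p.1 ≤ c1 * ht ⊥ p.2})
        (fun p hp => Slide.bound (Slide.symm hp)) (isClosed_le (by fun_prop) (by fun_prop)) hw
    simp only [mem_ofPred_eq] at b1 b2
    by_cases h0 : w = ⊥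
    · left
      refine ⟨h0, ?_⟩
      by_contra h0'
      rw [h0, ht_self, mul_zero] at b1
      exact absurd b1 (not_le.mpr (mul_pos (lt_min h1 h2) (ht_pos h0')))
    have h0' : w' ≠ ⊥ := by
      intro h0'
      rw [h0', ht_self, mul_zero] at b2
      exact absurd b2 (not_le.mpr (mul_pos (lt_min h2 h1) (ht_pos h0)))
    have hev : ∀ᶠ p : X × X in 𝓝 (w, w'), p.1 ≠ ⊥ :=
      continuous_fst.continuousAt.eventually_ne h0
    have hfr := (mem_closure_iff_frequently.mp hw).and_eventually hev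
    have e1 : ContinuousAt (fun p : X × X => en p.1) (w, w') :=
      ContinuousAt.comp' (f := Prod.fst) (g := en) (x := (w, w')) (hen w h0) continuousAt_fst
    have e2 : ContinuousAt (fun p : X × X => en p.2) (w, w') :=
      ContinuousAt.comp' (f := Prod.snd) (g := en) (x := (w, w')) (hen w' h0') continuousAt_snd
    have e3 : ContinuousAt (fun p : X × X => ht ⊥ (en p.1)) (w, w') := hφ.continuousAt.comp e1
    have e4 : ContinuousAt (fun p : X × X => ht ⊥ p.1) (w, w') := by fun_prop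
    have e5 : ContinuousAt (fun p : X × X => ht ⊥ p.2) (w, w') := by fun_prop
    refine Or.inr ⟨h0, h0', ?_, ?_⟩
    · refine tendsto_nhds_unique_of_frequently_eq e1 e2 (hfr.mono ?_)
      rintro p ⟨h | h, hp⟩
      · exact absurd h.1 hp
      · exact h.2.2.1
    · refine tendsto_nhds_unique_of_frequently_eq
        ((continuousAt_const.mul e5).mul (e3.sub e4)) ((continuousAt_const.mul e4).mul (e3.sub e5))
        (hfr.mono ?_)
      rintro p ⟨h | h, hp⟩
      · exact absurd h.1 hp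
      · exact h.2.2.2
  obtain ⟨h, hh⟩ := exists_homeo_of_rel (Slide c1 c2) hcl (slide_unique h1 h2) (fun w' => by
    obtain ⟨w, hw, hu⟩ := slide_unique h2 h1 w'
    exact ⟨w, Slide.symm hw, fun v hv => hu v (Slide.symm hv)⟩)
  refine ⟨h, (slide_unique h1 h2 a).unique (hh a) (Or.inr ⟨ha, hb, ?_, ?_⟩)⟩
  · rw [en_eq ha he hae.le, en_eq hb he hbe.le]
  · rw [en_eq ha he hae.le, hc1, hc2]; ring

lemma Four.closed_of_en (F : Four a b) (hen : ∀ w : X, w ≠ ⊥ → ContinuousAt en w) :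
    IsClosed {p : X × X | p.1 ≤ p.2} := by
  refine isClosed_of_closure_subset ?_
  rintro ⟨y, p⟩ hq
  by_cases hy : y = ⊥
  · exact show y ≤ p from hy ▸ bot_le
  have : (y, p) ∈ closure {q : X × X | q.1 ≤ q.2 ∧ q.2 ≤ en y} := by
    refine Metric.mem_closure_iff.mpr fun ε hε => ?_
    obtain ⟨δ, hδ, h⟩ := F.micro (isMax_en y) (half_pos hε)
    have hev : ∀ᶠ q : X × X in 𝓝 (y, p),
        (q.1 ≠ ⊥ ∧ dist (en q.1) (en y) < δ) ∧ dist q (y, p) < ε / 2 :=
      ((continuous_fst.tendsto (y, p)).eventually (p := fun u => u ≠ ⊥ ∧ dist (en u) (en y) < δ)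
        ((continuousAt_id.eventually_ne hy).and (Metric.tendsto_nhds.mp (hen y hy) δ hδ))).and
        (Metric.tendsto_nhds.mp tendsto_id _ (half_pos hε))
    obtain ⟨⟨u, v⟩, huv, ⟨hu, hd⟩, hd'⟩ := ((mem_closure_iff_frequently.mp hq).and_eventually
      hev).exists
    obtain ⟨g, hg, hge⟩ := h _ (isMax_en u) hd
    refine ⟨(g.symm u, g.symm v), ⟨map_le _ huv, ?_⟩, ?_⟩
    · rw [← map_le_iff g, g.apply_symm_apply, hge]
      exact le_en_of_le hu huv
    · have a1 := hg.symm u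
      have a2 := hg.symm v
      have a3 : dist (g.symm u, g.symm v) (u, v) ≤ ε / 2 := by
        rw [Prod.dist_eq]; exact max_le a1 a2
      have := dist_triangle (g.symm u, g.symm v) (u, v) (y, p)
      rw [dist_comm]
      linarith
  exact ((isClosed_le_below (en y)).closure_subset this).1

theorem Four.exists_acc (F : Four a b) :
    ∃ x ∈ closure {e : X | IsMax e}, x ≠ ⊥ ∧ ¬ IsMax x := by
  by_contra hcon
  push Not at hcon
  have hen : ∀ w : X, w ≠ ⊥ → ContinuousAt en w := by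
    intro w hw
    refine Metric.tendsto_nhds.mpr fun ε hε => ?_
    have hC : IsClosed (Prod.fst '' (Q X ∩ {p | p.2 ∈ closure {e : X | IsMax e}} ∩
        {p | ε ≤ dist p.2 (en w)})) :=
      isClosedMap_fst_of_compactSpace _ ((isClosed_Q.inter
        (isClosed_closure.preimage continuous_snd)).inter
        (isClosed_le continuous_const (by fun_prop)))
    have hw' : w ∈ (Prod.fst '' (Q X ∩ {p | p.2 ∈ closure {e : X | IsMax e}} ∩
        {p | ε ≤ dist p.2 (en w)}))ᶜ := by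
      rintro ⟨⟨u, x⟩, ⟨⟨h1, h2⟩, h3⟩, rfl⟩
      have hx := hcon x h2 (F.ne_bot_of_Q h1 hw)
      have : x = en u := le_antisymm (F.le_end_of_Q h1 hw (isMax_en u) (le_en u))
        (hx (F.le_end_of_Q h1 hw (isMax_en u) (le_en u)))
      simp only [this, mem_ofPred_eq, dist_self] at h3
      exact absurd h3 (not_le.mpr hε)
    filter_upwards [hC.isOpen_compl.mem_nhds hw'] with u hu
    by_contra h
    exact hu ⟨(u, en u), ⟨⟨mem_Q_of_le (le_en u), subset_closure (isMax_en u)⟩, not_lt.mp h⟩, rfl⟩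
  obtain ⟨g, hg⟩ := F.exists_le_end b (isMax_en a)
  have := slide (F.closed_of_en hen) hen (isMax_en a) F.a_ne (map_ne_bot g F.b_ne)
    (lt_of_le_of_ne (le_en a) (fun e => F.a_nmax (e ▸ isMax_en a)))
    (lt_of_le_of_ne hg (fun e => orb_not_isMax F.b_nmax ⟨g, rfl⟩ (e ▸ isMax_en a)))
  exact F.not_orb (orb_trans this (orb_symm ⟨g, rfl⟩))

end Pool.Agent.P.MP_64e39e_gt
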